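import Pool.Agent.H78.TD.Df

/-!
Row Ka (about 110 lines): the subgroups fixing a field, lifts, Kummer theory.

PROOF.
SA_normal: for g, σ ∈ SA K L Ω, x : L: g⁻¹ (algebraMap x) = algebraMap (g⁻¹.restrictNormal L x) (AlgEquiv.restrictNormal_commutes), σ fixes it, so g (σ (g⁻¹ x)) = g (g⁻¹ x) = x.
SA_le: if L is an extension of K inside F (tower K L F, L F Ω) an automorphism fixing F fixes L.
mem_F: InfiniteGalois.mem_bot_iff_fixed (k := F) x (every σ : Ω ≃ₐ[F] Ω restricts to an element of SA K F Ω) and IntermediateField.mem_bot, as in H11/Kummer.lean.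
exists_lift: g : F ≃ₐ[K] F, AlgEquiv.liftNormal g (AlgebraicClosure F), AlgEquiv.liftNormal_commutes (Normal K (AlgebraicClosure F): IsAlgClosure K _ from H10/Func5 isAlgClosure_closure, IsAlgClosure.normal).
kum: Pool.Agent.H11.kummer with k := F, kb := Ω, χ σ := Units.mk0 (ψ (σ.restrictScalars K)) _ (ψ ≠ 0 since ψ ^ l = 1, l ≠ 0); hfix: ψ τ is the image of an element of F by hμ; M₀ := IntermediateField.adjoin F S (S finite, all elements algebraic: IntermediateField.finiteDimensional_adjoin). r ^ l is fixed by all σ (ψ ^ l = 1), so r ^ l = algebraMap d by mem_F; d ≠ 0 as r ≠ 0.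
-/

set_option autoImplicit false
open scoped Classical

open WeierstrassCurve NumberField Pool.Agent.H10 Pool.Agent.H11

namespace H78D

theorem SA_normal {K L Ω : Type} [Field K] [Field L] [Field Ω] [Algebra K L] [Algebra K Ω]
    [Algebra L Ω] [IsScalarTower K L Ω] [Normal K L] : (SA K L Ω).Normal := by
  refine ⟨fun σ hσ g => ?_⟩
  rw [mem_SA] at hσ ⊢
  intro x
  have h1 : g⁻¹ (algebraMap L Ω x) = algebraMap L Ω (AlgEquiv.restrictNormal g⁻¹ L x) :=
    (AlgEquiv.restrictNormal_commutes g⁻¹ L x).symm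
  rw [AlgEquiv.mul_apply, AlgEquiv.mul_apply, h1, hσ, ← h1, ← AlgEquiv.mul_apply, mul_inv_cancel,
    AlgEquiv.one_apply]

theorem SA_le {K L F Ω : Type} [Field K] [Field L] [Field F] [Field Ω] [Algebra K Ω]
    [Algebra L F] [Algebra L Ω] [Algebra F Ω] [IsScalarTower L F Ω] : SA K F Ω ≤ SA K L Ω := by
  intro σ hσ
  rw [mem_SA] at hσ ⊢
  intro x
  rw [IsScalarTower.algebraMap_apply L F Ω, hσ]

section

variable {K F : Type} [Field K] [NumberField K] [Field F] [NumberField F] [Algebra K F]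

theorem mem_F (x : AlgebraicClosure F) (hx : ∀ σ ∈ SA K F (AlgebraicClosure F), σ x = x) :
    ∃ y : F, algebraMap F (AlgebraicClosure F) y = x := by
  have h1 := (InfiniteGalois.mem_bot_iff_fixed (k := F) x).mpr (fun σ =>
    hx (σ.restrictScalars K) (fun z => σ.commutes z))
  obtain ⟨c, hc⟩ := IntermediateField.mem_bot.mp h1
  exact ⟨c, hc⟩

theorem exists_lift (g : F ≃ₐ[K] F) : ∃ σ : AlgebraicClosure F ≃ₐ[K] AlgebraicClosure F,
    ∀ x : F, σ (algebraMap F (AlgebraicClosure F) x) = algebraMap F (AlgebraicClosure F) (g x) := by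
  have : FiniteDimensional K F := Module.Finite.of_restrictScalars_finite ℚ K F
  have : IsAlgClosure K (AlgebraicClosure F) := isAlgClosure_closure
  have : Normal K (AlgebraicClosure F) := IsAlgClosure.normal K (AlgebraicClosure F)
  exact ⟨AlgEquiv.liftNormal g (AlgebraicClosure F), fun x => AlgEquiv.liftNormal_commutes g _ x⟩

theorem kum {l : ℕ} (hl : l ≠ 0)
    (ψ : (AlgebraicClosure F ≃ₐ[K] AlgebraicClosure F) → AlgebraicClosure F)
    (h1 : ∀ σ ∈ SA K F (AlgebraicClosure F), ψ σ ^ l = 1)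
    (h2 : ∀ σ ∈ SA K F (AlgebraicClosure F), ∀ τ ∈ SA K F (AlgebraicClosure F),
      ψ (σ * τ) = ψ σ * ψ τ)
    (h3 : ∃ S : Finset (AlgebraicClosure F), ∀ σ ∈ SA K F (AlgebraicClosure F),
      (∀ x ∈ S, σ x = x) → ψ σ = 1)
    (hμ : ∀ z : AlgebraicClosure F, z ^ l = 1 → ∃ y : F, algebraMap F (AlgebraicClosure F) y = z) :
    ∃ (r : AlgebraicClosure F) (d : F), r ≠ 0 ∧ d ≠ 0 ∧ r ^ l = algebraMap F (AlgebraicClosure F) d ∧
      ∀ σ ∈ SA K F (AlgebraicClosure F), σ r = ψ σ * r := by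
  have hm : ∀ σ : AlgebraicClosure F ≃ₐ[F] AlgebraicClosure F,
      σ.restrictScalars K ∈ SA K F (AlgebraicClosure F) := fun σ z => σ.commutes z
  have hne : ∀ σ ∈ SA K F (AlgebraicClosure F), ψ σ ≠ 0 := by
    intro σ hσ h0
    have h4 := h1 σ hσ
    rw [h0, zero_pow hl] at h4
    exact zero_ne_one h4
  let χ : (AlgebraicClosure F ≃ₐ[F] AlgebraicClosure F) → (AlgebraicClosure F)ˣ := fun σ =>
    Units.mk0 (ψ (σ.restrictScalars K)) (hne _ (hm σ))
  have hχ : ∀ σ, ((χ σ : (AlgebraicClosure F)ˣ) : AlgebraicClosure F) = ψ (σ.restrictScalars K) :=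
    fun _ => rfl
  obtain ⟨S, hS⟩ := h3
  let M₀ : IntermediateField F (AlgebraicClosure F) :=
    IntermediateField.adjoin F (S : Set (AlgebraicClosure F))
  have hfin : FiniteDimensional F M₀ :=
    IntermediateField.finiteDimensional_adjoin (fun x _ => Algebra.IsIntegral.isIntegral x)
  obtain ⟨r, hr0, hr⟩ := kummer χ (fun σ τ => by
      apply Units.ext
      rw [Units.val_mul, hχ, hχ, hχ, ← h2 _ (hm σ) _ (hm τ)]
      rfl)
    (fun σ τ => by
      rw [hχ]
      obtain ⟨y, hy⟩ := hμ _ (h1 _ (hm τ))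
      rw [← hy, σ.commutes])
    M₀ (fun σ hσ => by
      apply Units.ext
      rw [hχ, Units.val_one]
      exact hS _ (hm σ) (fun x hx => hσ x (IntermediateField.subset_adjoin F _ hx)))
  have hr' : ∀ σ ∈ SA K F (AlgebraicClosure F), σ r = ψ σ * r := by
    intro σ hσ
    exact hr (toL σ hσ)
  have hrl : ∀ σ ∈ SA K F (AlgebraicClosure F), σ (r ^ l) = r ^ l := by
    intro σ hσ
    rw [map_pow, hr' σ hσ, mul_pow, h1 σ hσ, one_mul]
  obtain ⟨d, hd⟩ := mem_F (r ^ l) hrl
  refine ⟨r, d, hr0, ?_, hd.symm, hr'⟩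
  rintro rfl
  rw [map_zero] at hd
  exact pow_ne_zero l hr0 hd.symm

end

end H78D
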