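import Pool.Agent.H78.TD.Df
import Pool.Agent.H2.T4.PZ

/-!
Row Wa (about 120 lines): the Weil pairing with T, and the pairing on the multiples of T.

PROOF of exists_weil. H2T4.weil with k := AlgebraicClosure F =: Ω, W := W.baseChange Ω (elliptic: instEllBaseChange of H11/Local; IsAlgClosed, CharZero instances), T₀ := T, J := (Jh : Ω →+* Ω), hJ := inv_up hV Jh (act (inv_up hV) Jh = pm Jh _ by definition). Take its e (classical DecidableEq instances agree: both files open Classical).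
 Pr l {x | l • x = 0} e: zero smul_zero; tor id; mem smul_add; add, pow from weil.
 Kp for σ ∈ SA K Km Ω: l • ρ σ x = ρ σ (l • x) = 0; e (ρ σ x) = σ (e x) (sixth property, as ρ σ T = T), and σ (e x) = e x by hμ (e x ^ l = 1).
 Jh: e (ρ Jh x) * Jh (e x) = 1 (last property, ρ Jh T = - T) and Jh (e x) = (e x)⁻¹ (hJz), e x ≠ 0: so e (ρ Jh x) = e x.
PROOF of exists_pairC (abstract group A, action ρ by additive maps). T has order l (addOrderOf_eq_prime). b x := if h : ∃ j : ℕ, x = j • T then ζ ^ (Classical.choose h) else 1. If x = j • T then b x = ζ ^ j: choose gives j' with j • T = j' • T, so j ≡ j' mod l (addOrderOf: addOrderOf_nsmul / nsmul_eq_nsmul_iff_modEq), ζ^l = 1 so ζ^j = ζ^j' (pow_eq_pow_iff_modEq, IsPrimitiveRoot.eq_orderOf).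
 Pr: zero j = 0; tor; mem j + j'; add pow_add; pow (ζ^j)^l = 1. b x = 1: ζ^j = 1, l ∣ j (IsPrimitiveRoot.dvd_of_pow_eq_one), x = 0.
 σ T = T: ρ σ (j • T) = j • T. σ T = - T: ρ σ (j • T) = - (j • T) = (j * (l - 1)) • T, b = ζ^(j (l-1)), times ζ^j = ζ^(j l) = 1.
-/

set_option autoImplicit false
open scoped Classical

open WeierstrassCurve IsDedekindDomain NumberField Pool.Agent.H10 Pool.Agent.H11

namespace H78D

theorem exists_weil {K Km F : Type} [Field K] [NumberField K] [Field Km] [Field F]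
    [NumberField F] [Algebra K F] [Algebra Km F] {V : WeierstrassCurve K} {W : WeierstrassCurve F}
    [W.IsElliptic] (hV : V.map (algebraMap K F) = W) {l : ℕ} (hl : l.Prime) (h3 : 3 ≤ l)
    {T : (W.baseChange (AlgebraicClosure F)).toAffine.Point} (hT0 : T ≠ 0) (hT : l • T = 0)
    {Jh : AlgebraicClosure F ≃ₐ[K] AlgebraicClosure F} (hJT : act (inv_up hV) Jh T = -T)
    (hJz : ∀ z : AlgebraicClosure F, z ^ l = 1 → Jh z = z⁻¹)
    (hμ : ∀ σ ∈ SA K Km (AlgebraicClosure F), ∀ z : AlgebraicClosure F, z ^ l = 1 → σ z = z)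
    (hfix : ∀ σ ∈ SA K Km (AlgebraicClosure F), act (inv_up hV) σ T = T) :
    ∃ e : (W.baseChange (AlgebraicClosure F)).toAffine.Point → AlgebraicClosure F,
      Pr l {x | l • x = 0} e ∧ (∀ x, l • x = 0 → (e x = 1 ↔ ∃ j : ℕ, x = j • T)) ∧
      (∀ σ ∈ SA K Km (AlgebraicClosure F), Kp (act (inv_up hV)) {x | l • x = 0} e σ) ∧
      (∀ x, l • x = 0 → e (act (inv_up hV) Jh x) = e x) := by
  obtain ⟨e, e1, e2, -, e4, e5, e6⟩ := H2T4.weil (W.baseChange (AlgebraicClosure F)) l hl h3 T hT0 hT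
    (Jh : AlgebraicClosure F →+* AlgebraicClosure F) (inv_up hV Jh) hJT hJz
  have hz : l • (0 : (W.baseChange (AlgebraicClosure F)).toAffine.Point) = 0 := nsmul_zero l
  have htor : ∀ (σ : AlgebraicClosure F ≃ₐ[K] AlgebraicClosure F) x, l • x = 0 →
      l • act (inv_up hV) σ x = 0 := by
    intro σ x hx
    rw [← map_nsmul, hx, map_zero]
  refine ⟨e, ⟨hz, fun x hx => hx, fun x hx y hy => ?_, fun x hx y hy => e2 x y hx hy,
    fun x hx => e1 x hx⟩, e4, fun σ hσ x hx => ⟨htor σ x hx, ?_⟩, fun x hx => ?_⟩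
  · have hx' : l • x = 0 := hx
    have hy' : l • y = 0 := hy
    exact (nsmul_add x y l).trans (by rw [hx', hy', add_zero])
  · have h1 := e5 (σ : AlgebraicClosure F →+* AlgebraicClosure F) (inv_up hV σ) (hfix σ hσ) x hx
    have h2 : ((σ : AlgebraicClosure F →+* AlgebraicClosure F)) (e x) = e x :=
      hμ σ hσ _ (e1 x hx)
    rw [h2] at h1
    exact h1
  · have h1 := e6 (Jh : AlgebraicClosure F →+* AlgebraicClosure F) (inv_up hV Jh) hJT x hx
    have h2 : ((Jh : AlgebraicClosure F →+* AlgebraicClosure F)) (e x) = (e x)⁻¹ :=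
      hJz _ (e1 x hx)
    have h0 : e x ≠ 0 := by
      intro h
      have h4 := e1 x hx
      rw [h, zero_pow hl.ne_zero] at h4
      exact zero_ne_one h4
    rw [h2] at h1
    exact (mul_inv_eq_one₀ h0).1 h1

theorem exists_pairC {G A Ω : Type*} [Group G] [AddCommGroup A] [Field Ω] (ρ : G → A →+ A) {l : ℕ}
    (hl : l.Prime) {T : A} (hT0 : T ≠ 0) (hT : l • T = 0) {ζ : Ω} (hζ : IsPrimitiveRoot ζ l) :
    ∃ b : A → Ω, Pr l {x | ∃ j : ℕ, x = j • T} b ∧ (∀ x, (∃ j : ℕ, x = j • T) → b x = 1 → x = 0) ∧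
      (∀ x, (∃ j : ℕ, x = j • T) → ∃ j : ℕ, b x = ζ ^ j) ∧
      (∀ σ, ρ σ T = T → Kp ρ {x | ∃ j : ℕ, x = j • T} b σ) ∧
      (∀ σ, ρ σ T = -T → ∀ x ∈ {x | ∃ j : ℕ, x = j • T},
        ρ σ x ∈ {x | ∃ j : ℕ, x = j • T} ∧ b (ρ σ x) = (b x)⁻¹) := by
  have : Fact l.Prime := ⟨hl⟩
  have hord : addOrderOf T = l := addOrderOf_eq_prime hT hT0
  obtain ⟨b, hb⟩ : ∃ b : A → Ω, ∀ j : ℕ, b (j • T) = ζ ^ j := by
    refine ⟨fun x => if h : ∃ j : ℕ, x = j • T then ζ ^ (Classical.choose h) else 1, fun j => ?_⟩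
    have h : ∃ j' : ℕ, j • T = j' • T := ⟨j, rfl⟩
    simp only [dif_pos h]
    have h1 := Classical.choose_spec h
    rw [nsmul_eq_nsmul_iff_modEq, hord] at h1
    exact pow_eq_pow_of_modEq h1.symm hζ.pow_eq_one
  have hl0 : ∀ j : ℕ, l • (j • T) = 0 := fun j => by rw [smul_comm, hT, smul_zero]
  have hzl : ζ ^ l = 1 := hζ.pow_eq_one
  refine ⟨b, ⟨⟨0, by simp⟩, ?_, ?_, ?_, ?_⟩, ?_, ?_, ?_, ?_⟩
  · rintro _ ⟨j, rfl⟩
    exact hl0 j
  · rintro _ ⟨j, rfl⟩ _ ⟨j', rfl⟩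
    exact ⟨j + j', (add_nsmul T j j').symm⟩
  · rintro _ ⟨j, rfl⟩ _ ⟨j', rfl⟩
    rw [← add_nsmul, hb, hb, hb, pow_add]
  · rintro _ ⟨j, rfl⟩
    rw [hb, ← pow_mul, mul_comm, pow_mul, hzl, one_pow]
  · rintro _ ⟨j, rfl⟩ h1
    rw [hb] at h1
    obtain ⟨c, rfl⟩ := hζ.dvd_of_pow_eq_one j h1
    rw [mul_comm, mul_nsmul', hT, smul_zero]
  · rintro _ ⟨j, rfl⟩
    exact ⟨j, hb j⟩
  · rintro σ hσ _ ⟨j, rfl⟩
    have h1 : ρ σ (j • T) = j • T := by rw [map_nsmul, hσ]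
    rw [h1]
    exact ⟨⟨j, rfl⟩, rfl⟩
  · rintro σ hσ _ ⟨j, rfl⟩
    have h1 : ρ σ (j • T) = (j * (l - 1)) • T := by
      rw [map_nsmul, hσ, mul_nsmul']
      congr 1
      have h2 : (l - 1) • T + T = 0 := by
        rw [← succ_nsmul, Nat.sub_add_cancel hl.one_le, hT]
      exact (eq_neg_of_add_eq_zero_left h2).symm
    rw [h1]
    refine ⟨⟨_, rfl⟩, ?_⟩
    rw [hb, hb]
    apply eq_inv_of_mul_eq_one_left
    rw [← pow_add]
    have h3 : j * (l - 1) + j = l * j := by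
      have h4 : l - 1 + 1 = l := Nat.sub_add_cancel hl.one_le
      calc j * (l - 1) + j = j * (l - 1 + 1) := by ring
        _ = l * j := by rw [h4, mul_comm]
    rw [h3, pow_mul, hzl, one_pow]

end H78D
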