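import Pool.Agent.H78.TD.Ga

/-!
Row Gc (about 80 lines, pure group theory): from one element to all.

PROOF of all_of_one. First for the powers h^j by induction on j, with T_0 = 0: cjf (h^(j+1)) f s = cjf (h^j) (cjf h f) s (cjf_mul, h^(j+1) = h^j * h) = ρ (h^j) ((cjf h f) (h^-j s h^j)) = ρ (h^j) (f (h^-j s h^j) + (ρ (h^-j s h^j) R - R)) (h^-j s h^j ∈ SL, SL normal)
 = cjf (h^j) f s + (ρ s (ρ (h^j) R) - ρ (h^j) R) (this is cjf_cob) = f s + (ρ s (T_j + ρ (h^j) R) - (T_j + ρ (h^j) R)). l • ρ (h^j) R = ρ (h^j) (l • R) = 0.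
 For g = h^j * t, t ∈ SL: cjf (h^j * t) f s = cjf (h^j) (cjf t f) s = ρ (h^j) (cjf t f (h^-j s h^j)) = ρ (h^j) (f (h^-j s h^j) + (ρ (h^-j s h^j) (f t) - f t)) (cjf_inner) = cjf (h^j) f s + (ρ s (ρ (h^j) (f t)) - ρ (h^j) (f t)): T = T_j + ρ (h^j) (f t).
PROOF of pow_pair. Induction on N ≥ 1: s^(N+1) = s * s^N: f (s * s^N) = f s + ρ s (f (s^N)), f (s^N) ∈ B (s^N ∈ S), Kp for s, Pr.add. Start N = 1. (If N = 0: f 1 = 0 by cocOn_one and b 0 = 1 since b 0 = b 0 * b 0 and b 0 ≠ 0; so all N are fine.)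
PROOF of prod_pair. b (f (h^-j s h^j)) = b (ρ (h^j) (f (h^-j s h^j))) = b (cjf ρ (h^j) f s) since Kp for h gives Kp for h^j (induction: Rho.mul, Rho.one). Induction on the finset range: b (∑) = ∏ b (Pr.add, Pr.mem, Pr.zero), all terms in B; so the product is b (ρ s R - R). ρ s R - R ∈ B: -R = (l - 1) • R is in B (Pr.mem, Pr.zero, l ≥ 1, Pr.tor), and b (ρ s R) = b (ρ s R - R) * b R, b (ρ s R) = b R ≠ 0 (pow). So it is 1.
-/

set_option autoImplicit false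
open scoped Classical

namespace H78D

variable {G A : Type*} [Group G] [AddCommGroup A] {ρ : G → A →+ A}

theorem Gc_pow (hρ : Rho ρ) {l : ℕ} {SL : Subgroup G} [SL.Normal] {h : G} {f : G → A}
    {R : A} (hR : l • R = 0)
    (hh : ∀ s ∈ SL, cjf ρ h f s = f s + (ρ s R - R)) (j : ℕ) :
    ∃ T, l • T = 0 ∧ ∀ s ∈ SL, cjf ρ (h ^ j) f s = f s + (ρ s T - T) := by
  induction j with
  | zero => exact ⟨0, smul_zero _, fun s hs => by simp [cjf, hρ.one]⟩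
  | succ j ih =>
    obtain ⟨T, hT, hT'⟩ := ih
    refine ⟨T + ρ (h ^ j) R, ?_, ?_⟩
    · rw [smul_add, hT, zero_add, ← map_nsmul, hR, map_zero]
    · intro s hs
      have hs' : (h ^ j)⁻¹ * s * h ^ j ∈ SL := by
        have := Subgroup.Normal.conj_mem ‹SL.Normal› s hs (h ^ j)⁻¹
        rwa [inv_inv] at this
      rw [pow_succ, cjf_mul hρ]
      have e1 : cjf ρ (h ^ j) (cjf ρ h f) s = ρ (h ^ j) (cjf ρ h f ((h ^ j)⁻¹ * s * h ^ j)) := rfl
      rw [e1, hh _ hs', map_add]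
      have e2 : ρ (h ^ j) (f ((h ^ j)⁻¹ * s * h ^ j)) = cjf ρ (h ^ j) f s := rfl
      have e4 : ρ (h ^ j) (ρ ((h ^ j)⁻¹ * s * h ^ j) R - R) = ρ s (ρ (h ^ j) R) - ρ (h ^ j) R :=
        cjf_cob hρ (h ^ j) R s
      rw [e2, e4, hT' s hs, map_add]
      abel

theorem Gc_zero {Ω : Type*} [Field Ω] {l : ℕ} (hl : l ≠ 0) {B : Set A} {b : A → Ω}
    (hb : Pr l B b) : b 0 = 1 := by
  have h1 := hb.add 0 hb.zero 0 hb.zero
  rw [add_zero] at h1
  have h2 : b 0 ≠ 0 := by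
    intro h
    have h3 := hb.pow 0 hb.zero
    rw [h, zero_pow hl] at h3
    exact zero_ne_one h3
  exact (mul_eq_left₀ h2).mp h1.symm

theorem Gc_kp {Ω : Type*} [Field Ω] (hρ : Rho ρ) {B : Set A} {b : A → Ω} {h : G}
    (hh : Kp ρ B b h) (j : ℕ) : Kp ρ B b (h ^ j) := by
  induction j with
  | zero =>
    intro x hx
    rw [pow_zero, hρ.one]
    exact ⟨hx, rfl⟩
  | succ j ih =>
    intro x hx
    rw [pow_succ, hρ.mul]
    have h1 := hh x hx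
    have h2 := ih _ h1.1
    exact ⟨h2.1, h2.2.trans h1.2⟩

theorem Gc_sum {Ω : Type*} [Field Ω] {l : ℕ} (hl : l ≠ 0) {B : Set A} {b : A → Ω}
    (hb : Pr l B b) (c : ℕ → A) (hc : ∀ j, c j ∈ B) (P : ℕ) :
    ∑ j ∈ Finset.range P, c j ∈ B ∧
      b (∑ j ∈ Finset.range P, c j) = ∏ j ∈ Finset.range P, b (c j) := by
  induction P with
  | zero =>
    rw [Finset.sum_range_zero, Finset.prod_range_zero]
    exact ⟨hb.zero, Gc_zero hl hb⟩
  | succ P ih =>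
    rw [Finset.sum_range_succ, Finset.prod_range_succ]
    exact ⟨hb.mem _ ih.1 _ (hc P), by rw [hb.add _ ih.1 _ (hc P), ih.2]⟩

theorem all_of_one (hρ : Rho ρ) {l : ℕ} {SL : Subgroup G} [SL.Normal] {h : G} {f : G → A}
    (hf : CocOn ρ SL f) (htor : ∀ s ∈ SL, l • f s = 0) {R : A} (hR : l • R = 0)
    (hh : ∀ s ∈ SL, cjf ρ h f s = f s + (ρ s R - R)) {j : ℕ} {t : G} (ht : t ∈ SL) :
    ∃ T, l • T = 0 ∧ ∀ s ∈ SL, cjf ρ (h ^ j * t) f s = f s + (ρ s T - T) := by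
  obtain ⟨T, hT, hT'⟩ := Gc_pow hρ hR hh j
  refine ⟨T + ρ (h ^ j) (f t), ?_, ?_⟩
  · rw [smul_add, hT, zero_add, ← map_nsmul, htor t ht, map_zero]
  · intro s hs
    have hs' : (h ^ j)⁻¹ * s * h ^ j ∈ SL := by
      have := Subgroup.Normal.conj_mem ‹SL.Normal› s hs (h ^ j)⁻¹
      rwa [inv_inv] at this
    rw [cjf_mul hρ]
    have e1 : cjf ρ (h ^ j) (cjf ρ t f) s = ρ (h ^ j) (cjf ρ t f ((h ^ j)⁻¹ * s * h ^ j)) := rfl
    rw [e1, cjf_inner hρ hf ht hs', map_add]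
    have e2 : ρ (h ^ j) (f ((h ^ j)⁻¹ * s * h ^ j)) = cjf ρ (h ^ j) f s := rfl
    have e4 : ρ (h ^ j) (ρ ((h ^ j)⁻¹ * s * h ^ j) (f t) - f t) =
        ρ s (ρ (h ^ j) (f t)) - ρ (h ^ j) (f t) := cjf_cob hρ (h ^ j) (f t) s
    rw [e2, e4, hT' s hs, map_add]
    abel

theorem pow_pair {Ω : Type*} [Field Ω] (hρ : Rho ρ) {l : ℕ} (hl : l ≠ 0) {B : Set A} {b : A → Ω}
    (hb : Pr l B b) {S : Subgroup G} {f : G → A} (hf : CocOn ρ S f) (hfB : ∀ s ∈ S, f s ∈ B)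
    (hinv : ∀ s ∈ S, Kp ρ B b s) {s : G} (hs : s ∈ S) (N : ℕ) : b (f (s ^ N)) = b (f s) ^ N := by
  induction N with
  | zero => rw [pow_zero, pow_zero, cocOn_one hρ hf, Gc_zero hl hb]
  | succ N ih =>
    have hN : s ^ N ∈ S := S.pow_mem hs N
    have h1 := hinv s hs _ (hfB _ hN)
    rw [pow_succ', hf s hs _ hN, hb.add _ (hfB s hs) _ h1.1, h1.2, ih, pow_succ']

theorem prod_pair {Ω : Type*} [Field Ω] (hρ : Rho ρ) {l : ℕ} (hl : l ≠ 0) {B : Set A} {b : A → Ω}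
    (hb : Pr l B b) {S : Subgroup G} [S.Normal] {f : G → A} (hfB : ∀ s ∈ S, f s ∈ B)
    (hinv : ∀ s ∈ S, Kp ρ B b s) {h : G} (hh : Kp ρ B b h) {P : ℕ} {R : A} (hR : R ∈ B) {s : G}
    (hs : s ∈ S) (hsum : ∑ j ∈ Finset.range P, cjf ρ (h ^ j) f s = ρ s R - R) :
    ∏ j ∈ Finset.range P, b (f ((h ^ j)⁻¹ * s * h ^ j)) = 1 := by
  have hs' : ∀ j : ℕ, (h ^ j)⁻¹ * s * h ^ j ∈ S := by
    intro j
    have := Subgroup.Normal.conj_mem ‹S.Normal› s hs (h ^ j)⁻¹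
    rwa [inv_inv] at this
  have hk : ∀ j : ℕ, cjf ρ (h ^ j) f s ∈ B ∧
      b (cjf ρ (h ^ j) f s) = b (f ((h ^ j)⁻¹ * s * h ^ j)) :=
    fun j => Gc_kp hρ hh j _ (hfB _ (hs' j))
  have h1 := Gc_sum hl hb (fun j => cjf ρ (h ^ j) f s) (fun j => (hk j).1) P
  have h2 : ∏ j ∈ Finset.range P, b (f ((h ^ j)⁻¹ * s * h ^ j)) = b (ρ s R - R) := by
    rw [← hsum, h1.2]
    exact Finset.prod_congr rfl fun j _ => (hk j).2.symm
  have hm : ∀ n : ℕ, n • R ∈ B := by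
    intro n
    induction n with
    | zero => rw [zero_smul]; exact hb.zero
    | succ n ih => rw [add_smul, one_smul]; exact hb.mem _ ih _ hR
  have hneg : -R ∈ B := by
    have h3 : (l - 1) • R = -R := by
      have h4 : (l - 1 + 1) • R = 0 := by
        rw [Nat.sub_add_cancel (Nat.one_le_iff_ne_zero.mpr hl)]
        exact hb.tor R hR
      rw [add_smul, one_smul] at h4
      exact eq_neg_of_add_eq_zero_left h4
    rw [← h3]
    exact hm _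
  have h5 := hinv s hs R hR
  have h6 : ρ s R - R ∈ B := by
    rw [sub_eq_add_neg]
    exact hb.mem _ h5.1 _ hneg
  have h7 := hb.add _ h6 _ hR
  rw [sub_add_cancel, h5.2] at h7
  have h8 : b R ≠ 0 := by
    intro h
    have h9 := hb.pow R hR
    rw [h, zero_pow hl] at h9
    exact zero_ne_one h9
  rw [h2]
  exact (mul_eq_right₀ h8).mp h7.symm

end H78D
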