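import Pool.Agent.H78.TD.Df

/-!
Row Ga (about 110 lines, pure group theory): conjugation of cochains.

PROOF. All unfold cjf. rho_act: act_one and act_mul of H10/Func1.
cjf_mul: (g g')⁻¹ s (g g') = g'⁻¹ (g⁻¹ s g) g' (group), hρ.mul.
cjf_inner: f (t⁻¹ * (s * t)) = f t⁻¹ + ρ t⁻¹ (f (s t)) = f t⁻¹ + ρ t⁻¹ (f s + ρ s (f t)); 0 = f 1 (from f 1 = f 1 + ρ 1 (f 1)) = f (t t⁻¹) = f t + ρ t (f t⁻¹); apply ρ t: ρ t (f t⁻¹) = - f t and ρ t (ρ t⁻¹ a) = a.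
cocOn_cjf: g⁻¹ (s t) g = (g⁻¹ s g) (g⁻¹ t g), both in S (S normal: Subgroup.Normal.conj_mem with g⁻¹), ρ g (ρ (g⁻¹ s g) a) = ρ (s g) a = ρ s (ρ g a).
sum_cjf: cjf is additive in f: cjf (h^j) (cjf h f - f) s = cjf (h^(j+1)) f s - cjf (h^j) f s (cjf_mul with h^j * h = h^(j+1)); Finset.sum_range_sub; cjf (h^0) f s = f s (hρ.one, h^0 = 1).
cjf_cob: ρ g (ρ (g⁻¹ s g) Q - Q) = ρ (s g) Q - ρ g Q.
-/

set_option autoImplicit false
open scoped Classical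

open WeierstrassCurve Pool.Agent.H10 Pool.Agent.H11

namespace H78D

theorem rho_act {K Ω : Type} [Field K] [Field Ω] [Algebra K Ω] {E : WeierstrassCurve Ω}
    (h : Inv K E) : Rho (act h) := by
  exact ⟨fun a => Pool.Agent.H10.act_one h a, fun g g' a => Pool.Agent.H10.act_mul h g g' a⟩

variable {G A : Type*} [Group G] [AddCommGroup A] {ρ : G → A →+ A}

theorem cjf_mul (hρ : Rho ρ) (g g' : G) (f : G → A) (s : G) :
    cjf ρ (g * g') f s = cjf ρ g (cjf ρ g' f) s := by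
  unfold cjf
  rw [hρ.mul]
  have e : (g * g')⁻¹ * s * (g * g') = g'⁻¹ * (g⁻¹ * s * g) * g' := by group
  rw [e]

theorem cocOn_one {S : Subgroup G} {f : G → A} (hρ : Rho ρ) (hf : CocOn ρ S f) : f 1 = 0 := by
  have h1 := hf 1 S.one_mem 1 S.one_mem
  rw [mul_one, hρ.one] at h1
  exact left_eq_add.1 h1

theorem cjf_inner (hρ : Rho ρ) {S : Subgroup G} {f : G → A} (hf : CocOn ρ S f) {t s : G}
    (ht : t ∈ S) (hs : s ∈ S) : cjf ρ t f s = f s + (ρ s (f t) - f t) := by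
  have h1 := hf t⁻¹ (S.inv_mem ht) (s * t) (S.mul_mem hs ht)
  have h2 := hf s hs t ht
  have h3 := hf t ht t⁻¹ (S.inv_mem ht)
  rw [mul_inv_cancel, cocOn_one hρ hf] at h3
  have h4 : ∀ a, ρ t (ρ t⁻¹ a) = a := fun a => by rw [← hρ.mul, mul_inv_cancel, hρ.one]
  have h5 : ρ t (f t⁻¹) = -f t := (neg_eq_of_add_eq_zero_right h3.symm).symm
  unfold cjf
  rw [mul_assoc, h1, map_add, h5, h4, h2]
  abel

theorem cocOn_cjf (hρ : Rho ρ) {S : Subgroup G} [S.Normal] {f : G → A} (hf : CocOn ρ S f) (g : G) :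
    CocOn ρ S (cjf ρ g f) := by
  intro s hs t ht
  have hc : ∀ x ∈ S, g⁻¹ * x * g ∈ S := fun x hx => by
    have := Subgroup.Normal.conj_mem (inferInstance : S.Normal) x hx g⁻¹
    rwa [inv_inv] at this
  unfold cjf
  have e : g⁻¹ * (s * t) * g = (g⁻¹ * s * g) * (g⁻¹ * t * g) := by group
  rw [e, hf _ (hc s hs) _ (hc t ht), map_add, ← hρ.mul, ← hρ.mul]
  have e2 : g * (g⁻¹ * s * g) = s * g := by group
  rw [e2]

theorem cocOn_sub {S : Subgroup G} {f f' : G → A} (hf : CocOn ρ S f) (hf' : CocOn ρ S f') :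
    CocOn ρ S (fun s => f s - f' s) := by
  intro s hs t ht
  change f (s * t) - f' (s * t) = (f s - f' s) + ρ s (f t - f' t)
  rw [hf s hs t ht, hf' s hs t ht, map_sub]
  abel

theorem sum_cjf (hρ : Rho ρ) (h : G) (P : ℕ) (f : G → A) (s : G) :
    ∑ j ∈ Finset.range P, cjf ρ (h ^ j) (fun s => cjf ρ h f s - f s) s =
      cjf ρ (h ^ P) f s - f s := by
  have h1 : ∀ j, cjf ρ (h ^ j) (fun s => cjf ρ h f s - f s) s =
      cjf ρ (h ^ (j + 1)) f s - cjf ρ (h ^ j) f s := by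
    intro j
    rw [pow_succ, cjf_mul hρ]
    change ρ (h ^ j) (cjf ρ h f ((h ^ j)⁻¹ * s * h ^ j) - f ((h ^ j)⁻¹ * s * h ^ j)) =
      ρ (h ^ j) (cjf ρ h f ((h ^ j)⁻¹ * s * h ^ j)) - ρ (h ^ j) (f ((h ^ j)⁻¹ * s * h ^ j))
    rw [map_sub]
  rw [Finset.sum_congr rfl fun j _ => h1 j, Finset.sum_range_sub (fun j => cjf ρ (h ^ j) f s)]
  have h2 : cjf ρ (h ^ 0) f s = f s := by
    unfold cjf
    rw [pow_zero, hρ.one, inv_one, one_mul, mul_one]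
  rw [h2]

theorem cjf_cob (hρ : Rho ρ) (g : G) (Q : A) (s : G) :
    cjf ρ g (fun s => ρ s Q - Q) s = ρ s (ρ g Q) - ρ g Q := by
  unfold cjf
  rw [map_sub, ← hρ.mul, ← hρ.mul]
  have e2 : g * (g⁻¹ * s * g) = s * g := by group
  rw [e2]

end H78D
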