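import Pool.Agent.H78.TD.Ka
import Pool.Agent.H78.TD.Ga

/-!
Row Ja (about 130 lines): the action of complex conjugation on Kummer generators. Use only the STATEMENTS of Ka, Ga.

PROOF. Ω the closure of F, ρ = act (inv_up hV), Jh ∈ SA K L Ω extends J. For s ∈ SA K F Ω put s' := Jh⁻¹ * s * Jh ∈ SA K F Ω (SA_normal, SA K F ≤ SA K L by SA_le).
 cjf_inner with t = Jh, S = SA K L Ω: ρ Jh (f s') = f s + (ρ s (f Jh) - f Jh). Let R' = f Jh ∈ B. b (ρ s R') = b R' (hinv) and ρ s R' ∈ B; all three of f s, ρ s R' - R' (B is closed under negation: -x = (l - 1) • x by Pr.tor, Pr.mem, Pr.zero) are in B and b (f s + (ρ s R' - R')) * b R' = b (f s + ρ s R') = b (f s) * b R', b R' ≠ 0: so b (ρ Jh (f s')) = b (f s). (*)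
 s (Jh r) = Jh (s' r) = Jh (b (f s') * r) = Jh (b (f s')) * Jh r.
 plus: b (ρ Jh (f s')) = b (f s') so b (f s') = b (f s), Jh (b (f s')) = (b (f s))⁻¹, and s (r * Jh r) = b (f s) * r * (b (f s))⁻¹ * Jh r = r * Jh r. So r * Jh r = algebraMap y (mem_F), l-th powers: y^l = d * J d (Jh (r^l) = Jh (algebraMap d) = algebraMap (J d)), injectivity.
 minus: b (ρ Jh (f s')) = (b (f s'))⁻¹ so (b (f s'))⁻¹ = b (f s), Jh (b (f s')) = (b (f s'))⁻¹ = b (f s), and s (Jh r / r) = Jh r / r. So Jh r = algebraMap c * r and J d = c^l * d.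
-/

set_option autoImplicit false
open scoped Classical

open WeierstrassCurve IsDedekindDomain NumberField Pool.Agent.H10 Pool.Agent.H11

namespace H78D

theorem ja_nsmul {A Ω : Type*} [AddCommGroup A] [Field Ω] {l : ℕ} {B : Set A} {b : A → Ω}
    (hb : Pr l B b) {x : A} (hx : x ∈ B) (n : ℕ) : n • x ∈ B := by
  induction n with
  | zero => rw [zero_smul]; exact hb.zero
  | succ n ih => rw [succ_nsmul]; exact hb.mem _ ih _ hx

theorem ja_neg {A Ω : Type*} [AddCommGroup A] [Field Ω] {l : ℕ} (hl : l ≠ 0) {B : Set A}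
    {b : A → Ω} (hb : Pr l B b) {x : A} (hx : x ∈ B) : -x ∈ B := by
  obtain ⟨m, rfl⟩ := Nat.exists_eq_succ_of_ne_zero hl
  have h1 := hb.tor x hx
  rw [Nat.succ_eq_add_one, succ_nsmul] at h1
  have h2 : -x = m • x := (eq_neg_of_add_eq_zero_left h1).symm
  rw [h2]
  exact ja_nsmul hb hx m

theorem ja_ne {A Ω : Type*} [AddCommGroup A] [Field Ω] {l : ℕ} (hl : l ≠ 0) {B : Set A}
    {b : A → Ω} (hb : Pr l B b) {x : A} (hx : x ∈ B) : b x ≠ 0 := by
  intro h
  have h1 := hb.pow x hx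
  rw [h, zero_pow hl] at h1
  exact zero_ne_one h1

theorem ja_add {A Ω : Type*} [AddCommGroup A] [Field Ω] {l : ℕ} (hl : l ≠ 0) {B : Set A}
    {b : A → Ω} (hb : Pr l B b) {x y z : A} (hx : x ∈ B) (hy : y ∈ B) (hz : z ∈ B)
    (h : b y = b z) : b (x + (y - z)) = b x := by
  have hz' := ja_neg hl hb hz
  have hd : y - z ∈ B := by
    rw [sub_eq_add_neg]
    exact hb.mem _ hy _ hz'
  have h1 := hb.add _ (hb.mem _ hx _ hd) _ hz
  have h2 : x + (y - z) + z = x + y := by abel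
  rw [h2, hb.add _ hx _ hy, h] at h1
  exact (mul_right_cancel₀ (ja_ne hl hb hz) h1).symm

variable {K L F : Type} [Field K] [NumberField K] [Field L] [NumberField L] [Field F]
  [NumberField F] [Algebra K L] [Algebra K F] [Algebra L F] [IsScalarTower K L F] [Normal K F]
  {V : WeierstrassCurve K} {W : WeierstrassCurve F}

theorem ja_base (hV : V.map (algebraMap K F) = W) {l : ℕ} (hl : l.Prime)
    {B : Set (W.baseChange (AlgebraicClosure F)).toAffine.Point}
    {b : (W.baseChange (AlgebraicClosure F)).toAffine.Point → AlgebraicClosure F} (hb : Pr l B b)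
    {f : (AlgebraicClosure F ≃ₐ[K] AlgebraicClosure F) →
      (W.baseChange (AlgebraicClosure F)).toAffine.Point}
    (hf : CocOn (act (inv_up hV)) (SA K L (AlgebraicClosure F)) f)
    (hfB : ∀ s ∈ SA K F (AlgebraicClosure F), f s ∈ B)
    (hinv : ∀ s ∈ SA K F (AlgebraicClosure F), Kp (act (inv_up hV)) B b s)
    {Jh : AlgebraicClosure F ≃ₐ[K] AlgebraicClosure F}
    (hJh : Jh ∈ SA K L (AlgebraicClosure F)) (hJB : f Jh ∈ B)
    {s : AlgebraicClosure F ≃ₐ[K] AlgebraicClosure F} (hs : s ∈ SA K F (AlgebraicClosure F)) :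
    Jh⁻¹ * s * Jh ∈ SA K F (AlgebraicClosure F) ∧
      b (act (inv_up hV) Jh (f (Jh⁻¹ * s * Jh))) = b (f s) := by
  have hn : (SA K F (AlgebraicClosure F)).Normal := SA_normal
  have hle : SA K F (AlgebraicClosure F) ≤ SA K L (AlgebraicClosure F) := SA_le
  refine ⟨?_, ?_⟩
  · have h1 := hn.conj_mem s hs Jh⁻¹
    rwa [inv_inv] at h1
  · have h1 := cjf_inner (rho_act (inv_up hV)) hf hJh (hle hs)
    unfold cjf at h1
    rw [h1]
    have h2 := hinv s hs (f Jh) hJB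
    exact ja_add hl.ne_zero hb (hfB s hs) h2.1 hJB h2.2

theorem ja_conj {Jh : AlgebraicClosure F ≃ₐ[K] AlgebraicClosure F}
    {s : AlgebraicClosure F ≃ₐ[K] AlgebraicClosure F} (r : AlgebraicClosure F) :
    s (Jh r) = Jh ((Jh⁻¹ * s * Jh) r) := by
  have h1 : (Jh⁻¹ * s * Jh) r = Jh.symm (s (Jh r)) := rfl
  rw [h1, AlgEquiv.apply_symm_apply]

theorem kumJ_plus (hV : V.map (algebraMap K F) = W) {l : ℕ} (hl : l.Prime)
    {B : Set (W.baseChange (AlgebraicClosure F)).toAffine.Point}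
    {b : (W.baseChange (AlgebraicClosure F)).toAffine.Point → AlgebraicClosure F} (hb : Pr l B b)
    {f : (AlgebraicClosure F ≃ₐ[K] AlgebraicClosure F) →
      (W.baseChange (AlgebraicClosure F)).toAffine.Point}
    (hf : CocOn (act (inv_up hV)) (SA K L (AlgebraicClosure F)) f)
    (hfB : ∀ s ∈ SA K F (AlgebraicClosure F), f s ∈ B)
    (hinv : ∀ s ∈ SA K F (AlgebraicClosure F), Kp (act (inv_up hV)) B b s)
    {J : F ≃ₐ[L] F} {Jh : AlgebraicClosure F ≃ₐ[K] AlgebraicClosure F}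
    (hJh : Jh ∈ SA K L (AlgebraicClosure F))
    (hJ : ∀ x : F, Jh (algebraMap F (AlgebraicClosure F) x) = algebraMap F (AlgebraicClosure F) (J x))
    (hJB : f Jh ∈ B) (hJb : ∀ x ∈ B, Jh (b x) = (b x)⁻¹)
    (hJρ : ∀ x ∈ B, act (inv_up hV) Jh x ∈ B ∧ b (act (inv_up hV) Jh x) = b x)
    {r : AlgebraicClosure F} {d : F} (hr : r ≠ 0)
    (hrd : r ^ l = algebraMap F (AlgebraicClosure F) d)
    (hψ : ∀ σ ∈ SA K F (AlgebraicClosure F), σ r = b (f σ) * r) : ∃ y : F, d * J d = y ^ l := by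
  have key : ∀ σ ∈ SA K F (AlgebraicClosure F), σ (r * Jh r) = r * Jh r := by
    intro s hs
    obtain ⟨h1, h2⟩ := ja_base hV hl hb hf hfB hinv hJh hJB hs
    have h3 := (hJρ _ (hfB _ h1)).2
    rw [h2] at h3
    have h4 : b (f s) ≠ 0 := ja_ne hl.ne_zero hb (hfB s hs)
    rw [map_mul, hψ s hs, ja_conj (Jh := Jh) (s := s) r, hψ _ h1, map_mul, hJb _ (hfB _ h1), ← h3]
    field_simp
  obtain ⟨y, hy⟩ := mem_F _ key
  refine ⟨y, ?_⟩
  apply (algebraMap F (AlgebraicClosure F)).injective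
  rw [map_mul, map_pow, hy, mul_pow, ← hJ, ← hrd, map_pow]

theorem kumJ_minus (hV : V.map (algebraMap K F) = W) {l : ℕ} (hl : l.Prime)
    {B : Set (W.baseChange (AlgebraicClosure F)).toAffine.Point}
    {b : (W.baseChange (AlgebraicClosure F)).toAffine.Point → AlgebraicClosure F} (hb : Pr l B b)
    {f : (AlgebraicClosure F ≃ₐ[K] AlgebraicClosure F) →
      (W.baseChange (AlgebraicClosure F)).toAffine.Point}
    (hf : CocOn (act (inv_up hV)) (SA K L (AlgebraicClosure F)) f)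
    (hfB : ∀ s ∈ SA K F (AlgebraicClosure F), f s ∈ B)
    (hinv : ∀ s ∈ SA K F (AlgebraicClosure F), Kp (act (inv_up hV)) B b s)
    {J : F ≃ₐ[L] F} {Jh : AlgebraicClosure F ≃ₐ[K] AlgebraicClosure F}
    (hJh : Jh ∈ SA K L (AlgebraicClosure F))
    (hJ : ∀ x : F, Jh (algebraMap F (AlgebraicClosure F) x) = algebraMap F (AlgebraicClosure F) (J x))
    (hJB : f Jh ∈ B) (hJb : ∀ x ∈ B, Jh (b x) = (b x)⁻¹)
    (hJρ : ∀ x ∈ B, act (inv_up hV) Jh x ∈ B ∧ b (act (inv_up hV) Jh x) = (b x)⁻¹)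
    {r : AlgebraicClosure F} {d : F} (hr : r ≠ 0)
    (hrd : r ^ l = algebraMap F (AlgebraicClosure F) d)
    (hψ : ∀ σ ∈ SA K F (AlgebraicClosure F), σ r = b (f σ) * r) : ∃ c : F, J d = c ^ l * d := by
  have key : ∀ σ ∈ SA K F (AlgebraicClosure F), σ (Jh r / r) = Jh r / r := by
    intro s hs
    obtain ⟨h1, h2⟩ := ja_base hV hl hb hf hfB hinv hJh hJB hs
    have h3 := (hJρ _ (hfB _ h1)).2
    rw [h2] at h3
    have h4 : b (f s) ≠ 0 := ja_ne hl.ne_zero hb (hfB s hs)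
    rw [map_div₀, hψ s hs, ja_conj (Jh := Jh) (s := s) r, hψ _ h1, map_mul, hJb _ (hfB _ h1), ← h3]
    field_simp
  obtain ⟨c, hc⟩ := mem_F _ key
  refine ⟨c, ?_⟩
  apply (algebraMap F (AlgebraicClosure F)).injective
  rw [map_mul, map_pow, hc, ← hJ, ← hrd, map_pow, div_pow,
    div_mul_cancel₀ _ (pow_ne_zero l hr)]

end H78D
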