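import Pool.Agent.H78.TD.Ka
import Pool.Agent.H78.TD.Gc

/-!
Row Lg (about 140 lines): lifts of h and J. Use only the STATEMENTS of Ka, Ga, Gc.

PROOF of exists_hh. hh0 a lift of h.restrictScalars K (exists_lift). P := orderOf h. N := a natural number with N ≡ 1 mod P and N ≡ 0 mod l, N > 0 (Nat.chineseRemainder for coprime P, l: l prime and not dividing P; or Nat.chineseRemainder then the value; if it is 0 then P = 1 and N = l works, simpler: take N := u * l with u * l ≡ 1 mod P from coprimality).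
 hh := hh0 ^ N. On F: hh0^j (algebraMap x) = algebraMap ((h^j) x) by induction, and h^N = h (pow_eq_pow_iff_modEq: N ≡ 1 mod orderOf h, pow_one). hh ^ P acts on F as h^P = 1: in SA K F Ω.
 hh^P = (hh0^P)^N (pow_mul, mul_comm), σ := hh0^P ∈ SA K F Ω. pow_pair (ρ = act (inv_up hV), rho_act): e (f (σ^N)) = e (f σ)^N = (e (f σ)^l)^u = 1 (Pr.pow).
PROOF of lift_mem: for x : Km, algebraMap Km Ω x = algebraMap F Ω (algebraMap Km F x), h fixes algebraMap Km F x (AlgEquiv.commutes).
PROOF of comm_mem. Both s and hh map F to itself: for x : F, s (algebraMap x) = algebraMap (s.restrictNormal F x) (Normal K F, AlgEquiv.restrictNormal_commutes); s fixes L so sF := the L-automorphism of F (s.restrictNormal F with commutes' from s ∈ SA K L Ω and injectivity of F → Ω). hh⁻¹ (algebraMap x) = algebraMap (h.symm x). So (s⁻¹ * hh⁻¹ * s * hh) (algebraMap x) = algebraMap (sF⁻¹ (h⁻¹ (sF (h x)))) and hcomm: h (sF x) = sF (h x), so h⁻¹ (sF (h x)) = sF x, and sF⁻¹ gives x.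
PROOF of cover. g : Ω ≃ₐ[K] Ω, gF := g.restrictNormal F, hcov gives j with gF = h^j on L; t := (hh^j)⁻¹ * g; t fixes L: g (algebraMap L Ω x) = algebraMap F Ω (gF (algebraMap L F x)) = algebraMap ((h^j) (algebraMap L F x)) = hh^j (algebraMap L Ω x).
-/

set_option autoImplicit false
open scoped Classical

open WeierstrassCurve IsDedekindDomain NumberField Pool.Agent.H10 Pool.Agent.H11

namespace H78D

private theorem Lg_pow {K F M Ω : Type} [Field K] [Field F] [Field M] [Field Ω] [Algebra K Ω] [Algebra F Ω] [Algebra M F]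
    {h : F ≃ₐ[M] F} {σ : Ω ≃ₐ[K] Ω} (hl : ∀ x : F, σ (algebraMap F Ω x) = algebraMap F Ω (h x)) (j : ℕ) :
    ∀ x : F, (σ ^ j) (algebraMap F Ω x) = algebraMap F Ω ((h ^ j) x) := by
  induction j with
  | zero => intro x; rfl
  | succ j ih =>
    intro x
    rw [pow_succ, pow_succ, AlgEquiv.mul_apply, AlgEquiv.mul_apply, hl, ih]

variable {K Km L F : Type} [Field K] [NumberField K] [Field Km] [NumberField Km] [Field L]
  [NumberField L] [Field F] [NumberField F] [Algebra K L] [Algebra K F] [Algebra L F]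
  [IsScalarTower K L F] [Algebra K Km] [Algebra Km F] [IsScalarTower K Km F] [Normal K F]

omit [Normal K F] in
theorem exists_hh {V : WeierstrassCurve K} {W : WeierstrassCurve F}
    (hV : V.map (algebraMap K F) = W) {l : ℕ} (hl : l.Prime) {h : F ≃ₐ[Km] F}
    (hcop : ¬ l ∣ orderOf h) {B : Set (W.baseChange (AlgebraicClosure F)).toAffine.Point}
    {e : (W.baseChange (AlgebraicClosure F)).toAffine.Point → AlgebraicClosure F} (he : Pr l B e)
    {f : (AlgebraicClosure F ≃ₐ[K] AlgebraicClosure F) →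
      (W.baseChange (AlgebraicClosure F)).toAffine.Point}
    (hf : CocOn (act (inv_up hV)) (SA K F (AlgebraicClosure F)) f)
    (hfB : ∀ s ∈ SA K F (AlgebraicClosure F), f s ∈ B)
    (hinv : ∀ s ∈ SA K F (AlgebraicClosure F), Kp (act (inv_up hV)) B e s) :
    ∃ hh : AlgebraicClosure F ≃ₐ[K] AlgebraicClosure F,
      (∀ x : F, hh (algebraMap F (AlgebraicClosure F) x) =
        algebraMap F (AlgebraicClosure F) (h x)) ∧
      hh ^ orderOf h ∈ SA K F (AlgebraicClosure F) ∧ e (f (hh ^ orderOf h)) = 1 := by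
  obtain ⟨hh0, h0⟩ := exists_lift (K := K) (F := F) (h.restrictScalars K)
  have h0' : ∀ x : F, hh0 (algebraMap F (AlgebraicClosure F) x) =
      algebraMap F (AlgebraicClosure F) (h x) := h0
  have hco : Nat.Coprime l (orderOf h) := (Nat.Prime.coprime_iff_not_dvd hl).2 hcop
  obtain ⟨N, hN0, hN1⟩ := Nat.chineseRemainder hco 0 1
  obtain ⟨u, hu⟩ := (Nat.modEq_zero_iff_dvd).1 hN0
  have hhN : h ^ N = h := by
    have h1 : h ^ N = h ^ 1 := pow_eq_pow_iff_modEq.2 hN1
    rw [h1, pow_one]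
  have hS0 : hh0 ^ orderOf h ∈ SA K F (AlgebraicClosure F) := by
    intro x
    rw [Lg_pow h0' (orderOf h) x, pow_orderOf_eq_one]
    rfl
  have hpw : (hh0 ^ N) ^ orderOf h = (hh0 ^ orderOf h) ^ N := by
    rw [← pow_mul, ← pow_mul, mul_comm]
  refine ⟨hh0 ^ N, fun x => ?_, ?_, ?_⟩
  · rw [Lg_pow h0' N x, hhN]
  · rw [hpw]
    exact (SA K F (AlgebraicClosure F)).pow_mem hS0 N
  · rw [hpw, pow_pair (rho_act (inv_up hV)) hl.ne_zero he hf hfB hinv hS0 N, hu, pow_mul,
      he.pow _ (hfB _ hS0), one_pow]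

omit [NumberField Km] [Algebra K Km] [IsScalarTower K Km F] [Normal K F] in
theorem lift_mem {h : F ≃ₐ[Km] F} {hh : AlgebraicClosure F ≃ₐ[K] AlgebraicClosure F}
    (hlift : ∀ x : F, hh (algebraMap F (AlgebraicClosure F) x) =
      algebraMap F (AlgebraicClosure F) (h x)) : hh ∈ SA K Km (AlgebraicClosure F) := by
  intro x
  rw [IsScalarTower.algebraMap_apply Km F (AlgebraicClosure F) x, hlift, h.commutes]

theorem comm_mem {h : F ≃ₐ[Km] F} (hcomm : ∀ (g : F ≃ₐ[L] F) (x : F), h (g x) = g (h x))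
    {hh : AlgebraicClosure F ≃ₐ[K] AlgebraicClosure F}
    (hlift : ∀ x : F, hh (algebraMap F (AlgebraicClosure F) x) =
      algebraMap F (AlgebraicClosure F) (h x)) {s : AlgebraicClosure F ≃ₐ[K] AlgebraicClosure F}
    (hs : s ∈ SA K L (AlgebraicClosure F)) : s⁻¹ * hh⁻¹ * s * hh ∈ SA K F (AlgebraicClosure F) := by
  have hr : ∀ x : F, algebraMap F (AlgebraicClosure F) (s.restrictNormal F x) =
      s (algebraMap F (AlgebraicClosure F) x) := fun x => AlgEquiv.restrictNormal_commutes s F x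
  have hc : ∀ y : L, s.restrictNormal F (algebraMap L F y) = algebraMap L F y := by
    intro y
    apply (algebraMap F (AlgebraicClosure F)).injective
    rw [hr, ← IsScalarTower.algebraMap_apply L F (AlgebraicClosure F) y]
    exact hs y
  have hc2 : ∀ x : F, h (s.restrictNormal F x) = s.restrictNormal F (h x) :=
    hcomm { s.restrictNormal F with commutes' := hc }
  intro x
  show s⁻¹ (hh⁻¹ (s (hh (algebraMap F (AlgebraicClosure F) x)))) = algebraMap F (AlgebraicClosure F) x
  rw [hlift, ← hr, ← hc2, ← hlift]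
  have e1 : hh⁻¹ (hh (algebraMap F (AlgebraicClosure F) (s.restrictNormal F x))) =
      algebraMap F (AlgebraicClosure F) (s.restrictNormal F x) :=
    hh.symm_apply_apply _
  rw [e1, hr]
  exact s.symm_apply_apply _

theorem cover {h : F ≃ₐ[Km] F}
    (hcov : ∀ g : F ≃ₐ[K] F, ∃ j : ℕ, ∀ x : L, g (algebraMap L F x) = (h ^ j) (algebraMap L F x))
    {hh : AlgebraicClosure F ≃ₐ[K] AlgebraicClosure F}
    (hlift : ∀ x : F, hh (algebraMap F (AlgebraicClosure F) x) =
      algebraMap F (AlgebraicClosure F) (h x)) (g : AlgebraicClosure F ≃ₐ[K] AlgebraicClosure F) :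
    ∃ j : ℕ, ∃ t ∈ SA K L (AlgebraicClosure F), g = hh ^ j * t := by
  have hr : ∀ x : F, algebraMap F (AlgebraicClosure F) (g.restrictNormal F x) =
      g (algebraMap F (AlgebraicClosure F) x) := fun x => AlgEquiv.restrictNormal_commutes g F x
  obtain ⟨j, hj⟩ := hcov (g.restrictNormal F)
  refine ⟨j, (hh ^ j)⁻¹ * g, fun x => ?_, by group⟩
  show (hh ^ j)⁻¹ (g (algebraMap L (AlgebraicClosure F) x)) = algebraMap L (AlgebraicClosure F) x
  rw [IsScalarTower.algebraMap_apply L F (AlgebraicClosure F) x, ← hr, hj, ← Lg_pow hlift j]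
  exact (hh ^ j).symm_apply_apply _

end H78D
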