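import Pool.Agent.H78.TD.Ka
import Pool.Agent.H78.TD.Ga

/-!
Row Ta (about 110 lines): closure properties of SC. Use only the STATEMENTS of Ka, Ga.

PROOF of sc_conj (f1 s := cjf ρ g f s - f s, ρ = act (inv_up hV), Ω the closure of F).
 coc: cocOn_cjf and cocOn_sub (rho_act, SA_normal for L).
 cont: S' := S ∪ S.image g: if σ ∈ SA K L Ω fixes S' then σ fixes S, so f σ = 0; g⁻¹ σ g fixes x ∈ S as σ fixes g x; g⁻¹ * σ * g ∈ SA K L Ω (normal: conj_mem with g⁻¹); so f (g⁻¹ σ g) = 0, map_zero.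
 tor: l • (ρ g y - z) with l • y = 0 (map_nsmul) and l • z = 0.
 loc: fF := fun τ : Ω ≃ₐ[F] Ω => f (τ.restrictScalars K). IsCocycle F W fF: isCocycle_iff (H10/Func4), IsCoc = local constancy and cocycle relation. Cocycle relation: hf.coc for τ.restrictScalars K ∈ SA K F Ω ≤ SA K L Ω (SA_le), act (inv_up hV) (τ.restrictScalars K) P = act (inv_bc F W) τ P is rfl (compare act_up_eq in H11/Conj.lean).
 Local constancy: lc_iff (H10/Pm): given σ₀ take the finite set S of cont: if σ x = σ₀ x for x ∈ S then σ₀⁻¹ σ fixes S, f (σ₀⁻¹ σ) = 0, and f σ = f (σ₀ * (σ₀⁻¹ σ)) = f σ₀ + 0.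
 So fF ∈ ShaZ F W; isLocTriv_conj (H11/Conj, with K := K, L := F, needs Normal K F) for s := g: IsLocTriv F W (conjF hV g fF), and conjF hV g fF τ = cjf ρ g f (τ.restrictScalars K) (unfold conjF conj cjf; (cj g τ).restrictScalars K = g⁻¹ * τ.restrictScalars K * g by ext, cj_apply). Difference: sub_mem in the subgroup ShaZ F W (isCocycle_conj for the first component); conclude with .2.
PROOF of sc_coc (the cocycle over F): contained in the above.
-/

set_option autoImplicit false
set_option linter.unusedSectionVars false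
open scoped Classical

open WeierstrassCurve IsDedekindDomain NumberField Pool.Agent.H10 Pool.Agent.H11

namespace H78D

variable {K L F : Type} [Field K] [NumberField K] [Field L] [NumberField L] [Field F]
  [NumberField F] [Algebra K L] [Algebra K F] [Algebra L F] [IsScalarTower K L F] [Normal K L]
  [Normal K F] {V : WeierstrassCurve K} {W : WeierstrassCurve F}

omit [Normal K L] [Normal K F] in
theorem sc_coc {hV : V.map (algebraMap K F) = W} {l : ℕ}
    {f : (AlgebraicClosure F ≃ₐ[K] AlgebraicClosure F) →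
      (W.baseChange (AlgebraicClosure F)).toAffine.Point} (hf : SC l L hV f) :
    IsCocycle F W (fun τ => f (τ.restrictScalars K)) := by
  have hm : ∀ τ : AlgebraicClosure F ≃ₐ[F] AlgebraicClosure F,
      τ.restrictScalars K ∈ SA K L (AlgebraicClosure F) := by
    intro τ x
    change τ (algebraMap L (AlgebraicClosure F) x) = _
    rw [IsScalarTower.algebraMap_apply L F (AlgebraicClosure F), τ.commutes]
  rw [Pool.Agent.H10.isCocycle_iff]
  obtain ⟨S, hS⟩ := hf.cont
  have hcoc : ∀ σ τ : AlgebraicClosure F ≃ₐ[F] AlgebraicClosure F,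
      f ((σ * τ).restrictScalars K) = f (σ.restrictScalars K) +
        act (inv_bc F W) σ (f (τ.restrictScalars K)) := by
    intro σ τ
    exact hf.coc _ (hm σ) _ (hm τ)
  refine ⟨?_, hcoc⟩
  rw [lc_iff]
  intro σ₀
  refine ⟨S, fun σ hσ => ?_⟩
  have h2 : f ((σ₀⁻¹ * σ).restrictScalars K) = 0 := by
    apply hS _ (hm _)
    intro x hx
    change σ₀⁻¹ (σ x) = x
    rw [hσ x hx]
    exact σ₀.symm_apply_apply x
  have h3 := hcoc σ₀ (σ₀⁻¹ * σ)
  rw [mul_inv_cancel_left, h2, map_zero, add_zero] at h3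
  exact h3

theorem sc_conj {hV : V.map (algebraMap K F) = W} {l : ℕ}
    {f : (AlgebraicClosure F ≃ₐ[K] AlgebraicClosure F) →
      (W.baseChange (AlgebraicClosure F)).toAffine.Point} (hf : SC l L hV f)
    (g : AlgebraicClosure F ≃ₐ[K] AlgebraicClosure F) :
    SC l L hV (fun s => cjf (act (inv_up hV)) g f s - f s) := by
  have hρ := rho_act (inv_up hV)
  have hN : (SA K L (AlgebraicClosure F)).Normal := SA_normal
  have hg : ∀ σ ∈ SA K L (AlgebraicClosure F), g⁻¹ * σ * g ∈ SA K L (AlgebraicClosure F) := by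
    intro σ hσ
    have h1 := hN.conj_mem σ hσ g⁻¹
    rwa [inv_inv] at h1
  refine ⟨?_, ?_, ?_, ?_⟩
  · exact cocOn_sub (cocOn_cjf hρ hf.coc g) hf.coc
  · obtain ⟨S, hS⟩ := hf.cont
    refine ⟨S ∪ S.image g, fun σ hσ hx => ?_⟩
    have h1 : f σ = 0 := hS σ hσ fun x hxS => hx x (Finset.mem_union_left _ hxS)
    have h3 : f (g⁻¹ * σ * g) = 0 := by
      apply hS _ (hg σ hσ)
      intro x hxS
      change g⁻¹ (σ (g x)) = x
      rw [hx (g x) (Finset.mem_union_right _ (Finset.mem_image_of_mem g hxS))]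
      exact g.symm_apply_apply x
    change act (inv_up hV) g (f (g⁻¹ * σ * g)) - f σ = 0
    rw [h1, h3, map_zero, sub_zero]
  · intro σ hσ
    change l • (act (inv_up hV) g (f (g⁻¹ * σ * g)) - f σ) = 0
    rw [smul_sub, ← map_nsmul, hf.tor σ hσ, hf.tor _ (hg σ hσ), map_zero, sub_zero]
  · have h1 : (fun τ : AlgebraicClosure F ≃ₐ[F] AlgebraicClosure F => f (τ.restrictScalars K)) ∈
        ShaZ F W := ⟨sc_coc hf, hf.loc⟩
    have h2 : conjF hV g (fun τ => f (τ.restrictScalars K)) ∈ ShaZ F W :=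
      ⟨isCocycle_conj hV g (sc_coc hf), isLocTriv_conj hV g (sc_coc hf) hf.loc⟩
    have h3 := (ShaZ F W).sub_mem h2 h1
    exact h3.2

end H78D
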