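import Pool.Agent.H78.TD.Df

/-!
Row Va (about 130 lines): valuations of Kummer generators.

PROOF of good_dvd. Ω = AlgebraicClosure F. M := Kn W l ⊔ F⟮r⟯ (IntermediateField F Ω), finite dimensional (H11 Kn_finite, IntermediateField.adjoin.finiteDimensional (r integral), IntermediateField.finiteDimensional_sup), Kn W l ≤ M. ι : Ω →ₐ[F] AlgebraicClosure (w.adicCompletion F) := IsAlgClosed.lift (as in cond_q of H11/Sel.lean; characteristic zero of the completion not needed).
 Pool.Agent.H11.loc_apply (K := F) W w l hw ι M le_sup_left f hf (hloc.1 w ι) gives V with (x ∈ V ↔ w x ≤ 1) and the property for α := ⟨r, _⟩ : M (r ≠ 0 since r^l = d ≠ 0): hypothesis σ r = r if f σ = 0 is hfix. (hloc.1 w ι has exactly the type LocTriv W f w ι; unfold if needed.)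
 So c ≠ 0 with α / c, (α / c)⁻¹ ∈ V, then (α / c)^l = algebraMap (d / c^l) and its inverse are in V (pow_mem), so w (d / c^l) ≤ 1 and w ((d / c^l)⁻¹) ≤ 1, so w d = (w c)^l, log (w d) = l * log (w c) (WithZero.log_pow, or log_mul by induction).
PROOF of fix_dvd. algebraMap (norm d) = ∏ g, g d (Algebra.norm_eq_prod_automorphisms), so w (norm) = (w d)^n, n = Fintype.card (F ≃ₐ[Km] F), and it is (w y)^l (y ≠ 0 because d ≠ 0). So n * log (w d) = l * log (w y) (log_pow; WithZero.log multiplicative on non zero), so l ∣ n * log (w d) and l prime, not dividing n: Int / Prime.dvd_or_dvd (Nat.prime_iff_prime_int), Int.natCast_dvd_natCast.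
-/

set_option autoImplicit false
open scoped Classical

open WeierstrassCurve IsDedekindDomain NumberField WithZero Pool.Agent.H10 Pool.Agent.H11

namespace H78D

theorem good_dvd {F : Type} [Field F] [NumberField F] {W : WeierstrassCurve F} [W.IsElliptic]
    {l : ℕ} (hl : l.Prime) (w : HeightOneSpectrum (𝓞 F)) (hw : GoodVal (w.valuation F) W l)
    {f : (AlgebraicClosure F ≃ₐ[F] AlgebraicClosure F) →
      (W.baseChange (AlgebraicClosure F)).toAffine.Point}
    (hf : ∀ σ, l • f σ = 0) (hloc : IsLocTriv F W f) {r : AlgebraicClosure F} {d : F} (hd : d ≠ 0)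
    (hrd : r ^ l = algebraMap F (AlgebraicClosure F) d) (hfix : ∀ σ, f σ = 0 → σ r = r) :
    (l : ℤ) ∣ log (w.valuation F d) := by
  have hl0 : l ≠ 0 := hl.ne_zero
  have hfin : FiniteDimensional F (Kn W l) := Kn_finite W l hl0
  have hfin2 : FiniteDimensional F (IntermediateField.adjoin F {r}) :=
    IntermediateField.adjoin.finiteDimensional (Algebra.IsIntegral.isIntegral r)
  let M : IntermediateField F (AlgebraicClosure F) := Kn W l ⊔ IntermediateField.adjoin F {r}
  have hfin3 : FiniteDimensional F M := IntermediateField.finiteDimensional_sup _ _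
  have hrM : r ∈ M :=
    (le_sup_right : IntermediateField.adjoin F {r} ≤ M) (IntermediateField.mem_adjoin_simple_self F r)
  let ι : AlgebraicClosure F →ₐ[F] AlgebraicClosure (w.adicCompletion F) := IsAlgClosed.lift
  obtain ⟨V, hV1, hV2⟩ := Pool.Agent.H11.loc_apply W w l hw ι M le_sup_left f hf (hloc.1 w ι)
  have hr0 : r ≠ 0 := by
    rintro rfl
    rw [zero_pow hl0] at hrd
    exact hd ((map_eq_zero _).1 hrd.symm)
  obtain ⟨c, hc, h1, h2⟩ := hV2 ⟨r, hrM⟩ (fun h => hr0 (congrArg Subtype.val h))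
    (fun σ _ hσ => hfix σ hσ)
  have e1 : (⟨r, hrM⟩ : M) ^ l = algebraMap F M d := Subtype.ext hrd
  have e2 : ((⟨r, hrM⟩ : M) / algebraMap F M c) ^ l = algebraMap F M (d / c ^ l) := by
    rw [div_pow, e1, map_div₀, map_pow]
  have h3 : w.valuation F (d / c ^ l) ≤ 1 := by
    rw [← hV1, ← e2]
    exact pow_mem h1 l
  have h4 : w.valuation F (d / c ^ l)⁻¹ ≤ 1 := by
    rw [← hV1, map_inv₀, ← e2, ← inv_pow]
    exact pow_mem h2 l
  have hcl : w.valuation F (c ^ l) ≠ 0 := (Valuation.ne_zero_iff _).2 (pow_ne_zero l hc)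
  have hdc : w.valuation F (d / c ^ l) ≠ 0 :=
    (Valuation.ne_zero_iff _).2 (div_ne_zero hd (pow_ne_zero l hc))
  have h5 : w.valuation F (d / c ^ l) = 1 := by
    refine le_antisymm h3 ?_
    rw [map_inv₀] at h4
    exact (inv_le_one₀ (zero_lt_iff.2 hdc)).1 h4
  have h6 : w.valuation F d = w.valuation F c ^ l := by
    rw [map_div₀, div_eq_one_iff_eq hcl, map_pow] at h5
    exact h5
  rw [h6, log_pow]
  exact ⟨log (w.valuation F c), by rw [nsmul_eq_mul]⟩

theorem fix_dvd {Km F : Type} [Field Km] [NumberField Km] [Field F] [NumberField F] [Algebra Km F]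
    [IsGalois Km F] {l : ℕ} (hl : l.Prime) (w : HeightOneSpectrum (𝓞 F))
    (hw : ∀ (g : F ≃ₐ[Km] F) (x : F), w.valuation F (g x) = w.valuation F x)
    (hcop : ¬ l ∣ Nat.card (F ≃ₐ[Km] F)) {d : F} (hd : d ≠ 0)
    (hN : ∃ y : F, algebraMap Km F (Algebra.norm Km d) = y ^ l) :
    (l : ℤ) ∣ log (w.valuation F d) := by
  have hfd : FiniteDimensional Km F := FiniteDimensional.right ℚ Km F
  obtain ⟨y, hy⟩ := hN
  rw [Algebra.norm_eq_prod_automorphisms] at hy
  have h1 := congrArg (w.valuation F) hy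
  rw [map_prod, Finset.prod_congr rfl (fun g _ => hw g d), Finset.prod_const, map_pow,
    Finset.card_univ, ← Nat.card_eq_fintype_card] at h1
  have h2 := congrArg log h1
  rw [log_pow, log_pow, nsmul_eq_mul, nsmul_eq_mul] at h2
  have h3 : (l : ℤ) ∣ ((Nat.card (F ≃ₐ[Km] F) : ℕ) : ℤ) * log (w.valuation F d) := ⟨_, h2⟩
  rcases (Nat.prime_iff_prime_int.1 hl).dvd_or_dvd h3 with h4 | h4
  · exact absurd (Int.natCast_dvd_natCast.1 h4) hcop
  · exact h4

end H78D
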