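import Pool.Agent.H78.TD.Kb
import Pool.Agent.H78.TD.Va
import Pool.Agent.H78.TD.Ta
import Pool.Agent.H78.TD.Gc
import Pool.Agent.H78.TD.Lg

/-!
Row Kd (about 130 lines, assembly): the Kummer generator of a new cocycle. Use only the STATEMENTS of Ka, Kb, Va, Ta, Ga, Gc, Lg.

PROOF. ρ = act (inv_up hV), Ω the closure of F, ψ σ := b (f σ). For σ ∈ SA K F Ω (≤ SA K L Ω, SA_le): f σ ∈ B. kum (l ≠ 0): h1 Pr.pow; h2: f (σ τ) = f σ + ρ σ (f τ), b of it = b (f σ) * b (ρ σ (f τ)) = b (f σ) * b (f τ) (hinv σ); h3 from hf.cont: f σ = 0 and b 0 = 1 (b 0 = b (0 + 0) = b 0 * b 0 and b 0 ≠ 0); hμ from hμK (algebraMap Km Ω = algebraMap F Ω ∘ algebraMap Km F).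
 So r, d. Norm: norm_pow with hψ; hfix: b (f σ) is an l-th root of unity, so algebraMap Km Ω y, fixed by hh ∈ SA K Km Ω (lift_mem); hprod: prod_pair (S = SA K F Ω, normal by SA_normal; the sum condition is hnew s for s ∈ SA K F Ω ≤ SA K L Ω).
 Valuations: w with D ∉ w: good_dvd for the function τ ↦ f (τ.restrictScalars K) : (Ω ≃ₐ[F] Ω) → _, hf.loc, and if f (τ) = 0 then τ r = b 0 * r = r. w with D ∈ w: fix_dvd, hw from hfix : FixP, cop: Nat.card (F ≃ₐ[Km] F) = orderOf h by hgen (orderOf_eq_card_of_forall_mem_zpowers, Nat.card_zpowers; every g is h^j), or use the hypothesis hcop in this form.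
-/

set_option autoImplicit false
open scoped Classical

open WeierstrassCurve IsDedekindDomain NumberField WithZero Pool.Agent.H10 Pool.Agent.H11

namespace H78D

theorem kum_all {K Km L F : Type} [Field K] [NumberField K] [Field Km] [NumberField Km] [Field L]
    [NumberField L] [Field F] [NumberField F] [Algebra K L] [Algebra K F] [Algebra L F]
    [IsScalarTower K L F] [Algebra K Km] [Algebra Km F] [IsScalarTower K Km F] [Normal K L]
    [Normal K F] [IsGalois Km F] {V : WeierstrassCurve K} {W : WeierstrassCurve F} [W.IsElliptic]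
    (hV : V.map (algebraMap K F) = W) {l : ℕ} (hl : l.Prime)
    {h : F ≃ₐ[Km] F} (hgen : ∀ g : F ≃ₐ[Km] F, ∃ j : ℕ, g = h ^ j) (hcop : ¬ l ∣ orderOf h)
    {hh : AlgebraicClosure F ≃ₐ[K] AlgebraicClosure F}
    (hlift : ∀ x : F, hh (algebraMap F (AlgebraicClosure F) x) =
      algebraMap F (AlgebraicClosure F) (h x))
    (hμK : ∀ z : AlgebraicClosure F, z ^ l = 1 → ∃ y : Km, algebraMap Km (AlgebraicClosure F) y = z)
    {B : Set (W.baseChange (AlgebraicClosure F)).toAffine.Point}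
    {b : (W.baseChange (AlgebraicClosure F)).toAffine.Point → AlgebraicClosure F} (hb : Pr l B b)
    (hinv : ∀ s ∈ SA K F (AlgebraicClosure F), Kp (act (inv_up hV)) B b s)
    (hhb : Kp (act (inv_up hV)) B b hh)
    {f : (AlgebraicClosure F ≃ₐ[K] AlgebraicClosure F) →
      (W.baseChange (AlgebraicClosure F)).toAffine.Point} (hf : SC l L hV f)
    (hfB : ∀ s ∈ SA K F (AlgebraicClosure F), f s ∈ B)
    {R : (W.baseChange (AlgebraicClosure F)).toAffine.Point} (hR : R ∈ B)
    (hnew : New L hV hh (orderOf h) R f) {D : ℤ}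
    (hgood : ∀ w : HeightOneSpectrum (𝓞 F), ((D : ℤ) : 𝓞 F) ∉ w.asIdeal →
      GoodVal (w.valuation F) W l) (hfix : H68TL.FixP D Km F) :
    ∃ (r : AlgebraicClosure F) (d : F), r ≠ 0 ∧ d ≠ 0 ∧
      r ^ l = algebraMap F (AlgebraicClosure F) d ∧
      (∀ σ ∈ SA K F (AlgebraicClosure F), σ r = b (f σ) * r) ∧
      (∃ y : F, algebraMap Km F (Algebra.norm Km d) = y ^ l) ∧
      ∀ w : HeightOneSpectrum (𝓞 F), (l : ℤ) ∣ log (w.valuation F d) := by
  have hρ : Rho (act (inv_up hV)) := rho_act (inv_up hV)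
  have hl0 : l ≠ 0 := hl.ne_zero
  have hSle : SA K F (AlgebraicClosure F) ≤ SA K L (AlgebraicClosure F) := SA_le
  have hb0 : b 0 = 1 := by
    have h1 := hb.add 0 hb.zero 0 hb.zero
    rw [add_zero] at h1
    have h2 := hb.pow 0 hb.zero
    have h3 : b 0 ≠ 0 := by
      intro h4
      rw [h4, zero_pow hl0] at h2
      exact zero_ne_one h2
    exact mul_left_cancel₀ h3 (by rw [mul_one]; exact h1.symm)
  obtain ⟨r, d, hr, hd, hrd, hψ⟩ := kum (K := K) (F := F) hl0 (fun σ => b (f σ))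
    (fun σ hσ => hb.pow _ (hfB σ hσ))
    (fun σ hσ τ hτ => by
      show b (f (σ * τ)) = b (f σ) * b (f τ)
      rw [hf.coc σ (hSle hσ) τ (hSle hτ), hb.add _ (hfB σ hσ) _ (hinv σ hσ _ (hfB τ hτ)).1,
        (hinv σ hσ _ (hfB τ hτ)).2])
    (by
      obtain ⟨S, hS⟩ := hf.cont
      exact ⟨S, fun σ hσ h => by
        show b (f σ) = 1
        rw [hS σ (hSle hσ) h, hb0]⟩)
    (fun z hz => by
      obtain ⟨y, hy⟩ := hμK z hz
      exact ⟨algebraMap Km F y, by rw [← IsScalarTower.algebraMap_apply]; exact hy⟩)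
  have hN : ∃ y : F, algebraMap Km F (Algebra.norm Km d) = y ^ l := by
    refine norm_pow (K := K) hgen hlift hrd hψ ?_ ?_
    · intro σ hσ
      obtain ⟨y, hy⟩ := hμK (b (f σ)) (hb.pow _ (hfB σ hσ))
      show hh (b (f σ)) = b (f σ)
      rw [← hy]
      exact lift_mem hlift y
    · intro s hs
      have hnor : (SA K F (AlgebraicClosure F)).Normal := SA_normal
      exact prod_pair hρ hl0 hb hfB hinv hhb hR hs (hnew s (hSle hs))
  refine ⟨r, d, hr, hd, hrd, hψ, hN, fun w => ?_⟩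
  by_cases hw : ((D : ℤ) : 𝓞 F) ∈ w.asIdeal
  · refine fix_dvd hl w (hfix w hw) ?_ hd hN
    have hcard : Nat.card (F ≃ₐ[Km] F) = orderOf h := by
      refine (orderOf_eq_card_of_forall_mem_zpowers (fun g => ?_)).symm
      obtain ⟨j, hj⟩ := hgen g
      exact ⟨j, by rw [hj]; exact zpow_natCast h j⟩
    rw [hcard]
    exact hcop
  · have hmem : ∀ σ : AlgebraicClosure F ≃ₐ[F] AlgebraicClosure F,
        σ.restrictScalars K ∈ SA K F (AlgebraicClosure F) := fun σ x => σ.commutes x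
    refine good_dvd hl w (hgood w hw) (f := fun τ => f (τ.restrictScalars K))
      (fun σ => hf.tor _ (hSle (hmem σ))) hf.loc hd hrd (fun σ hσ => ?_)
    have h1 := hψ (σ.restrictScalars K) (hmem σ)
    have h2 : f (σ.restrictScalars K) = 0 := hσ
    have h3 : σ r = b (f (σ.restrictScalars K)) * r := h1
    rw [h3, h2, hb0, one_mul]

end H78D
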