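import Pool.Agent.H78.TD.Ga

/-!
Row Gb (about 120 lines, pure group theory): a cocycle which vanishes on a subgroup and is new is a coboundary.

PROOF of vanish. First: for s ∈ SL, u ∈ SF: f (s * u) = f s + ρ s (f u) = f s (u ∈ SL, f u = 0). And u * s = s * (s⁻¹ u s) with s⁻¹ u s ∈ SF (normal), so f (u * s) = f s; also f (u * s) = f u + ρ u (f s) = ρ u (f s): ρ u (f s) = f s. So by hB (l • f s = 0): ρ h (f s) = f s for s ∈ SL.
 cjf ρ h f s = ρ h (f (h⁻¹ s h)), h⁻¹ s h = s * (s⁻¹ h⁻¹ s h), s⁻¹ h⁻¹ s h ∈ SF (hcomm), so f (h⁻¹ s h) = f s and cjf ρ h f s = f s (all s ∈ SL; h⁻¹ s h ∈ SL by normality).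
 Induction: cjf ρ (h ^ j) f s = f s for all s ∈ SL (cjf_mul: h^(j+1) = h^j * h; cjf (h^j) (cjf h f) s = ρ (h^j) (cjf h f (h^-j s h^j)) = ρ (h^j) (f (h^-j s h^j)) as h^-j s h^j ∈ SL). So the sum is P • f s = ρ s R - R.
 u with u * P ≡ 1 mod l: exists q, r : ℕ, q * P = 1 + r * l (l prime, not dividing P: Nat.Coprime, e.g. Nat.exists_mul_emod_eq_one_of_coprime, or work in ZMod l). R' = q • R: f s = (1 + r l) • f s = q • (P • f s) = ρ s (q • R) - q • R (map_nsmul).
 triv_of_fix (the hypothesis hB for the group of h): e (ρ h x) = e x and l • (ρ h x - x) = 0 so e (ρ h x - x) = 1 (from Pr.add: e (ρ h x) = e (ρ h x - x) * e x and e x ≠ 0 since e x ^ l = 1; -x = (l-1) • x so all l-torsion points are in B = {x | l • x = 0}); so ρ h x = x + c • T by hker. By induction ρ (h^j) x = x + (j c) • T (ρ h T = T). j = P: h^P ∈ SF so (P c) • T = 0, so addOrderOf T = l (prime, T ≠ 0, l • T = 0: addOrderOf_eq_prime) divides P c, so divides c (Nat.Prime.dvd_mul),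 c • T = 0.
-/

set_option autoImplicit false
open scoped Classical

namespace H78D

variable {G A : Type*} [Group G] [AddCommGroup A] {ρ : G → A →+ A}

theorem triv_of_fix {Ω : Type*} [Field Ω] (hρ : Rho ρ) {l : ℕ} (hl : l.Prime) {T : A} (hT0 : T ≠ 0)
    (hT : l • T = 0) {e : A → Ω} (he : Pr l {x | l • x = 0} e)
    (hker : ∀ x, l • x = 0 → (e x = 1 ↔ ∃ j : ℕ, x = j • T)) {h : G} {P : ℕ} (hP : ¬ l ∣ P)
    {SF : Subgroup G} (hhP : h ^ P ∈ SF) (hhT : ρ h T = T)
    (hinv : ∀ x, l • x = 0 → e (ρ h x) = e x) :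
    ∀ x, l • x = 0 → (∀ u ∈ SF, ρ u x = x) → ρ h x = x := by
  intro x hx hfix
  have : Fact l.Prime := ⟨hl⟩
  have hy : l • (ρ h x - x) = 0 := by
    rw [smul_sub, ← map_nsmul, hx, map_zero, sub_zero]
  have hex : e x ≠ 0 := by
    intro h0
    have h1 := he.pow x hx
    rw [h0, zero_pow hl.ne_zero] at h1
    exact zero_ne_one h1
  have h1 : e (ρ h x - x) = 1 := by
    have h2 := he.add (ρ h x - x) hy x hx
    rw [sub_add_cancel, hinv x hx] at h2
    exact (mul_right_cancel₀ hex (by rw [one_mul]; exact h2)).symm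
  obtain ⟨c, hc⟩ := (hker _ hy).1 h1
  have hc' : ρ h x = x + c • T := by rw [← hc, add_sub_cancel]
  have hpow : ∀ j : ℕ, ρ (h ^ j) x = x + (j * c) • T := by
    intro j
    induction j with
    | zero => rw [pow_zero, hρ.one, zero_mul, zero_smul, add_zero]
    | succ j ih =>
      rw [pow_succ', hρ.mul, ih, map_add, hc', map_nsmul, hhT, add_mul, one_mul, add_smul, add_assoc,
        add_comm (c • T)]
  have h3 := hpow P
  rw [hfix _ hhP] at h3
  have h4 : (P * c) • T = 0 := by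
    have := h3.symm
    rwa [add_eq_left] at this
  have h5 : addOrderOf T = l := addOrderOf_eq_prime hT hT0
  have h6 : l ∣ P * c := by rw [← h5]; exact addOrderOf_dvd_of_nsmul_eq_zero h4
  obtain ⟨k, hk⟩ := (hl.dvd_mul.1 h6).resolve_left hP
  rw [hc', hk, mul_comm, mul_smul, hT, smul_zero, add_zero]

theorem vanish (hρ : Rho ρ) {l : ℕ} (hl : l.Prime) {SL SF : Subgroup G} [SL.Normal] [SF.Normal]
    (hSF : SF ≤ SL) {h : G} {P : ℕ} (hP : ¬ l ∣ P) {f : G → A} (hf : CocOn ρ SL f)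
    (htor : ∀ s ∈ SL, l • f s = 0) (h0 : ∀ s ∈ SF, f s = 0)
    (hcomm : ∀ s ∈ SL, s⁻¹ * h⁻¹ * s * h ∈ SF)
    (hB : ∀ x, l • x = 0 → (∀ u ∈ SF, ρ u x = x) → ρ h x = x) {R : A} (hR : l • R = 0)
    (hsum : ∀ s ∈ SL, ∑ j ∈ Finset.range P, cjf ρ (h ^ j) f s = ρ s R - R) :
    ∃ R', l • R' = 0 ∧ ∀ s ∈ SL, f s = ρ s R' - R' := by
  have ha : ∀ s ∈ SL, ∀ u ∈ SF, f (s * u) = f s := by
    intro s hs u hu
    rw [hf s hs u (hSF hu), h0 u hu, map_zero, add_zero]
  have hb : ∀ s ∈ SL, ∀ u ∈ SF, ρ u (f s) = f s := by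
    intro s hs u hu
    have h1 : f (u * s) = f s := by
      have h2 : u * s = s * (s⁻¹ * u * s⁻¹⁻¹) := by group
      rw [h2]
      exact ha s hs _ (Subgroup.Normal.conj_mem inferInstance u hu s⁻¹)
    rw [hf u (hSF hu) s hs, h0 u hu, zero_add] at h1
    exact h1
  have hc : ∀ s ∈ SL, ρ h (f s) = f s := fun s hs => hB _ (htor s hs) (hb s hs)
  have hn : ∀ s ∈ SL, h⁻¹ * s * h ∈ SL := by
    intro s hs
    have := Subgroup.Normal.conj_mem (inferInstance : SL.Normal) s hs h⁻¹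
    rwa [inv_inv] at this
  have hd : ∀ s ∈ SL, f (h⁻¹ * s * h) = f s := by
    intro s hs
    have h2 : h⁻¹ * s * h = s * (s⁻¹ * h⁻¹ * s * h) := by group
    rw [h2]
    exact ha s hs _ (hcomm s hs)
  have he : ∀ j : ℕ, ∀ s ∈ SL, cjf ρ (h ^ j) f s = f s := by
    intro j
    induction j with
    | zero =>
      intro s _
      unfold cjf
      rw [pow_zero, hρ.one, inv_one, one_mul, mul_one]
    | succ j ih =>
      intro s hs
      have h2 := ih _ (hn s hs)
      unfold cjf at h2 ⊢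
      have h3 : (h ^ (j + 1))⁻¹ * s * h ^ (j + 1) = (h ^ j)⁻¹ * (h⁻¹ * s * h) * h ^ j := by
        rw [pow_succ', mul_inv_rev]
        group
      rw [h3, pow_succ', hρ.mul, h2, hd s hs, hc s hs]
  have hco : Nat.Coprime P l := (Nat.coprime_comm.1 ((Nat.Prime.coprime_iff_not_dvd hl).2 hP))
  obtain ⟨m, -, hm⟩ := Nat.exists_mul_mod_eq_one_of_coprime hco hl.one_lt
  refine ⟨m • R, by rw [smul_comm, hR, smul_zero], fun s hs => ?_⟩
  have h1 := hsum s hs
  rw [Finset.sum_congr rfl (fun j _ => he j s hs), Finset.sum_const, Finset.card_range] at h1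
  have h2 : m * P = l * (m * P / l) + 1 := by
    have := Nat.div_add_mod (m * P) l
    rw [mul_comm P m] at hm
    rw [hm] at this
    exact this.symm
  rw [map_nsmul, ← smul_sub, ← h1, ← mul_smul, h2, add_smul, one_smul, mul_comm l, mul_smul,
    htor s hs, smul_zero, zero_add]

end H78D
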