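import Pool.Agent.H78.TD.Ka
import Pool.Agent.H10.Func5

/-!
Row Tb (about 170 lines): transport to the closure of L. Use only the STATEMENTS of Ka.

PROOF. ΩL := AlgebraicClosure L, Ω := AlgebraicClosure F, j := jj L F : ΩL ≃ₐ[L] Ω (H10/Func5), hj := map_jj hVF : (V'.baseChange ΩL).map j = W.baseChange Ω. Let f : Coch L V', cocycle, locally trivial, killed by l, g : ΩL ≃ₐ[K] ΩL.
 f' := trans j hj f : (Ω ≃ₐ[L] Ω) → points of W.baseChange Ω (H10/Func4), a cocycle: isCoc_trans (h' := inv_up hVF), from isCocycle_iff. f0 σ := if hσ : σ ∈ SA K L Ω then f' (toL σ hσ) else 0.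
 SC l L hV f0: coc: toL (σ τ) = toL σ * toL τ (rfl / ext), act (inv_up hV) σ = act (inv_up hVF) (toL σ) on points (both are pm of the same ring homomorphism: pm_congr or rfl). cont: f' is locally constant: lc_iff at σ₀ = 1 gives a finite set S with f' σ = f' 1 = 0 (IsCoc.one). tor: l • pm (f ..) = pm (l • f ..) = 0.
  loc: f0 (τ.restrictScalars K) = f' (τ.restrictScalars L) = resF hVF f τ (toL (τ.restrictScalars K) = τ.restrictScalars L, definition of resF), so it is isLocTriv_res hVF (H10/Func5) of f.
 g' := (j over K) g (j over K)⁻¹ : Ω ≃ₐ[K] Ω, with jK := j.restrictScalars K (needs IsScalarTower K L _): g' = (jK.symm.trans g).trans jK. core gives S with l • S = 0. T := pm j.symm _ S (map_jj_symm hVF). For τ : ΩL ≃ₐ[L] ΩL put s := (jK.symm.trans (τ over K)).trans jK ∈ SA K L Ω, toL s = (j.symm.trans τ).trans j.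
 Apply the injective pm j to the claim conj h g f τ = f τ + (act τ T - T): pm j (f τ) = f' (toL s) = f0 s (definition of trans: (j.trans (toL s)).trans j.symm = τ); pm j (act τ T) = act s S (pm_pm, pm_congr); pm j (conj h g f τ) = pm j (pm g (f (cj g τ))) = act g' (f0 (g'⁻¹ s g')) since j (cj g τ) j⁻¹ = toL (g'⁻¹ * s * g'), = cjf (act (inv_up hV)) g' f0 s. All comparisons of pm's by pm_pm and pm_congr.
-/

set_option autoImplicit false
open scoped Classical

open WeierstrassCurve IsDedekindDomain NumberField Pool.Agent.H10 Pool.Agent.H11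

namespace H78D

theorem ctl_of_core {K L F : Type} [Field K] [NumberField K] [Field L] [NumberField L] [Field F]
    [NumberField F] [Algebra K L] [Algebra K F] [Algebra L F] [IsScalarTower K L F] [Normal K L]
    {V : WeierstrassCurve K} {V' : WeierstrassCurve L} {W : WeierstrassCurve F} {l : ℕ}
    (hVL : V.map (algebraMap K L) = V') (hVF : V'.map (algebraMap L F) = W)
    (hV : V.map (algebraMap K F) = W)
    (H : ∀ f : (AlgebraicClosure F ≃ₐ[K] AlgebraicClosure F) →
      (W.baseChange (AlgebraicClosure F)).toAffine.Point, SC l L hV f →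
      ∀ g : AlgebraicClosure F ≃ₐ[K] AlgebraicClosure F,
      ∃ S, l • S = 0 ∧ ∀ s ∈ SA K L (AlgebraicClosure F),
        cjf (act (inv_up hV)) g f s = f s + (act (inv_up hV) s S - S)) :
    CTl l K L V' (inv_up hVL) := by
  intro f hf hl hk g
  let j := jj L F
  obtain ⟨f', hf'⟩ : ∃ f', f' = Pool.Agent.H10.trans j (map_jj hVF) f := ⟨_, rfl⟩
  have hfc : IsCoc (inv_up hVF) f' := by
    rw [hf']
    exact isCoc_trans (jj L F) (map_jj hVF) (h' := inv_up hVF)
      ((Pool.Agent.H10.isCocycle_iff f).1 hf)
  have hf3 : ∀ τ, l • f' τ = 0 := by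
    intro τ
    rw [hf']
    unfold Pool.Agent.H10.trans
    rw [← map_nsmul, hk, map_zero]
  obtain ⟨f0, hf0⟩ : ∃ f0 : (AlgebraicClosure F ≃ₐ[K] AlgebraicClosure F) →
      (W.baseChange (AlgebraicClosure F)).toAffine.Point, f0 = fun σ =>
        if hσ : σ ∈ SA K L (AlgebraicClosure F) then f' (toL σ hσ) else 0 := ⟨_, rfl⟩
  have hmem : ∀ (σ : AlgebraicClosure F ≃ₐ[K] AlgebraicClosure F)
      (hσ : σ ∈ SA K L (AlgebraicClosure F)), f0 σ = f' (toL σ hσ) := by
    intro σ hσ
    rw [hf0]
    exact dif_pos hσ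
  have hact : ∀ (σ : AlgebraicClosure F ≃ₐ[K] AlgebraicClosure F)
      (hσ : σ ∈ SA K L (AlgebraicClosure F))
      (P : (W.baseChange (AlgebraicClosure F)).toAffine.Point),
      Pool.Agent.H10.act (inv_up hVF) (toL σ hσ) P = Pool.Agent.H10.act (inv_up hV) σ P := by
    intro σ hσ P
    unfold Pool.Agent.H10.act
    exact pm_congr _ _ (fun _ => rfl) P
  have hSC : SC l L hV f0 := by
    constructor
    · intro s hs t ht
      rw [hmem _ ((SA K L (AlgebraicClosure F)).mul_mem hs ht), hmem s hs, hmem t ht, ← hact s hs,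
        ← hfc.2]
      rfl
    · obtain ⟨A, hA⟩ := (lc_iff f').1 hfc.1 1
      refine ⟨A, fun σ hσ hx => ?_⟩
      rw [hmem σ hσ, hA (toL σ hσ) (fun x hxA => hx x hxA), hfc.one]
    · intro σ hσ
      rw [hmem σ hσ, hf3]
    · have e : (fun τ : AlgebraicClosure F ≃ₐ[F] AlgebraicClosure F =>
          f0 (τ.restrictScalars K)) = resF hVF f := by
        funext τ
        have h1 : τ.restrictScalars K ∈ SA K L (AlgebraicClosure F) := by
          intro x
          change τ (algebraMap L (AlgebraicClosure F) x) = _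
          rw [IsScalarTower.algebraMap_apply L F (AlgebraicClosure F), τ.commutes]
        rw [hmem _ h1, hf']
        rfl
      rw [e]
      exact isLocTriv_res hVF hf hl
  let jK := j.restrictScalars K
  let g' : AlgebraicClosure F ≃ₐ[K] AlgebraicClosure F := (jK.symm.trans g).trans jK
  have hg' : ∀ z, g' z = j (g (j.symm z)) := fun z => rfl
  obtain ⟨S, hS, HS⟩ := H f0 hSC g'
  refine ⟨pm (j.symm : AlgebraicClosure F →+* AlgebraicClosure L) (map_jj_symm hVF) S, ?_,
    fun τ => ?_⟩
  · rw [← map_nsmul, hS, map_zero]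
  · let s : AlgebraicClosure F ≃ₐ[K] AlgebraicClosure F :=
      (jK.symm.trans (τ.restrictScalars K)).trans jK
    have hsz : ∀ z, s z = j (τ (j.symm z)) := fun z => rfl
    have hs : s ∈ SA K L (AlgebraicClosure F) := by
      intro x
      rw [hsz, j.symm.commutes, τ.commutes, j.commutes]
    have hc : g'⁻¹ * s * g' ∈ SA K L (AlgebraicClosure F) := by
      have h1 := (SA_normal (K := K) (L := L) (Ω := AlgebraicClosure F)).conj_mem s hs g'⁻¹
      rw [inv_inv] at h1
      exact h1
    have e1 : (j.trans (toL s hs)).trans j.symm = τ := by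
      refine AlgEquiv.ext fun y => ?_
      change j.symm (s (j y)) = τ y
      rw [hsz, j.symm_apply_apply, j.symm_apply_apply]
    have e2 : (j.trans (toL (g'⁻¹ * s * g') hc)).trans j.symm = cj g τ := by
      refine AlgEquiv.ext fun y => ?_
      change j.symm (g'⁻¹ (s (g' (j y)))) = cj g τ y
      rw [AlgEquiv.symm_apply_eq]
      apply g'.injective
      have h2 : g' (g'⁻¹ (s (g' (j y)))) = s (g' (j y)) := g'.apply_symm_apply _
      rw [h2, hg' (j (cj g τ y)), j.symm_apply_apply, apply_cj, hg', j.symm_apply_apply, hsz,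
        j.symm_apply_apply]
    have h1 := HS s hs
    change Pool.Agent.H10.act (inv_up hV) g' (f0 (g'⁻¹ * s * g')) = _ at h1
    have hTT : pm (j : AlgebraicClosure L →+* AlgebraicClosure F) (map_jj hVF)
        (pm (j.symm : AlgebraicClosure F →+* AlgebraicClosure L) (map_jj_symm hVF) S) = S := by
      rw [pm_pm]
      exact pm_eq_self _ (fun x => j.apply_symm_apply x) S
    have hFτ : f0 s = pm (j : AlgebraicClosure L →+* AlgebraicClosure F) (map_jj hVF) (f τ) := by
      rw [hmem s hs, hf']
      unfold Pool.Agent.H10.trans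
      rw [e1]
    have hFc' : f0 (g'⁻¹ * s * g') =
        pm (j : AlgebraicClosure L →+* AlgebraicClosure F) (map_jj hVF) (f (cj g τ)) := by
      rw [hmem _ hc, hf']
      unfold Pool.Agent.H10.trans
      rw [e2]
    apply pm_injective (j : AlgebraicClosure L →+* AlgebraicClosure F) (map_jj hVF)
    have h5 : pm (j : AlgebraicClosure L →+* AlgebraicClosure F) (map_jj hVF)
        (conj (inv_up hVL) g f τ) =
          Pool.Agent.H10.act (inv_up hV) g' (f0 (g'⁻¹ * s * g')) := by
      unfold conj
      rw [hFc']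
      unfold Pool.Agent.H10.act
      rw [pm_pm, pm_pm]
      apply pm_congr
      intro x
      change j (g x) = g' (j x)
      rw [hg', j.symm_apply_apply]
    have h6 : pm (j : AlgebraicClosure L →+* AlgebraicClosure F) (map_jj hVF)
        (Pool.Agent.H10.act (inv_bc L V') τ
          (pm (j.symm : AlgebraicClosure F →+* AlgebraicClosure L) (map_jj_symm hVF) S)) =
        Pool.Agent.H10.act (inv_up hV) s S := by
      unfold Pool.Agent.H10.act
      rw [pm_pm, pm_pm]
      apply pm_congr
      intro x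
      change j (τ (j.symm x)) = s x
      rw [hsz]
    rw [h5, h1, map_add, map_sub, h6, hTT, hFτ]

end H78D
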