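import Pool.Agent.H78.TD.S3
import Pool.Agent.H78.TD.Tb
import Pool.Agent.H78.TD.Xa
import Pool.Agent.H78.TD.Xb

/-!
# MP_78d38b_T4, block D: final statements for one pair of fields
-/

set_option autoImplicit false
open scoped Classical

open WeierstrassCurve IsDedekindDomain NumberField Pool.Agent.H10 Pool.Agent.H11

namespace H78D

/-- Conjugation by the group of `K` does not change the classes of Sha killed by `l`. -/
theorem ct_l {K Km L F : Type} [Field K] [NumberField K] [Field Km] [NumberField Km] [Field L]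
    [NumberField L] [Field F] [NumberField F] [Algebra K L] [Algebra K F] [Algebra L F]
    [IsScalarTower K L F] [Algebra K Km] [Algebra Km F] [IsScalarTower K Km F] [Normal K L]
    [IsGalois K F] {V : WeierstrassCurve K} {V' : WeierstrassCurve L} {W : WeierstrassCurve F}
    {l : ℕ} {T : W.toAffine.Point} {h : F ≃ₐ[Km] F} {J : F ≃ₐ[L] F} {D : ℤ}
    (H : Dat l K Km L F W T h J D) (hVL : V.map (algebraMap K L) = V')
    (hVF : V'.map (algebraMap L F) = W) : CTl l K L V' (inv_up hVL) := by
  have hV : V.map (algebraMap K F) = W := by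
    rw [← hVF, ← hVL, WeierstrassCurve.map_map, ← IsScalarTower.algebraMap_eq K L F]
  have : IsGalois Km F := IsGalois.tower_top_of_isGalois K Km F
  exact ctl_of_core hVL hVF hV (fun f hf g => core H hV hf g)

/-- Bijectivity on the `l`-primary part of Sha, and the Mordell-Weil groups. -/
theorem of_ctl {K L : Type} [Field K] [NumberField K] [Field L] [NumberField L] [Algebra K L]
    [IsGalois K L] {l : ℕ} (hl : l.Prime) (hn : ¬ l ∣ Module.finrank K L) {E : WeierstrassCurve K}
    (hE : (E.baseChange L).IsElliptic) (H : CTl l K L (E.baseChange L) (inv_up rfl)) :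
    ShaPBijective l K E L ∧
      ∃ m : ℕ, ¬ l ∣ m ∧ ∀ P : (E.baseChange L).toAffine.Point,
        ∃ Q : (E.baseChange K).toAffine.Point,
          m • P = WeierstrassCurve.Affine.Point.map (Algebra.ofId K L) Q := by
  refine ⟨shaPBijective rfl (bijOn_of_l hl (Sha.res rfl) (Sha.cor rfl) hn (Sha.cor_res rfl)
    (l_up hl hn hE rfl H)), ?_⟩
  obtain ⟨m, hm, hP⟩ := l_exponent hl (pm (algebraMap K L) (V := E) (V' := E.baseChange L) rfl)
    (mordell_weil (E.baseChange L)) (mw_up_l hl hn hE rfl H)
  refine ⟨m, hm, fun P => ?_⟩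
  obtain ⟨Q, hQ⟩ := hP P
  refine ⟨Q, ?_⟩
  rw [hQ]
  exact (map_eq_pm (S := K) E (Algebra.ofId K L) Q).symm

end H78D
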