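import Pool.Agent.H78.TD.Df
import Pool.Agent.H11.LocMain

/-!
Row Ua (about 230 lines, adaptation of Pool/Agent/H11/LocMain.lean): local theorem with an etale condition.

inE1_of_inertia: copy of the proof of map_eq_self_of_inertia at the end of Pool/Agent/H11/Local.lean without its first two lines (the point t Q - Q reduces to the origin).
loc_main_et: COPY the proof of loc_main. Changes: there is no n (drop hn, hnw, hnV, hfix, hT, hζ). In `key` (τ₀ in the inertia group fixes j α), after the construction of t, ht, ht', τ, hτ, σ, hσ, hcomp, hgt, hmap, hinjg, hinjι: put Q := map t P' - P' (a point of W.baseChange L), InE1 AV (W.baseChange L) Q by inE1_of_inertia.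
 Let S : (W.baseChange M).Point with map M.val S = f σ (hf σ). Then map g (map j S) = map ι (f σ) = map g Q (h1 : hP τ σ hcomp with P = map g P', hmap), so map j S = Q by injectivity of map g. InE1 (AV.comap j) (W.baseChange M) S: if S = 0 left; if S = some x y then Q = some (j x) (j y), and InE1 AV Q gives j x ∉ AV (or Q = 0, impossible: some ≠ 0), i.e. x ∉ AV.comap j.
 hE for V = AV.comap (j : M →+* L) (its first hypothesis is the first claim, proved as in the source by w_le_iff) gives Z σ, so σ α = α by the hypothesis on α, and then τ₀ (j α) = j α as at the end of `key` in the source (h3, h4). The rest (exists_val_eq, hKF) is unchanged.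
-/

set_option autoImplicit false

open scoped Classical

open IsDedekindDomain WeierstrassCurve WeierstrassCurve.Affine Pool.Agent.H11

namespace H78D

theorem Ua_inE1 {L : Type*} [Field L] [DecidableEq L] (A : ValuationSubring L) {K : Type*} [Field K]
    [Algebra K L] (W : WeierstrassCurve K)
    [W.IsElliptic] (hW : Integral A (W.baseChange L)) (hΔ : A.valuation (W.baseChange L).Δ = 1)
    (t : L →ₐ[K] L) (ht : ∀ a ∈ A, A.valuation (t a - a) < 1) (ht' : ∀ a ∉ A, t a ∉ A)
    (P : (W.baseChange L).toAffine.Point) :
    InE1 A (W.baseChange L) ((WeierstrassCurve.Affine.Point.map t :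
      (W.baseChange L).toAffine.Point →+ (W.baseChange L).toAffine.Point) P - P) := by
  match P with
  | 0 => left; simp
  | .some x y hxy =>
    rw [WeierstrassCurve.Affine.Point.map_some]
    by_cases hx : x ∈ A
    · have hy := y_mem hW hx hxy.1
      have h1 := ht x hx
      have h2 := ht y hy
      have hx' : t x ∈ A := by
        have := add_mem (nu_mem A h1) hx
        rwa [sub_add_cancel] at this
      exact inE1_sub hW hΔ _ _ hx' hx h1 h2
    · have e1 : InE1 A (W.baseChange L) (.some x y hxy) := Or.inr ⟨x, y, hxy, rfl, hx⟩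
      have e2 : InE1 A (W.baseChange L) (WeierstrassCurve.Affine.Point.map t (.some x y hxy)) := by
        rw [WeierstrassCurve.Affine.Point.map_some]
        exact Or.inr ⟨_, _, _, rfl, ht' x hx⟩
      exact (InE1.add_sub hW e2 e1).2.1

theorem inE1_of_inertia {K L : Type*} [Field K] [Field L] [Algebra K L] {A : ValuationSubring L}
    (W : WeierstrassCurve K) [W.IsElliptic] (hW : Integral A (W.baseChange L))
    (hΔ : A.valuation (W.baseChange L).Δ = 1) (t : L →ₐ[K] L)
    (ht : ∀ a ∈ A, A.valuation (t a - a) < 1) (ht' : ∀ a ∉ A, t a ∉ A)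
    (P : (W.baseChange L).toAffine.Point) :
    InE1 A (W.baseChange L) ((WeierstrassCurve.Affine.Point.map t :
      (W.baseChange L).toAffine.Point →+ (W.baseChange L).toAffine.Point) P - P) := by
  exact Ua_inE1 A W hW hΔ t ht ht' P

section main

variable (K F A : Type*) [Field K] [Field F] [Algebra K F] [CharZero F]
  [CommRing A] [IsDomain A] [IsDiscreteValuationRing A] [Ring.HasFiniteQuotients A]
  [Algebra A F] [IsFractionRing A F]

theorem loc_main_et (hKF : ∀ x : F, x ≠ 0 → ∃ k : K, k ≠ 0 ∧ ∃ u : A, IsUnit u ∧
      x = algebraMap K F k * algebraMap A F u)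
    (W : WeierstrassCurve K) [W.IsElliptic]
    (WA : WeierstrassCurve A) (hWA : WA.map (algebraMap A F) = W.map (algebraMap K F))
    (hΔ : IsUnit WA.Δ)
    (ι : AlgebraicClosure K →ₐ[K] AlgebraicClosure F)
    (M : IntermediateField K (AlgebraicClosure K)) [FiniteDimensional K M]
    (f : (AlgebraicClosure K ≃ₐ[K] AlgebraicClosure K) →
      (W.baseChange (AlgebraicClosure K)).toAffine.Point)
    (Z : (AlgebraicClosure K ≃ₐ[K] AlgebraicClosure K) → Prop)
    (hf : ∀ σ, ∃ S : (W.baseChange M).toAffine.Point,
      WeierstrassCurve.Affine.Point.map M.val S = f σ)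
    (P : (W.baseChange (AlgebraicClosure F)).toAffine.Point)
    (hP : ∀ (τ : AlgebraicClosure F ≃ₐ[F] AlgebraicClosure F)
      (σ : AlgebraicClosure K ≃ₐ[K] AlgebraicClosure K),
      (τ.toAlgHom.restrictScalars K).comp ι = ι.comp σ.toAlgHom →
      (WeierstrassCurve.Affine.Point.map ι :
        (W.baseChange (AlgebraicClosure K)).toAffine.Point →+
          (W.baseChange (AlgebraicClosure F)).toAffine.Point) (f σ) =
        (WeierstrassCurve.Affine.Point.map (τ.toAlgHom.restrictScalars K) :
          (W.baseChange (AlgebraicClosure F)).toAffine.Point →+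
            (W.baseChange (AlgebraicClosure F)).toAffine.Point) P - P)
    (hE : ∀ V : ValuationSubring M, (∀ x : K, algebraMap K M x ∈ V ↔
        ∃ a : A, algebraMap A F a = algebraMap K F x) →
      ∀ (σ : AlgebraicClosure K ≃ₐ[K] AlgebraicClosure K) (S : (W.baseChange M).toAffine.Point),
        WeierstrassCurve.Affine.Point.map M.val S = f σ → InE1 V (W.baseChange M) S → Z σ) :
    ∃ V : ValuationSubring M, (∀ x : K, algebraMap K M x ∈ V ↔
        ∃ a : A, algebraMap A F a = algebraMap K F x) ∧
      ∀ α : M, α ≠ 0 → (∀ σ : AlgebraicClosure K ≃ₐ[K] AlgebraicClosure K, Z σ →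
        σ (α : AlgebraicClosure K) = α) →
        ∃ c : K, c ≠ 0 ∧ α / algebraMap K M c ∈ V ∧ (α / algebraMap K M c)⁻¹ ∈ V := by
  -- the finite Galois extension `L` of `F`
  let b := Module.finBasis K M
  let S : Set (AlgebraicClosure F) := Set.range (fun i ↦ ι (b i)) ∪ coordSet P
  have hSfin : Finite S := (Set.finite_range _).union (coordSet_finite P)
  let F₀ : IntermediateField F (AlgebraicClosure F) := IntermediateField.adjoin F S
  have hF₀ : FiniteDimensional F F₀ :=
    IntermediateField.finiteDimensional_adjoin fun x _ ↦ Algebra.IsIntegral.isIntegral x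
  let L : IntermediateField F (AlgebraicClosure F) :=
    IntermediateField.normalClosure F F₀ (AlgebraicClosure F)
  have hLle : F₀ ≤ L := IntermediateField.le_normalClosure F₀
  have hLfin : FiniteDimensional F L := normalClosure.is_finiteDimensional F F₀ (AlgebraicClosure F)
  have hLn : Normal F L := normalClosure.normal F F₀ (AlgebraicClosure F)
  have hLgal : IsGalois F L := { }
  have hιM : ∀ m : M, ι m ∈ L := by
    intro m
    apply hLle
    have : (m : AlgebraicClosure K) = ∑ i, (b.repr m i) • (b i : AlgebraicClosure K) := by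
      have h := congrArg M.val (b.sum_repr m)
      rw [map_sum] at h
      rw [← IntermediateField.coe_val, ← h]
      rfl
    rw [this, map_sum]
    apply sum_mem
    intro i _
    rw [map_smul, Algebra.smul_def, IsScalarTower.algebraMap_apply K F (AlgebraicClosure F)]
    exact mul_mem (F₀.algebraMap_mem _)
      (IntermediateField.subset_adjoin F S (Or.inl ⟨i, rfl⟩))
  let j : M →ₐ[K] L :=
    { toFun := fun m ↦ ⟨ι m, hιM m⟩
      map_one' := by ext; simp
      map_mul' := fun x y ↦ by ext; simp
      map_zero' := by ext; simp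
      map_add' := fun x y ↦ by ext; simp
      commutes' := fun x ↦ by
        ext
        exact ι.commutes x }
  let g : L →ₐ[K] AlgebraicClosure F := L.val.restrictScalars K
  obtain ⟨P', hP'⟩ := exists_point_of_coords W g P (by
    intro x hx
    exact ⟨⟨x, hLle (IntermediateField.subset_adjoin F S (Or.inr hx))⟩, rfl⟩)
  -- the local ring
  have tAL : IsScalarTower A F L := IsScalarTower.of_algebraMap_eq fun _ ↦ rfl
  have hD : IsDedekindDomain (integralClosure A L) := ic_dedekind A F L
  have hFr : IsFractionRing (integralClosure A L) L := ic_frac A F L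
  obtain ⟨w⟩ := exists_prime A F L
  let AV : ValuationSubring L := (w.valuation L).valuationSubring
  have hAVeq : (w.valuation L).IsEquiv AV.valuation :=
    Valuation.isEquiv_valuation_valuationSubring _
  have hmemA : ∀ a : A, algebraMap A L a ∈ AV := fun a ↦ w_le_of_mem w a
  have hbc : W.baseChange L = WA.map (algebraMap A L) := by
    have : algebraMap K L = (algebraMap F L).comp (algebraMap K F) :=
      IsScalarTower.algebraMap_eq K F L
    rw [WeierstrassCurve.baseChange, this, ← WeierstrassCurve.map_map, ← hWA,
      WeierstrassCurve.map_map, ← IsScalarTower.algebraMap_eq A F L]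
  have hWI : Integral AV (W.baseChange L) := by
    rw [hbc]
    exact ⟨hmemA _, hmemA _, hmemA _, hmemA _, hmemA _⟩
  have hWΔ : AV.valuation (W.baseChange L).Δ = 1 := by
    rw [hbc, WeierstrassCurve.map_Δ, ← hAVeq.eq_one_iff_eq_one]
    exact w_eq_one_of_unit w _ hΔ
  have hV : ∀ x : K, algebraMap K M x ∈ AV.comap (j : M →+* L) ↔
      ∃ a : A, algebraMap A F a = algebraMap K F x := by
    intro x
    rw [← w_le_iff w, ValuationSubring.mem_comap]
    have : (j : M →+* L) (algebraMap K M x) = algebraMap F L (algebraMap K F x) := by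
      rw [← IsScalarTower.algebraMap_apply K F L]
      exact j.commutes x
    rw [this]
    exact Iff.rfl
  refine ⟨AV.comap (j : M →+* L), hV, fun α hα hα2 ↦ ?_⟩
  have key : ∀ τ₀ ∈ w.asIdeal.inertia Gal(L/F), τ₀ (j α) = j α := by
    intro τ₀ hτ₀
    let t : L →ₐ[K] L := (τ₀ : L →ₐ[F] L).restrictScalars K
    have ht : ∀ a ∈ AV, AV.valuation (t a - a) < 1 := fun a ha ↦ by
      rw [← hAVeq.lt_one_iff_lt_one]
      exact inertia_sub_lt w τ₀ hτ₀ a ha
    have ht' : ∀ a ∉ AV, t a ∉ AV := fun a ha ↦ inertia_not_le w τ₀ hτ₀ a ha
    let τ : AlgebraicClosure F ≃ₐ[F] AlgebraicClosure F := τ₀.liftNormal (AlgebraicClosure F)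
    have hτ : ∀ x : L, τ x = τ₀ x := AlgEquiv.liftNormal_commutes τ₀ (AlgebraicClosure F)
    let algι : Algebra (AlgebraicClosure K) (AlgebraicClosure F) := ι.toRingHom.toAlgebra
    have towι : IsScalarTower K (AlgebraicClosure K) (AlgebraicClosure F) :=
      IsScalarTower.of_algebraMap_eq' ι.comp_algebraMap.symm
    let σ : AlgebraicClosure K ≃ₐ[K] AlgebraicClosure K :=
      (τ.restrictScalars K).restrictNormal (AlgebraicClosure K)
    have hσ : ∀ x, ι (σ x) = τ (ι x) := fun x ↦
      AlgEquiv.restrictNormal_commutes (τ.restrictScalars K) (AlgebraicClosure K) x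
    have hcomp : (τ.toAlgHom.restrictScalars K).comp ι = ι.comp σ.toAlgHom := by
      ext x; exact (hσ x).symm
    have hgt : (τ.toAlgHom.restrictScalars K).comp g = g.comp t := by
      ext x; exact hτ x
    have hmap : ∀ Q : (W.baseChange L).toAffine.Point,
        (WeierstrassCurve.Affine.Point.map (τ.toAlgHom.restrictScalars K) :
          (W.baseChange (AlgebraicClosure F)).toAffine.Point →+
            (W.baseChange (AlgebraicClosure F)).toAffine.Point)
          ((WeierstrassCurve.Affine.Point.map g : (W.baseChange L).toAffine.Point →+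
            (W.baseChange (AlgebraicClosure F)).toAffine.Point) Q) =
        (WeierstrassCurve.Affine.Point.map g : (W.baseChange L).toAffine.Point →+
            (W.baseChange (AlgebraicClosure F)).toAffine.Point)
          ((WeierstrassCurve.Affine.Point.map t :
            (W.baseChange L).toAffine.Point →+ (W.baseChange L).toAffine.Point) Q) := by
      intro Q
      rw [WeierstrassCurve.Affine.Point.map_map, WeierstrassCurve.Affine.Point.map_map, hgt]
    have hinjg := WeierstrassCurve.Affine.Point.map_injective (W' := W) (f := g)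
    have h1 := hP τ σ hcomp
    rw [← hP', hmap, ← map_sub] at h1
    have hQ := Ua_inE1 AV W hWI hWΔ t ht ht' P'
    obtain ⟨S₁, hS₁⟩ := hf σ
    have h6 : (WeierstrassCurve.Affine.Point.map ι :
        (W.baseChange (AlgebraicClosure K)).toAffine.Point →+
          (W.baseChange (AlgebraicClosure F)).toAffine.Point) (f σ) =
        (WeierstrassCurve.Affine.Point.map g : (W.baseChange L).toAffine.Point →+
          (W.baseChange (AlgebraicClosure F)).toAffine.Point)
            (WeierstrassCurve.Affine.Point.map j S₁) := by
      rw [← hS₁]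
      rw [WeierstrassCurve.Affine.Point.map_map, WeierstrassCurve.Affine.Point.map_map]
      rfl
    have h7 : (WeierstrassCurve.Affine.Point.map j : (W.baseChange M).toAffine.Point →+
        (W.baseChange L).toAffine.Point) S₁ = (WeierstrassCurve.Affine.Point.map t :
            (W.baseChange L).toAffine.Point →+ (W.baseChange L).toAffine.Point) P' - P' := by
      apply hinjg
      rw [← h6]
      exact h1
    rw [← h7] at hQ
    have hS₁E : InE1 (AV.comap (j : M →+* L)) (W.baseChange M) S₁ := by
      match S₁, hQ with
      | 0, _ => exact Or.inl rfl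
      | .some x y hxy, hQ =>
        right
        refine ⟨x, y, hxy, rfl, ?_⟩
        rw [WeierstrassCurve.Affine.Point.map_some] at hQ
        rcases hQ with hQ | ⟨x', y', h', hQ, hx'⟩
        · exact absurd hQ (WeierstrassCurve.Affine.Point.some_ne_zero _)
        · rw [WeierstrassCurve.Affine.Point.some.injEq] at hQ
          intro hx
          apply hx'
          rw [← hQ.1]
          exact hx
    have hZ := hE (AV.comap (j : M →+* L)) hV σ S₁ hS₁ hS₁E
    have h3 := hα2 σ hZ
    have h4 : τ (ι α) = ι α := by rw [← hσ, h3]
    apply L.val.injective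
    exact (hτ (j α)).symm.trans h4
  obtain ⟨c, hc0, hc⟩ := exists_val_eq w (j α) (by simpa using hα) key
  obtain ⟨k, hk0, u, hu, rfl⟩ := hKF c hc0
  have h10 : w.valuation L (j (α / algebraMap K M k)) = 1 := by
    rw [map_mul, ← IsScalarTower.algebraMap_apply A F L, ← IsScalarTower.algebraMap_apply K F L,
      map_mul, w_eq_one_of_unit w u hu, mul_one] at hc
    have hne : w.valuation L (algebraMap K L k) ≠ 0 := by
      rw [Valuation.ne_zero_iff]
      exact (map_ne_zero _).mpr hk0
    rw [map_div₀, j.commutes, map_div₀, hc, div_self hne]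
  refine ⟨k, hk0, ?_, ?_⟩
  · rw [ValuationSubring.mem_comap]
    exact h10.le
  · rw [ValuationSubring.mem_comap]
    have : w.valuation L (j (α / algebraMap K M k)⁻¹) = 1 := by
      rw [map_inv₀, map_inv₀, h10, inv_one]
    exact this.le

end main

end H78D
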