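import Pool.Agent.H78.TD.Df
import Pool.Agent.H11.Ramif2

/-!
Row Uc (about 160 lines): a place with the same value group has trivial inertia groups.

SETTING: M / F a Galois extension of number fields, w a prime of F, V a valuation subring of M with V cap F the ring of w, such that every α ≠ 0 in M is the product of an element of F and a unit of V.
PROOF. Step 1, the prime q of 𝓞 M under V: q := {x | x ∈ maximal ideal of V} = comap of the maximal ideal: all algebraic integers are in V (V is integrally closed: an element x ∉ V has x⁻¹ in the maximal ideal; monic equation over ℤ ⊂ V; e.g. valuation ring is integrally closed, or directly: V.valuation x > 1 contradicts x^n = - ∑ a_i x^i).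
 q.asIdeal := Ideal of 𝓞 M of the x with V.valuation x < 1; prime; q ∩ 𝓞 F = w (for x ∈ 𝓞 F: x ∈ w iff w.valuation x < 1 iff x ∈ V and not (x⁻¹ ∈ V)): in particular ≠ ⊥ because w ≠ ⊥. So q : HeightOneSpectrum (𝓞 M), q.asIdeal.LiesOver w.asIdeal.
 Step 2: if β ∈ V, β⁻¹ ∈ V then q.valuation M β = 1. For: if q.valuation β < 1 then β = n / d with d ∉ q, n ∈ q (HeightOneSpectrum.exists_primeCompl_mul_eq_of_integer for q, as in H11/Inert.lean: n = β d, valuation n < 1 so n ∈ q), so V.valuation β = V.valuation n / V.valuation d < 1 (V.valuation d = 1 as d ∉ q, d ∈ V), against β⁻¹ ∈ V. Same for β⁻¹.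
 Step 3: let α ∈ M be a uniformizer of q (HeightOneSpectrum.valuation_exists_uniformizer), α = c * unit of V, so q.valuation α = q.valuation (algebraMap c) = (w.valuation c)^e with e = Nat.card (q.asIdeal.inertia (M ≃ₐ[F] M)) (Pool.Agent.H11.valuation_pow_card_inertia with A = 𝓞 F, B = 𝓞 M, K = F, L = M, G = M ≃ₐ[F] M, v = w, w = q; instances: MulSemiringAction (M ≃ₐ[F] M) (𝓞 M) and IsGaloisGroup (M ≃ₐ[F] M) (𝓞 F) (𝓞 M) exist in Mathlib (NumberField / IsGaloisGroup.of_isFractionRing); Finite (𝓞 F ⧸ w)).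
  exp (-1) = (w c)^e: taking log: -1 = e * log (w c), so e = 1 (Int.isUnit / Nat).
 Step 4: for every prime P of 𝓞 M over w: Nat.card (P.inertia G) = ramificationIdxIn = Nat.card (q.inertia G) = 1 (Ideal.card_inertia_eq_ramificationIdxIn w.asIdeal P, used in H11/Ramif.lean). If g ∈ G satisfies g x - x ∈ P for all x ∈ 𝓞 M (hypothesis in the form ∃ y ∈ P, g x = x + y) then g ∈ P.inertia G, so g = 1 (Subgroup of cardinality one: Nat.card_eq_one_iff_unique / Subgroup.card_eq_one / eq_bot_of_card_eq).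
-/

set_option autoImplicit false

open scoped Classical

open IsDedekindDomain NumberField Pool.Agent.H11

namespace H78D

section

open Ideal

theorem Uc_card {A B : Type*} [CommRing A] [IsDedekindDomain A] [CommRing B] [IsDedekindDomain B] [Algebra A B]
    [Module.Finite A B] [Module.IsTorsionFree A B] (v : HeightOneSpectrum A) (P Q : Ideal B) [P.IsPrime] [Q.IsPrime]
    [P.LiesOver v.asIdeal] [Q.LiesOver v.asIdeal] (G : Type*) [Group G] [Finite G] [MulSemiringAction G B]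
    [IsGaloisGroup G A B] (hfin : Finite (A ⧸ v.asIdeal)) :
    Nat.card (P.inertia G) = Nat.card (Q.inertia G) := by
  have : v.asIdeal.IsPrime := v.isPrime
  have : v.asIdeal.IsMaximal := v.isMaximal
  rw [card_inertia_eq_ramificationIdxIn v.asIdeal P, card_inertia_eq_ramificationIdxIn v.asIdeal Q]

end

theorem Uc_lt {K Γ : Type*} [Field K] [LinearOrderedCommGroupWithZero Γ] (v : Valuation K Γ) {y : K} (hy : y ≠ 0) :
    v y < 1 ↔ ¬ v y⁻¹ ≤ 1 := by
  rw [map_inv₀, inv_le_one₀ (zero_lt_iff.2 ((Valuation.ne_zero_iff _).2 hy)), not_le]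

theorem Uc_int {M : Type} [Field M] (V : ValuationSubring M) (x : 𝓞 M) : (x : M) ∈ V := by
  have h1 : IsIntegral ℤ (x : M) := x.isIntegral_coe
  have h2 : IsIntegral V (x : M) := h1.tower_top
  obtain ⟨y, hy⟩ := IsIntegrallyClosed.isIntegral_iff.1 h2
  rw [← hy]
  exact y.2

/-- the prime under `V` -/
noncomputable def Uc_q {M : Type} [Field M] (V : ValuationSubring M) : Ideal (𝓞 M) :=
  Ideal.comap (RingHom.codRestrict (algebraMap (𝓞 M) M) V (Uc_int V)) (IsLocalRing.maximalIdeal V)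

theorem Uc_mem {M : Type} [Field M] (V : ValuationSubring M) (x : 𝓞 M) :
    x ∈ Uc_q V ↔ V.valuation (x : M) < 1 := by
  unfold Uc_q
  rw [Ideal.mem_comap, ValuationSubring.valuation_lt_one_iff]
  rfl

theorem Uc_notmem {M : Type} [Field M] (V : ValuationSubring M) (x : 𝓞 M) (hx : x ∉ Uc_q V) :
    V.valuation (x : M) = 1 := by
  rw [Uc_mem, not_lt] at hx
  exact le_antisymm ((V.valuation_le_one_iff _).2 (Uc_int V x)) hx

theorem Uc_val {M : Type} [Field M] [NumberField M] (V : ValuationSubring M) (q : HeightOneSpectrum (𝓞 M))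
    (hq : q.asIdeal = Uc_q V) (β : M) (h : q.valuation M β < 1) : V.valuation β < 1 := by
  obtain ⟨n, d, hnd⟩ := q.exists_primeCompl_mul_eq_of_integer β h.le
  have hd : (d : 𝓞 M) ∉ q.asIdeal := d.2
  have h1 : q.valuation M (algebraMap (𝓞 M) M d) = 1 := q.valuation_eq_one_iff_notMem.mpr hd
  have h2 : V.valuation (algebraMap (𝓞 M) M d) = 1 := Uc_notmem V d (by rw [← hq]; exact hd)
  have h3 : q.valuation M (algebraMap (𝓞 M) M n) < 1 := by
    rw [← hnd, map_mul, h1, mul_one]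
    exact h
  have h4 : n ∈ Uc_q V := by
    rw [← hq]
    exact (q.valuation_lt_one_iff_mem _).1 h3
  have h5 : V.valuation (algebraMap (𝓞 M) M n) < 1 := (Uc_mem V n).1 h4
  rw [← hnd, map_mul, h2, mul_one] at h5
  exact h5

theorem Uc_unit {M : Type} [Field M] [NumberField M] (V : ValuationSubring M) (q : HeightOneSpectrum (𝓞 M))
    (hq : q.asIdeal = Uc_q V) (β : M) (hβ : β ≠ 0) (h1 : β ∈ V) (h2 : β⁻¹ ∈ V) : q.valuation M β = 1 := by
  have h3 : ¬ V.valuation β < 1 := by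
    rw [Uc_lt _ hβ, not_not]
    exact (V.valuation_le_one_iff _).2 h2
  have h4 : ¬ V.valuation β⁻¹ < 1 := by
    rw [Uc_lt _ (inv_ne_zero hβ), not_not, inv_inv]
    exact (V.valuation_le_one_iff _).2 h1
  have h5 : ¬ q.valuation M β < 1 := fun h => h3 (Uc_val V q hq β h)
  have h6 : ¬ q.valuation M β⁻¹ < 1 := fun h => h4 (Uc_val V q hq β⁻¹ h)
  rw [Uc_lt _ (inv_ne_zero hβ), not_not, inv_inv] at h6
  exact le_antisymm h6 (not_lt.1 h5)

theorem Uc_under {F M : Type} [Field F] [NumberField F] [Field M] [NumberField M] [Algebra F M]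
    (w : HeightOneSpectrum (𝓞 F)) (V : ValuationSubring M)
    (hV : ∀ x : F, algebraMap F M x ∈ V ↔ w.valuation F x ≤ 1) (x : 𝓞 F) :
    algebraMap (𝓞 F) (𝓞 M) x ∈ Uc_q V ↔ x ∈ w.asIdeal := by
  have e : ((algebraMap (𝓞 F) (𝓞 M) x : 𝓞 M) : M) = algebraMap F M (x : F) := rfl
  by_cases hx : x = 0
  · rw [hx, map_zero]
    exact ⟨fun _ => zero_mem _, fun _ => zero_mem _⟩
  · have hx1 : (x : F) ≠ 0 := RingOfIntegers.coe_ne_zero_iff.2 hx
    have hx2 : algebraMap F M (x : F) ≠ 0 := (map_ne_zero _).2 hx1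
    rw [Uc_mem, e, Uc_lt _ hx2, V.valuation_le_one_iff, ← map_inv₀, hV, ← Uc_lt _ hx1]
    exact w.valuation_lt_one_iff_mem x

theorem inertia_triv {F M : Type} [Field F] [NumberField F] [Field M] [NumberField M] [Algebra F M]
    [IsGalois F M] (w : HeightOneSpectrum (𝓞 F)) (V : ValuationSubring M)
    (hV : ∀ x : F, algebraMap F M x ∈ V ↔ w.valuation F x ≤ 1)
    (hval : ∀ α : M, α ≠ 0 → ∃ c : F, c ≠ 0 ∧ α / algebraMap F M c ∈ V ∧
      (α / algebraMap F M c)⁻¹ ∈ V)
    (P : Ideal (𝓞 M)) (hP : P.IsPrime)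
    (hPw : ∀ x : 𝓞 F, algebraMap (𝓞 F) (𝓞 M) x ∈ P ↔ x ∈ w.asIdeal)
    (g : M ≃ₐ[F] M) (hg : ∀ x : 𝓞 M, ∃ y ∈ P, g (x : M) = x + y) : g = 1 := by
  have hfin : Finite (𝓞 F ⧸ w.asIdeal) := Ring.HasFiniteQuotients.finiteQuotient w.ne_bot
  have hprime : (Uc_q V).IsPrime := by
    unfold Uc_q
    infer_instance
  have hne : Uc_q V ≠ ⊥ := by
    intro h
    obtain ⟨x, hx, hx0⟩ := Submodule.exists_mem_ne_zero_of_ne_bot w.ne_bot
    have h1 := (Uc_under w V hV x).2 hx
    rw [h, Ideal.mem_bot] at h1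
    exact hx0 ((map_eq_zero_iff _ (FaithfulSMul.algebraMap_injective (𝓞 F) (𝓞 M))).1 h1)
  let q : HeightOneSpectrum (𝓞 M) := ⟨Uc_q V, hprime, hne⟩
  have hq : q.asIdeal = Uc_q V := rfl
  have l1 : q.asIdeal.LiesOver w.asIdeal := ⟨Ideal.ext fun x => (Uc_under w V hV x).symm⟩
  have l2 : P.LiesOver w.asIdeal := ⟨Ideal.ext fun x => (hPw x).symm⟩
  obtain ⟨α, hα⟩ := q.valuation_exists_uniformizer M
  have hα0 : α ≠ 0 := by
    rintro rfl
    rw [map_zero] at hα
    exact WithZero.exp_ne_zero hα.symm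
  obtain ⟨c, hc, hc1, hc2⟩ := hval α hα0
  have hc0 : algebraMap F M c ≠ 0 := (map_ne_zero _).2 hc
  have h1 := Uc_unit V q hq _ (div_ne_zero hα0 hc0) hc1 hc2
  have h2 : q.valuation M α = q.valuation M (algebraMap F M c) := by
    rw [map_div₀] at h1
    rwa [div_eq_one_iff_eq ((Valuation.ne_zero_iff _).2 hc0)] at h1
  have h3 := valuation_pow_card_inertia M w q (M ≃ₐ[F] M) hfin c
  rw [← h2, hα] at h3
  have h4 := congrArg WithZero.log h3
  rw [WithZero.log_pow, WithZero.log_exp, nsmul_eq_mul] at h4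
  have h5 : ((Nat.card (q.asIdeal.inertia (M ≃ₐ[F] M)) : ℕ) : ℤ) ∣ 1 :=
    ⟨-WithZero.log (w.valuation F c), by rw [mul_neg, h4]; norm_num⟩
  have h6 : Nat.card (q.asIdeal.inertia (M ≃ₐ[F] M)) = 1 := by
    have := Int.natCast_dvd_natCast.1 (by simpa using h5 : ((Nat.card (q.asIdeal.inertia (M ≃ₐ[F] M)) : ℕ) : ℤ) ∣ ((1 : ℕ) : ℤ))
    exact Nat.dvd_one.1 this
  have : q.asIdeal.IsPrime := q.isPrime
  have h7 : Nat.card (P.inertia (M ≃ₐ[F] M)) = 1 :=
    (Uc_card w P q.asIdeal (M ≃ₐ[F] M) hfin).trans h6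
  have h8 : g ∈ P.inertia (M ≃ₐ[F] M) := by
    intro x
    obtain ⟨y, hy, hxy⟩ := hg x
    have h9 : g • x = x + y := by
      apply RingOfIntegers.coe_injective
      rw [map_add, ← hxy]
      rfl
    rw [h9, add_sub_cancel_left]
    exact hy
  have h9 : P.inertia (M ≃ₐ[F] M) = ⊥ := Subgroup.card_eq_one.1 h7
  rw [h9] at h8
  exact Subgroup.mem_bot.1 h8

end H78D
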