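import Pool.Agent.H78.TD.Ua
import Pool.Agent.H11.Good

/-!
Row Ub (about 180 lines): the etale condition for the multiples of a rational point. Use only the STATEMENTS of Ua.

PROOF of loc_et: copy of the proof of loc_apply in Pool/Agent/H11/Good.lean (K there is F here, v = w), using loc_main_et in place of loc_main (no n, no hn'); hE: the first hypothesis of loc_main_et on V is turned into w x ≤ 1 as at the end of the source (valued_alg).
PROOF of loc_et_T. T = some x0 y0 h0 (EtT). M given. Every f σ = k • pm T is the image of S := k • (image of T in M): map M.val (map (Algebra.ofId F M) ..), use WeierstrassCurve.Affine.Point.map_map and map_eq_pm (H10/Pm) to compare pm (algebraMap F Ω) rfl T with the map of T.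
 hE with Z σ := f σ = 0: let V, σ, S with map S = f σ and InE1 V S. Put TM := image of T in W.baseChange M = some x0 y0. f σ = k • T', so S = k • TM by injectivity (Affine.Point.map_injective). If l ∣ k then f σ = 0 as l • T = 0. Otherwise there is m with m k ≡ 1 mod l, so m • S = TM (l • TM = 0) and InE1 V TM by InE1.smul (H11/Local; hypothesis Integral V (W.baseChange M): the coefficients are algebraMap of elements with w ≤ 1, so in V). But TM = some x0 y0 with x0 ∈ V (w x0 ≤ 1): InE1 V TM says TM = 0 (impossible) or x0 ∉ V. Contradiction.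
-/

set_option autoImplicit false

open scoped Classical

open IsDedekindDomain NumberField WeierstrassCurve WeierstrassCurve.Affine Pool.Agent.H10 Pool.Agent.H11

namespace H78D

variable {F : Type} [Field F] [NumberField F]

theorem loc_et (W : WeierstrassCurve F) [W.IsElliptic] (w : HeightOneSpectrum (𝓞 F))
    (hg : w.valuation F W.a₁ ≤ 1 ∧ w.valuation F W.a₂ ≤ 1 ∧ w.valuation F W.a₃ ≤ 1 ∧
      w.valuation F W.a₄ ≤ 1 ∧ w.valuation F W.a₆ ≤ 1 ∧ w.valuation F W.Δ = 1)
    (ι : AlgebraicClosure F →ₐ[F] AlgebraicClosure (w.adicCompletion F))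
    (M : IntermediateField F (AlgebraicClosure F)) [FiniteDimensional F M]
    (f : Gam F → Pts W) (Z : Gam F → Prop)
    (hf : ∀ σ, ∃ S : (W.baseChange M).toAffine.Point,
      WeierstrassCurve.Affine.Point.map M.val S = f σ)
    (hloc : LocTriv W f w ι)
    (hE : ∀ V : ValuationSubring M, (∀ x : F, algebraMap F M x ∈ V ↔ w.valuation F x ≤ 1) →
      ∀ (σ : Gam F) (S : (W.baseChange M).toAffine.Point),
        WeierstrassCurve.Affine.Point.map M.val S = f σ → InE1 V (W.baseChange M) S → Z σ) :
    ∃ V : ValuationSubring M, (∀ x : F, algebraMap F M x ∈ V ↔ w.valuation F x ≤ 1) ∧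
      ∀ α : M, α ≠ 0 → (∀ σ : Gam F, Z σ → σ (α : AlgebraicClosure F) = α) →
        ∃ c : F, c ≠ 0 ∧ α / algebraMap F M c ∈ V ∧ (α / algebraMap F M c)⁻¹ ∈ V := by
  obtain ⟨P, hP⟩ := hloc
  obtain ⟨h1, h2, h3, h4, h6, hΔ⟩ := hg
  have hch : CharZero (w.adicCompletion F) :=
    charZero_of_injective_algebraMap (algebraMap F (w.adicCompletion F)).injective
  have mem : ∀ x : F, w.valuation F x ≤ 1 →
      algebraMap F (w.adicCompletion F) x ∈ w.adicCompletionIntegers F := by
    intro x hx
    rw [HeightOneSpectrum.mem_adicCompletionIntegers, valued_alg]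
    exact hx
  let WA : WeierstrassCurve (w.adicCompletionIntegers F) :=
    ⟨⟨_, mem _ h1⟩, ⟨_, mem _ h2⟩, ⟨_, mem _ h3⟩, ⟨_, mem _ h4⟩, ⟨_, mem _ h6⟩⟩
  have hWA : WA.map (algebraMap (w.adicCompletionIntegers F) (w.adicCompletion F)) =
      W.map (algebraMap F (w.adicCompletion F)) := rfl
  have hΔ' : IsUnit WA.Δ := by
    rw [HeightOneSpectrum.adicCompletionIntegers.isUnit_iff_valued_eq_one]
    have : ((WA.Δ : w.adicCompletionIntegers F) : w.adicCompletion F) =
        algebraMap F (w.adicCompletion F) W.Δ := by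
      rw [← WeierstrassCurve.map_Δ, ← hWA, WeierstrassCurve.map_Δ]
      rfl
    rw [this, valued_alg]
    exact hΔ
  have hKF : ∀ x : w.adicCompletion F, x ≠ 0 → ∃ k : F, k ≠ 0 ∧
      ∃ u : w.adicCompletionIntegers F, IsUnit u ∧
        x = algebraMap F (w.adicCompletion F) k *
          algebraMap (w.adicCompletionIntegers F) (w.adicCompletion F) u := by
    intro x hx
    obtain ⟨k, hk⟩ := w.valuation_surjective F (Valued.v x)
    have hvx : Valued.v x ≠ 0 := (Valuation.ne_zero_iff _).mpr hx
    have hk0 : k ≠ 0 := by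
      rintro rfl
      rw [map_zero] at hk
      exact hvx hk.symm
    have hk0' : algebraMap F (w.adicCompletion F) k ≠ 0 := (map_ne_zero _).mpr hk0
    have hu : Valued.v (x / algebraMap F (w.adicCompletion F) k) = 1 := by
      rw [map_div₀, valued_alg, hk, div_self hvx]
    refine ⟨k, hk0, ⟨x / algebraMap F (w.adicCompletion F) k, hu.le⟩, ?_, ?_⟩
    · rw [HeightOneSpectrum.adicCompletionIntegers.isUnit_iff_valued_eq_one]
      exact hu
    · show x = algebraMap F (w.adicCompletion F) k * (x / algebraMap F (w.adicCompletion F) k)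
      field_simp
  have hconv : ∀ V : ValuationSubring M, (∀ x : F, algebraMap F M x ∈ V ↔
        ∃ a : w.adicCompletionIntegers F,
          algebraMap (w.adicCompletionIntegers F) (w.adicCompletion F) a =
            algebraMap F (w.adicCompletion F) x) →
      ∀ x : F, algebraMap F M x ∈ V ↔ w.valuation F x ≤ 1 := by
    intro V hV x
    rw [hV]
    constructor
    · rintro ⟨a, ha⟩
      rw [← valued_alg, ← ha]
      exact a.2
    · intro hx
      exact ⟨⟨_, mem x hx⟩, rfl⟩
  obtain ⟨V, hV1, hV2⟩ := loc_main_et F (w.adicCompletion F) (w.adicCompletionIntegers F) hKF W WA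
    hWA hΔ' ι M f Z hf P hP (fun V hV σ S hS hI ↦ hE V (hconv V hV) σ S hS hI)
  exact ⟨V, hconv V hV1, hV2⟩

theorem loc_et_T (W : WeierstrassCurve F) [W.IsElliptic] {l : ℕ} (hl : l.Prime)
    {T : W.toAffine.Point} (hT : l • T = 0) (hE : EtT l W T) (w : HeightOneSpectrum (𝓞 F))
    (hw : (l : 𝓞 F) ∈ w.asIdeal) (M : IntermediateField F (AlgebraicClosure F))
    [FiniteDimensional F M]
    {f : Gam F → Pts W}
    (hf : ∀ σ, ∃ k : ℕ, f σ = k • pm (algebraMap F (AlgebraicClosure F)) rfl T)
    (hloc : IsLocTriv F W f) :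
    ∃ V : ValuationSubring M, (∀ x : F, algebraMap F M x ∈ V ↔ w.valuation F x ≤ 1) ∧
      ∀ α : M, α ≠ 0 → (∀ σ : Gam F, f σ = 0 → σ (α : AlgebraicClosure F) = α) →
        ∃ c : F, c ≠ 0 ∧ α / algebraMap F M c ∈ V ∧ (α / algebraMap F M c)⁻¹ ∈ V := by
  obtain ⟨x₀, y₀, h₀, hTe, hG⟩ := hE
  obtain ⟨hg, hx₀⟩ := hG w hw
  let ι : AlgebraicClosure F →ₐ[F] AlgebraicClosure (w.adicCompletion F) := IsAlgClosed.lift
  let TM : (W.baseChange M).toAffine.Point := pm (algebraMap F M) rfl T
  let TT : (W.baseChange (AlgebraicClosure F)).toAffine.Point :=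
    pm (algebraMap F (AlgebraicClosure F)) rfl T
  have hTM : (WeierstrassCurve.Affine.Point.map M.val :
      (W.baseChange M).toAffine.Point →+ (W.baseChange (AlgebraicClosure F)).toAffine.Point) TM =
      TT := by
    subst hTe
    rfl
  have hlTT : l • TT = 0 := by
    show l • pm (algebraMap F (AlgebraicClosure F)) rfl T = 0
    rw [← map_nsmul, hT, map_zero]
  have hf' : ∀ σ, ∃ k : ℕ, f σ = k • TT := hf
  have hinj := WeierstrassCurve.Affine.Point.map_injective (W' := W) (f := M.val)
  have hlTM : l • TM = 0 := by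
    show l • pm (algebraMap F M) rfl T = 0
    rw [← map_nsmul, hT, map_zero]
  refine loc_et W w hg ι M f (fun σ ↦ f σ = 0) (fun σ ↦ ?_) (hloc.1 w ι) ?_
  · obtain ⟨k, hk⟩ := hf' σ
    exact ⟨k • TM, by rw [map_nsmul, hTM, hk]⟩
  · intro V hV σ S hS hI
    obtain ⟨k, hk⟩ := hf' σ
    have hSk : S = k • TM := by
      apply hinj
      rw [map_nsmul, hTM, ← hk]
      exact hS
    by_cases hlk : l ∣ k
    · obtain ⟨c, rfl⟩ := hlk
      show f σ = 0
      rw [hk, mul_nsmul, hlTT, nsmul_zero]
    · exfalso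
      have hcop : Nat.Coprime k l := ((Nat.Prime.coprime_iff_not_dvd hl).mpr hlk).symm
      obtain ⟨m, -, hm⟩ := Nat.exists_mul_mod_eq_one_of_coprime hcop hl.one_lt
      have hmS : m • S = TM := by
        have e1 : k * m = l * (k * m / l) + 1 := by
          have := Nat.div_add_mod (k * m) l
          omega
        rw [hSk, ← mul_nsmul, e1, add_nsmul, mul_nsmul, hlTM, nsmul_zero, zero_add, one_nsmul]
      have hWI : Integral V (W.baseChange M) :=
        ⟨(hV _).2 hg.1, (hV _).2 hg.2.1, (hV _).2 hg.2.2.1, (hV _).2 hg.2.2.2.1,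
          (hV _).2 hg.2.2.2.2.1⟩
      have hI2 : InE1 V (W.baseChange M) TM := by
        rw [← hmS]
        exact (InE1.smul hWI hI m).1
      have hTMe : TM = WeierstrassCurve.Affine.Point.some (algebraMap F M x₀) (algebraMap F M y₀)
          ((WeierstrassCurve.Affine.map_nonsingular W (algebraMap F M).injective x₀ y₀).mpr h₀) := by
        subst hTe
        rfl
      rw [hTMe] at hI2
      rcases hI2 with h | ⟨x, y, hxy, he, hx⟩
      · exact WeierstrassCurve.Affine.Point.some_ne_zero _ h
      · have he' := (WeierstrassCurve.Affine.Point.some.injEq (W' := (W.baseChange M).toAffine)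
          _ _ _ _ _ _).mp he
        exact hx (by rw [← he'.1]; exact (hV _).2 hx₀)

end H78D
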