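import Pool.Agent.H78.TD.Uc

/-!
Row Ud: from a place with the same value group to UnrK. Use only the STATEMENTS of Uc.
-/

set_option autoImplicit false

open scoped Classical

open IsDedekindDomain NumberField Pool.Agent.H11

namespace H78D

/-- all `l`-th roots of `d` in a field are `z ^ i * s` -/
lemma ud_root {F N : Type} [Field F] [Field N] [Algebra F N] {l : ℕ} (hl : 0 < l) {z : F}
    (hz : IsPrimitiveRoot z l) {d : F} (hd : d ≠ 0) {s : N} (hs : s ^ l = algebraMap F N d)
    {t : N} (ht : t ^ l = algebraMap F N d) : ∃ i : ℕ, t = algebraMap F N z ^ i * s := by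
  have hs0 : s ≠ 0 := by
    rintro rfl
    rw [zero_pow hl.ne'] at hs
    exact hd ((map_eq_zero _).1 hs.symm)
  have hzN : IsPrimitiveRoot (algebraMap F N z) l :=
    hz.map_of_injective (algebraMap F N).injective
  have : NeZero l := ⟨hl.ne'⟩
  obtain ⟨i, -, hi⟩ := hzN.eq_pow_of_pow_eq_one (ξ := t / s) (by
    rw [div_pow, ht, hs, div_self]
    exact (map_ne_zero _).2 hd)
  exact ⟨i, by rw [hi, div_mul_cancel₀ _ hs0]⟩

theorem unr_of_place {F : Type} [Field F] [NumberField F] {l : ℕ} (hl : l.Prime)
    (hroot : ∃ z : F, IsPrimitiveRoot z l) {d : F} (hd : d ≠ 0) (w : HeightOneSpectrum (𝓞 F))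
    {M : Type} [Field M] [Algebra F M] {r : M} (hr : r ^ l = algebraMap F M d)
    (V : ValuationSubring M) (hV : ∀ x : F, algebraMap F M x ∈ V ↔ w.valuation F x ≤ 1)
    (hval : ∀ α : M, α ≠ 0 → ∃ c : F, c ≠ 0 ∧ α / algebraMap F M c ∈ V ∧
      (α / algebraMap F M c)⁻¹ ∈ V) : UnrK l F d w := by
  obtain ⟨z, hz⟩ := hroot
  intro N _ _ _ _ s hs P hP hP0 hPw u hFx hIn
  have hl0 : 0 < l := hl.pos
  have : IsGalois F N := IsGalois.tower_top_of_isGalois ℚ F N
  have hsplit : ∀ (E : Type) [Field E] [Algebra F E] (e : E), e ^ l = algebraMap F E d →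
      (((Polynomial.X ^ l - Polynomial.C d : Polynomial F).map (algebraMap F E))).Splits := by
    intro E _ _ e he
    have hzE : IsPrimitiveRoot (algebraMap F E z) l :=
      hz.map_of_injective (algebraMap F E).injective
    have := X_pow_sub_C_splits_of_isPrimitiveRoot hzE he
    simpa using this
  have hmonic : (Polynomial.X ^ l - Polynomial.C d : Polynomial F).Monic :=
    Polynomial.monic_X_pow_sub_C d hl0.ne'
  have haev : Polynomial.aeval s (Polynomial.X ^ l - Polynomial.C d : Polynomial F) = 0 := by
    simp [hs]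
  have hdvd : minpoly F s ∣ (Polynomial.X ^ l - Polynomial.C d : Polynomial F) :=
    minpoly.dvd F s haev
  have hint : IsIntegral F s := ⟨_, hmonic, by simpa [Polynomial.aeval_def] using haev⟩
  let M' : IntermediateField F N := IntermediateField.adjoin F {s}
  have hsM : s ∈ M' := IntermediateField.mem_adjoin_simple_self F s
  have hnor : Normal F M' := by
    rw [IntermediateField.normal_iff_forall_map_le]
    intro σ
    rw [show M' = IntermediateField.adjoin F {s} from rfl, IntermediateField.adjoin_map,
      Set.image_singleton, IntermediateField.adjoin_simple_le_iff]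
    have h1 : (σ s) ^ l = algebraMap F N d := by
      rw [← map_pow, hs, AlgHom.commutes]
    obtain ⟨i, hi⟩ := ud_root hl0 hz hd hs h1
    rw [hi]
    exact mul_mem (pow_mem (IntermediateField.algebraMap_mem _ z) i) hsM
  have : IsGalois F M' := {}
  obtain ⟨φ⟩ : Nonempty (M' →ₐ[F] M) := by
    apply IntermediateField.nonempty_algHom_adjoin_of_splits
    intro y hy
    rw [Set.mem_singleton_iff] at hy
    subst hy
    refine ⟨hint, ?_⟩
    refine Polynomial.Splits.of_dvd (hsplit M r hr) ?_ ?_
    · exact (hmonic.map _).ne_zero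
    · exact Polynomial.map_dvd _ hdvd
  let uF : N ≃ₐ[F] N := AlgEquiv.ofRingEquiv (f := u) hFx
  let g : M' ≃ₐ[F] M' := uF.restrictNormal M'
  have hgv : ∀ x : M', ((g x : M') : N) = u (x : N) := fun x =>
    AlgEquiv.restrictNormal_commutes uF M' x
  let P' : Ideal (𝓞 M') := P.comap (algebraMap (𝓞 M') (𝓞 N))
  have hP' : P'.IsPrime := Ideal.IsPrime.comap _
  have key : g = 1 := by
    refine inertia_triv w (V.comap (φ : M' →+* M)) ?_ ?_ P' hP' ?_ g ?_
    · intro x
      rw [ValuationSubring.mem_comap, ← hV]
      have : (φ : M' →+* M) (algebraMap F M' x) = algebraMap F M x := φ.commutes x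
      rw [this]
    · intro α hα
      obtain ⟨c, hc0, hc1, hc2⟩ := hval (φ α) ((map_ne_zero φ).2 hα)
      have h1 : (φ : M' →+* M) (α / algebraMap F M' c) = φ α / algebraMap F M c := by
        change φ (α / algebraMap F M' c) = _
        rw [map_div₀, φ.commutes]
      refine ⟨c, hc0, ?_, ?_⟩
      · rw [ValuationSubring.mem_comap, h1]
        exact hc1
      · rw [ValuationSubring.mem_comap, map_inv₀, h1]
        exact hc2
    · intro x
      rw [Ideal.mem_comap, ← hPw]
      rfl
    · intro x
      obtain ⟨y, hy, hy2⟩ := hIn (algebraMap (𝓞 M') (𝓞 N) x)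
      have h2 : IsIntegral ℤ (g (x : M') - (x : M')) := by
        apply IsIntegral.sub
        · exact (RingOfIntegers.isIntegral_coe x).map (g : M' →ₐ[F] M').toRingHom.toIntAlgHom
        · exact RingOfIntegers.isIntegral_coe x
      refine ⟨⟨g (x : M') - (x : M'), h2⟩, ?_, ?_⟩
      · rw [Ideal.mem_comap]
        convert hy using 1
        apply RingOfIntegers.ext
        change ((g (x : M') - (x : M') : M') : N) = (y : N)
        have h3 : u ((x : M') : N) = ((x : M') : N) + (y : N) := hy2
        push_cast
        rw [hgv, h3]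
        ring
      · change g (x : M') = (x : M') + (g (x : M') - (x : M'))
        ring
  have h4 := hgv ⟨s, hsM⟩
  rw [key] at h4
  exact h4.symm

end H78D
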