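import Pool.Agent.H78.TD.Df

/-!
Row Ue (about 110 lines): Kummer extensions are unramified outside l if the valuations are divisible by l.

PROOF of unr_of_dvd. Unfold UnrK: N, s : N with s^l = d, P, hPw, u fixing F, InI P u; claim u s = s.
 c : F, c ≠ 0 with w(d) = w(c)^l: d ≠ 0, log (w d) = l k, take c with w c = exp k (HeightOneSpectrum.valuation_surjective or powers of a uniformizer). t := d / c^l has w t = 1. HeightOneSpectrum.exists_primeCompl_mul_eq_of_integer: t = a / b with a b : 𝓞 F, b ∉ w, and a ∉ w as w(a) = w(b) = 1.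
 γ0 := b s / c ∈ N: γ0^l = b^l d / c^l = b^l t = b^(l-1) a ∈ 𝓞 F. So γ0 is integral (IsIntegral.of_pow, l > 0): γ : 𝓞 N, γ^l = algebraMap (b^(l-1) a), not in P since b^(l-1) a ∉ w (w prime; hPw), so γ ∉ P.
 u γ0 = b u(s) / c as u fixes F. u(s)^l = u(d) = d, so u s = ξ s with ξ := u s / s, ξ^l = 1 (s ≠ 0), ξ integral, u γ0 = ξ γ0. InI: u γ = γ + y, y ∈ P, so (ξ - 1) γ ∈ P, P prime, γ ∉ P: ξ - 1 ∈ P.
 If ξ ≠ 1: ∑_{i<l} ξ^i = 0 (mul_geom_sum / geom_sum_mul: (ξ - 1) ∑ = ξ^l - 1 = 0), and ξ^i - 1 ∈ P (divisible by ξ - 1: sub_one_dvd / Ideal.Quotient: in 𝓞 N / P the class of ξ is 1), so l = l - ∑ ξ^i ∈ P, so l ∈ w by hPw (algebraMap (l : 𝓞 F) = l): contradiction. So ξ = 1 and u s = s.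
-/

set_option autoImplicit false

open scoped Classical

open IsDedekindDomain NumberField WithZero

namespace H78D

theorem unr_of_dvd {F : Type} [Field F] [NumberField F] {l : ℕ} (hl : l.Prime) {d : F} (hd : d ≠ 0)
    (w : HeightOneSpectrum (𝓞 F)) (hw : (l : 𝓞 F) ∉ w.asIdeal)
    (hdvd : (l : ℤ) ∣ log (w.valuation F d)) : UnrK l F d w := by
  have hl0 : 0 < l := hl.pos
  intro N _ _ _ _ s hs P hPp hPb hPw u hu hI
  obtain ⟨k, hk⟩ := hdvd
  have hwd : w.valuation F d ≠ 0 := (Valuation.ne_zero_iff _).2 hd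
  obtain ⟨c, hc⟩ := w.valuation_surjective F (exp k)
  have hc0 : c ≠ 0 := by
    rintro rfl
    rw [map_zero] at hc
    exact exp_ne_zero hc.symm
  have hwd2 : w.valuation F d = exp k ^ l := by
    rw [← exp_log hwd, hk, ← exp_nsmul, nsmul_eq_mul]
  have ht : w.valuation F (d / c ^ l) = 1 := by
    rw [map_div₀, map_pow, hc, hwd2, div_self (pow_ne_zero _ exp_ne_zero)]
  obtain ⟨a, ⟨b, hb⟩, hab⟩ := w.exists_primeCompl_mul_eq_of_integer (d / c ^ l) ht.le
  have hb' : b ∉ w.asIdeal := hb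
  have hwb : w.valuation F (algebraMap (𝓞 F) F b) = 1 := (HeightOneSpectrum.valuation_eq_one_iff_notMem w).2 hb'
  have hwa : w.valuation F (algebraMap (𝓞 F) F a) = 1 := by
    rw [← hab, map_mul, ht, one_mul]
    exact hwb
  have ha' : a ∉ w.asIdeal := (HeightOneSpectrum.valuation_eq_one_iff_notMem w).1 hwa
  have hs0 : s ≠ 0 := by
    rintro rfl
    rw [zero_pow hl0.ne'] at hs
    exact hd ((map_eq_zero (algebraMap F N)).1 hs.symm)
  -- the element `γ0`
  have hγl : (algebraMap F N (algebraMap (𝓞 F) F b) * s / algebraMap F N c) ^ l =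
      algebraMap F N (algebraMap (𝓞 F) F (b ^ (l - 1) * a)) := by
    rw [div_pow, mul_pow, hs, ← map_pow (algebraMap F N), ← map_pow (algebraMap F N),
      ← map_mul (algebraMap F N), ← map_div₀ (algebraMap F N)]
    congr 1
    rw [map_mul, map_pow, ← hab]
    simp only
    have e : (algebraMap (𝓞 F) F b) ^ l = (algebraMap (𝓞 F) F b) ^ (l - 1) * algebraMap (𝓞 F) F b :=
      (pow_sub_one_mul hl0.ne' _).symm
    rw [e]
    ring
  have hγi : IsIntegral ℤ (algebraMap F N (algebraMap (𝓞 F) F b) * s / algebraMap F N c) := by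
    refine IsIntegral.of_pow hl0 ?_
    rw [hγl]
    exact map_isIntegral_int (algebraMap F N) (RingOfIntegers.isIntegral_coe _)
  obtain ⟨γ, hγ⟩ : ∃ γ : 𝓞 N, (γ : N) = algebraMap F N (algebraMap (𝓞 F) F b) * s / algebraMap F N c :=
    ⟨⟨_, hγi⟩, rfl⟩
  have hcoe : ∀ x : 𝓞 F, ((algebraMap (𝓞 F) (𝓞 N) x : 𝓞 N) : N) = algebraMap F N (algebraMap (𝓞 F) F x) := by
    intro x
    rw [← IsScalarTower.algebraMap_apply (𝓞 F) F N]
    exact (IsScalarTower.algebraMap_apply (𝓞 F) (𝓞 N) N x).symm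
  have hγl' : γ ^ l = algebraMap (𝓞 F) (𝓞 N) (b ^ (l - 1) * a) := by
    apply RingOfIntegers.coe_injective
    show ((γ ^ l : 𝓞 N) : N) = ((algebraMap (𝓞 F) (𝓞 N) (b ^ (l - 1) * a) : 𝓞 N) : N)
    rw [hcoe, ← hγl, ← hγ]
    exact map_pow (algebraMap (𝓞 N) N) γ l
  have hγP : γ ∉ P := by
    intro h
    have h1 : γ ^ l ∈ P := P.pow_mem_of_mem h l hl0
    rw [hγl', hPw] at h1
    rcases w.isPrime.mem_or_mem h1 with h2 | h2
    · exact hb' (w.isPrime.mem_of_pow_mem _ h2)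
    · exact ha' h2
  -- the root of unity
  have hul : u s ^ l = s ^ l := by
    rw [← map_pow, hs, hu]
  have hξl : (u s / s) ^ l = 1 := by
    rw [div_pow, hul, div_self (pow_ne_zero _ hs0)]
  have hξi : IsIntegral ℤ (u s / s) := by
    refine IsIntegral.of_pow hl0 ?_
    rw [hξl]
    exact isIntegral_one
  obtain ⟨ξ, hξ⟩ : ∃ ξ : 𝓞 N, (ξ : N) = u s / s := ⟨⟨_, hξi⟩, rfl⟩
  have hξl' : ξ ^ l = 1 := by
    apply RingOfIntegers.coe_injective
    have h1 : ((ξ ^ l : 𝓞 N) : N) = (ξ : N) ^ l := map_pow (algebraMap (𝓞 N) N) ξ l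
    show ((ξ ^ l : 𝓞 N) : N) = ((1 : 𝓞 N) : N)
    rw [h1, hξ, hξl]
    exact (map_one (algebraMap (𝓞 N) N)).symm
  obtain ⟨y, hy, hyu⟩ := hI γ
  have huγ : u (γ : N) = (ξ : N) * (γ : N) := by
    rw [hγ, hξ, map_div₀, map_mul, hu, hu]
    field_simp
  have hmul : (ξ - 1) * γ = y := by
    apply RingOfIntegers.coe_injective
    have h1 : (((ξ - 1) * γ : 𝓞 N) : N) = ((ξ : N) - 1) * (γ : N) := by
      have := map_mul (algebraMap (𝓞 N) N) (ξ - 1) γ
      rw [map_sub, map_one] at this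
      exact this
    show (((ξ - 1) * γ : 𝓞 N) : N) = (y : N)
    rw [h1, sub_mul, one_mul, ← huγ, hyu]
    ring
  have hξP : ξ - 1 ∈ P := by
    rw [← hmul] at hy
    exact (hPp.mem_or_mem hy).resolve_right hγP
  have hξ1 : ξ = 1 := by
    by_contra hne
    have hne' : ξ - 1 ≠ 0 := sub_ne_zero.2 hne
    have hsum : ∑ i ∈ Finset.range l, ξ ^ i = 0 := by
      have h1 := geom_sum_mul ξ l
      rw [hξl', sub_self] at h1
      exact (mul_eq_zero.1 h1).resolve_right hne'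
    have h2 : ∑ i ∈ Finset.range l, (ξ ^ i - 1) ∈ P := by
      refine P.sum_mem fun i _ => ?_
      have h3 := sub_dvd_pow_sub_pow ξ 1 i
      rw [one_pow] at h3
      exact P.mem_of_dvd h3 hξP
    rw [Finset.sum_sub_distrib, hsum, zero_sub, Finset.sum_const, Finset.card_range, nsmul_eq_mul,
      mul_one, P.neg_mem_iff] at h2
    apply hw
    rw [← hPw, map_natCast]
    exact h2
  have h4 : u s / s = 1 := by
    rw [← hξ, hξ1]
    exact map_one (algebraMap (𝓞 N) N)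
  exact (div_eq_one_iff_eq hs0).1 h4

end H78D
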