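import Pool.Agent.H78.TD.Ub
import Pool.Agent.H78.TD.Ud

set_option autoImplicit false

/-!
Row Uf (about 60 lines): the extension cut out by the cocycle with values in the multiples of T is unramified above l. Use only the STATEMENTS of Ub, Ud.

PROOF. M := F⟮r⟯ (IntermediateField F Ω, finite dimensional: adjoin.finiteDimensional, r is integral over F). loc_et_T gives V. For α : M and σ with f σ = 0: σ r = r (hfix), so σ fixes all elements of F⟮r⟯: IntermediateField.adjoin_induction, or F⟮r⟯ ≤ fixedField of the closure of σ (adjoin_le_iff), or AlgHom ext on adjoin (IntermediateField.algHom_ext_of_eq_adjoin). So hval for all α ≠ 0.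
 unr_of_place with M := ↥F⟮r⟯ and the element ⟨r, mem_adjoin_simple_self⟩ : its l-th power is algebraMap d.
-/

open scoped Classical

open IsDedekindDomain NumberField WeierstrassCurve Pool.Agent.H10 Pool.Agent.H11

namespace H78D

theorem unr_at_l {F : Type} [Field F] [NumberField F] (W : WeierstrassCurve F) [W.IsElliptic]
    {l : ℕ} (hl : l.Prime) (hroot : ∃ z : F, IsPrimitiveRoot z l)
    {T : W.toAffine.Point} (hT : l • T = 0) (hE : EtT l W T) (w : HeightOneSpectrum (𝓞 F))
    (hw : (l : 𝓞 F) ∈ w.asIdeal) {f : Gam F → Pts W}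
    (hf : ∀ σ, ∃ k : ℕ, f σ = k • pm (algebraMap F (AlgebraicClosure F)) rfl T)
    (hloc : IsLocTriv F W f) {r : AlgebraicClosure F} {d : F} (hd : d ≠ 0)
    (hrd : r ^ l = algebraMap F (AlgebraicClosure F) d) (hfix : ∀ σ : Gam F, f σ = 0 → σ r = r) :
    UnrK l F d w := by
  have hint : IsIntegral F r := Algebra.IsIntegral.isIntegral r
  have hfin : FiniteDimensional F (IntermediateField.adjoin F {r}) :=
    IntermediateField.adjoin.finiteDimensional hint
  obtain ⟨V, hV, hV2⟩ := loc_et_T W hl hT hE w hw (IntermediateField.adjoin F {r}) hf hloc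
  refine unr_of_place hl hroot hd w (M := IntermediateField.adjoin F {r})
    (r := ⟨r, IntermediateField.mem_adjoin_simple_self F r⟩) (Subtype.ext hrd) V hV
    fun α hα => hV2 α hα fun σ hσ => ?_
  have h1 : IntermediateField.adjoin F {r} ≤ IntermediateField.fixedField (Subgroup.zpowers σ) := by
    rw [IntermediateField.adjoin_simple_le_iff]
    rw [IntermediateField.mem_fixedField_iff]
    intro τ hτ
    obtain ⟨n, rfl⟩ := Subgroup.mem_zpowers_iff.1 hτ
    have h2 : σ ∈ MulAction.stabilizer (Gam F) r := hfix σ hσ
    exact Subgroup.zpow_mem _ h2 n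
  have h3 := h1 α.2
  rw [IntermediateField.mem_fixedField_iff] at h3
  exact h3 σ (Subgroup.mem_zpowers σ)

end H78D
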