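import Pool.Agent.H78.TD.Ug

/-!
Row Uh (about 120 lines): norms of the Kummer character and the conclusion. Use only the STATEMENTS of Ug.

PROOF of chr_norm. z := algebraMap F N (algebraMap Km F z0). For h : F ≃ₐ[Km] F let q h := (rr h)⁻¹ r. (q h)^l = (rr h)⁻¹ (algebraMap d) = algebraMap (h⁻¹ d) (Ext: rr h (algebraMap (h⁻¹ d)) = algebraMap d). q h ≠ 0. exists_k for q h: u (q h) = z^(k h) * q h.
 (rr h * u * (rr h)⁻¹) r = rr h (z^(k h) * q h) = z^(k h) * r: rr h z = z because h fixes the image of Km. So chr (rr h u (rr h)⁻¹) = k h (chr_eq).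
 Q := ∏ h, q h. Q^l = algebraMap (∏ h, h⁻¹ d) = algebraMap (norm d) (Algebra.norm_eq_prod_automorphisms, reindex by h ↦ h⁻¹: Equiv.inv) = (algebraMap y)^l. So Q = z^m * algebraMap y (y ≠ 0, root of unity: IsPrimitiveRoot.eq_pow_of_pow_eq_one), fixed by u. And u Q = z^(∑ k h) Q. So z^(∑ k h) = 1, l ∣ ∑ k h, so ∑ (k h : ZMod l) = 0.
PROOF of pow_of_noUnr. exists_N: N, r; r ≠ 0. H : NoUnr applied to N and a := chr l z r: unrC; chr_J for all t; chr_norm for all rr. So chr u = 0 for u fixing F: with exists_k u r = z^k r, chr = k = 0 in ZMod l, so l ∣ k and u r = r. N / F is Galois (IsGalois.tower_top_of_isScalarTower ℚ F N), so r fixed by all N ≃ₐ[F] N (each gives a ring automorphism fixing F) lies in F: IsGalois.mem_bot_iff_fixed or InfiniteGalois.mem_bot_iff_fixed, IntermediateField.mem_bot: r = algebraMap y, d = y^l by injectivity.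
-/

set_option autoImplicit false

open scoped Classical

open IsDedekindDomain NumberField

namespace H78D

variable {Km F : Type} [Field Km] [NumberField Km] [Field F] [NumberField F] [Algebra Km F]
  [IsGalois Km F]

theorem chr_norm {N : Type} [Field N] [NumberField N] [Algebra F N] {l : ℕ} (hl : l ≠ 0) {z0 : Km}
    (hz : IsPrimitiveRoot z0 l) {r : N} (hr : r ≠ 0) {d : F} (hd : r ^ l = algebraMap F N d)
    (hN : ∃ y : F, algebraMap Km F (Algebra.norm Km d) = y ^ l)
    {rr : (F ≃ₐ[Km] F) → (N ≃+* N)} (hrr : ∀ h, H68TL.Ext (rr h) (h : F ≃+* F)) {u : N ≃+* N}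
    (hu : H68TL.Fx F u) :
    ∑ h, chr l (algebraMap F N (algebraMap Km F z0)) r (rr h * u * (rr h)⁻¹) = 0 := by
  set z : N := algebraMap F N (algebraMap Km F z0) with hzdef
  have hz' : IsPrimitiveRoot z l :=
    (hz.map_of_injective (algebraMap Km F).injective).map_of_injective (algebraMap F N).injective
  have hzF : u z = z := hu _
  have hlpos : 0 < l := Nat.pos_of_ne_zero hl
  have : NeZero l := ⟨hl⟩
  have hqr : ∀ h, rr h ((rr h).symm r) = r := fun h => (rr h).apply_symm_apply r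
  have hq0 : ∀ h, (rr h).symm r ≠ 0 := fun h => by
    rw [Ne, map_eq_zero_iff _ (rr h).symm.injective]
    exact hr
  have hql : ∀ h : F ≃ₐ[Km] F, (rr h).symm r ^ l = algebraMap F N (h.symm d) := by
    intro h
    rw [← map_pow, hd, RingEquiv.symm_apply_eq, hrr h]
    congr 1
    exact (h.apply_symm_apply d).symm
  have hk : ∀ h : F ≃ₐ[Km] F, ∃ k : ℕ, u ((rr h).symm r) = z ^ k * (rr h).symm r := fun h =>
    exists_k hl hz' (hq0 h) (hql h) hu
  choose k hk using hk
  have hchr : ∀ h : F ≃ₐ[Km] F, chr l z r (rr h * u * (rr h)⁻¹) = k h := by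
    intro h
    apply chr_eq hz' hr
    show rr h (u ((rr h).symm r)) = z ^ k h * r
    rw [hk h, map_mul, map_pow, hqr h]
    congr 2
    show rr h (algebraMap F N (algebraMap Km F z0)) = z
    rw [hrr h]
    exact congrArg (algebraMap F N) (h.commutes z0)
  rw [Finset.sum_congr rfl fun h _ => hchr h, ← Nat.cast_sum, ZMod.natCast_eq_zero_iff]
  set Q : N := ∏ h : F ≃ₐ[Km] F, (rr h).symm r with hQ
  have hQ0 : Q ≠ 0 := Finset.prod_ne_zero_iff.2 fun h _ => hq0 h
  have hQu : u Q = z ^ (∑ h, k h) * Q := by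
    rw [hQ, map_prod, Finset.prod_congr rfl fun h _ => hk h, Finset.prod_mul_distrib,
      Finset.prod_pow_eq_pow_sum]
  obtain ⟨y, hy⟩ := hN
  have hQl : Q ^ l = algebraMap F N y ^ l := by
    rw [hQ, ← Finset.prod_pow, Finset.prod_congr rfl fun h _ => hql h, ← map_prod, ← map_pow, ← hy,
      Algebra.norm_eq_prod_automorphisms]
    congr 1
    exact Fintype.prod_equiv (Equiv.inv (F ≃ₐ[Km] F)) _ _ fun h => rfl
  have hy0 : algebraMap F N y ≠ 0 := by
    intro h0
    rw [h0, zero_pow hl] at hQl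
    exact hQ0 (pow_eq_zero_iff hl |>.1 hQl)
  obtain ⟨m, -, hm⟩ := hz'.eq_pow_of_pow_eq_one (ξ := Q / algebraMap F N y) (by
    rw [div_pow, hQl, div_self (pow_ne_zero l hy0)])
  have hQm : Q = z ^ m * algebraMap F N y := by
    rw [hm, div_mul_cancel₀ _ hy0]
  have hfix : u Q = Q := by
    rw [hQm, map_mul, map_pow, hzF, hu]
  rw [hfix] at hQu
  have h1 : z ^ (∑ h, k h) = 1 := by
    have : z ^ (∑ h, k h) * Q = 1 * Q := by rw [← hQu, one_mul]
    exact mul_right_cancel₀ hQ0 this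
  exact hz'.dvd_of_pow_eq_one _ h1

theorem pow_of_noUnr {l : ℕ} (hl : l.Prime) {J : F ≃+* F} (H : H68TL.NoUnr l Km F J)
    (hroot : ∃ z : Km, IsPrimitiveRoot z l) (hJz : ∀ z : F, z ^ l = 1 → J z = z⁻¹) {d : F}
    (hd : d ≠ 0) (hN : ∃ y : F, algebraMap Km F (Algebra.norm Km d) = y ^ l)
    (hJ : ∃ c : F, J d = c ^ l * d) (hunr : ∀ w : HeightOneSpectrum (𝓞 F), UnrK l F d w) :
    ∃ y : F, d = y ^ l := by
  obtain ⟨z0, hz⟩ := hroot
  obtain ⟨N, i1, i2, i3, i4, r, hr⟩ := exists_N hl.ne_zero d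
  have hr0 : r ≠ 0 := by
    rintro rfl
    rw [zero_pow hl.ne_zero] at hr
    exact hd ((map_eq_zero_iff _ (algebraMap F N).injective).1 hr.symm)
  have hzF : IsPrimitiveRoot (algebraMap Km F z0) l := hz.map_of_injective (algebraMap Km F).injective
  have hzN : IsPrimitiveRoot (algebraMap F N (algebraMap Km F z0)) l :=
    hzF.map_of_injective (algebraMap F N).injective
  have key := H N (chr l (algebraMap F N (algebraMap Km F z0)) r)
    (unrC hl.ne_zero hzF hr0 hr hunr)
    (fun t ht u hu => chr_J hl.ne_zero hzF hr0 hr (hJz _ hzF.pow_eq_one) hJ ht hu)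
    (fun rr hrr u hu => chr_norm hl.ne_zero hz hr0 hr hN hrr hu)
  have hfix : ∀ σ : N ≃ₐ[F] N, σ r = r := by
    intro σ
    have hσ : H68TL.Fx F (σ : N ≃+* N) := fun x => σ.commutes x
    obtain ⟨k, hk⟩ := exists_k hl.ne_zero hzN hr0 hr hσ
    have h1 := chr_eq hzN hr0 hk
    rw [key _ hσ] at h1
    have h2 : l ∣ k := (ZMod.natCast_eq_zero_iff k l).1 h1.symm
    have h3 : (algebraMap F N (algebraMap Km F z0)) ^ k = 1 := (hzN.pow_eq_one_iff_dvd k).2 h2
    rw [h3, one_mul] at hk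
    exact hk
  have hG : IsGalois F N := IsGalois.tower_top_of_isGalois ℚ F N
  have hfd : FiniteDimensional F N := Module.Finite.of_restrictScalars_finite ℚ F N
  have hbot : r ∈ (⊥ : IntermediateField F N) := (IsGalois.mem_bot_iff_fixed r).2 hfix
  obtain ⟨y, hy⟩ := IntermediateField.mem_bot.1 hbot
  refine ⟨y, (algebraMap F N).injective ?_⟩
  rw [← hr, map_pow, hy]

end H78D
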