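import Pool.Agent.H78.TD.Ka
import Pool.Agent.H78.TD.Lg

/-!
Row Pt (about 120 lines): the point T over the closure and the roots of unity. Use only the STATEMENTS of Ka, Lg.

PROOF. Ω the closure of F.
 ne: pm_injective. tor: map_nsmul, H.Tl.
 fix: σ ∈ SA K Km Ω; gF := σ.restrictNormal F (Normal K F), σ (algebraMap F Ω x) = algebraMap F Ω (gF x); gF fixes the image of Km (σ does, and F → Ω injective), so gF as an automorphism over Km is h^j (H.tow.gen). H.Th: pm h T = T, so pm (h^j) T = T by induction (pm_pm, pm_congr). act (inv_up hV) σ (tp W T) = pm σ (pm (algebraMap F Ω) T) = pm (algebraMap F Ω) (pm gF T) (pm_pm, pm_congr) = tp W T.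
  (W.map gF = W is needed to write pm gF: W = V.map (algebraMap K F) and gF is K-linear; or compose ring homomorphisms directly and use pm_congr with the pointwise equality σ ∘ algebraMap = algebraMap ∘ h^j, by induction on j for hh lifting h.)
 neg: act Jh (tp W T) = pm (algebraMap) (pm J T) = pm (algebraMap) (-T) = - tp W T.
 roots: H.tow.root: z0 : Km primitive; its image in Ω is primitive (IsPrimitiveRoot.map_of_injective), so z^l = 1 gives z = z0^i (eq_pow_of_pow_eq_one, l ≠ 0): y = z0^i.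
 Jroot: z = algebraMap F Ω z', z'^l = 1 (from roots through Km → F), Jh z = algebraMap (J z') = algebraMap (z'⁻¹) = z⁻¹ (H.tow.Jz).
 exists_Jh: exists_lift for J.restrictScalars K; it fixes the image of L since J does (algebraMap L Ω = algebraMap F Ω ∘ algebraMap L F). Jh * Jh ∈ SA K F Ω by J2.
-/

set_option autoImplicit false
open scoped Classical

open WeierstrassCurve IsDedekindDomain NumberField Pool.Agent.H10 Pool.Agent.H11

namespace H78D

variable {K Km L F : Type} [Field K] [NumberField K] [Field Km] [NumberField Km] [Field L]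
  [NumberField L] [Field F] [NumberField F] [Algebra K L] [Algebra K F] [Algebra L F]
  [IsScalarTower K L F] [Algebra K Km] [Algebra Km F] [IsScalarTower K Km F] [Normal K F]
  {V : WeierstrassCurve K} {W : WeierstrassCurve F} {l : ℕ} {T : W.toAffine.Point}
  {h : F ≃ₐ[Km] F} {J : F ≃ₐ[L] F} {D : ℤ}

omit [NumberField K] [NumberField Km] [NumberField L] [NumberField F] [Algebra K L] [Algebra K F]
  [Algebra L F] [IsScalarTower K L F] [Algebra K Km] [IsScalarTower K Km F] [Normal K F] in
theorem Pt_pow (Th : ∃ hh : W.map (h : F →+* F) = W, pm (h : F →+* F) hh T = T) (j : ℕ) :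
    ∃ hh : W.map ((h ^ j : F ≃ₐ[Km] F) : F →+* F) = W,
      pm ((h ^ j : F ≃ₐ[Km] F) : F →+* F) hh T = T := by
  obtain ⟨h1, h2⟩ := Th
  induction j with
  | zero =>
    have e : W.map ((h ^ 0 : F ≃ₐ[Km] F) : F →+* F) = W := by
      have e1 : ((h ^ 0 : F ≃ₐ[Km] F) : F →+* F) = RingHom.id F := by
        ext x
        rfl
      rw [e1]
      exact WeierstrassCurve.map_id W
    exact ⟨e, pm_eq_self e (fun x => rfl) T⟩
  | succ j ih =>
    obtain ⟨h3, h4⟩ := ih
    have e1 : ((h ^ (j + 1) : F ≃ₐ[Km] F) : F →+* F) =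
        ((h ^ j : F ≃ₐ[Km] F) : F →+* F).comp (h : F →+* F) := by
      ext x
      rw [pow_succ]
      rfl
    have e2 : W.map ((h ^ (j + 1) : F ≃ₐ[Km] F) : F →+* F) = W := by
      rw [e1, ← WeierstrassCurve.map_map, h1, h3]
    refine ⟨e2, ?_⟩
    have e3 := pm_pm (h : F →+* F) h1 ((h ^ j : F ≃ₐ[Km] F) : F →+* F) h3 T
    rw [h2, h4] at e3
    have e4 : W.map (((h ^ j : F ≃ₐ[Km] F) : F →+* F).comp (h : F →+* F)) = W := by
      rw [← e1, e2]
    exact (pm_congr e2 e4 (fun x => by rw [e1]) T).trans e3.symm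

theorem pt_ne (H : Dat l K Km L F W T h J D) : tp W T ≠ 0 ∧ l • tp W T = 0 := by
  refine ⟨fun h0 => H.T0 ?_, ?_⟩
  · exact pm_injective (algebraMap F (AlgebraicClosure F)) rfl (h0.trans (map_zero _).symm)
  · show l • pm (algebraMap F (AlgebraicClosure F)) rfl T = 0
    rw [← map_nsmul, H.Tl, map_zero]

theorem pt_fix (H : Dat l K Km L F W T h J D) (hV : V.map (algebraMap K F) = W) :
    ∀ σ ∈ SA K Km (AlgebraicClosure F), act (inv_up hV) σ (tp W T) = tp W T := by
  intro σ hσ
  have hr : ∀ x : F, algebraMap F (AlgebraicClosure F) (σ.restrictNormal F x) =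
      σ (algebraMap F (AlgebraicClosure F) x) := fun x => AlgEquiv.restrictNormal_commutes σ F x
  have hc : ∀ y : Km, σ.restrictNormal F (algebraMap Km F y) = algebraMap Km F y := by
    intro y
    apply (algebraMap F (AlgebraicClosure F)).injective
    rw [hr, ← IsScalarTower.algebraMap_apply Km F (AlgebraicClosure F) y]
    exact hσ y
  obtain ⟨j, hj⟩ := H.tow.gen { σ.restrictNormal F with commutes' := hc }
  have hj' : ∀ x : F, σ.restrictNormal F x = (h ^ j) x := fun x => DFunLike.congr_fun hj x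
  obtain ⟨h1, h2⟩ := Pt_pow H.Th j
  have h3 : W.map ((algebraMap F (AlgebraicClosure F)).comp ((h ^ j : F ≃ₐ[Km] F) : F →+* F)) =
      W.baseChange (AlgebraicClosure F) := by
    rw [← WeierstrassCurve.map_map, h1]
    rfl
  have h4 := pm_pm ((h ^ j : F ≃ₐ[Km] F) : F →+* F) h1 (algebraMap F (AlgebraicClosure F))
    (rfl : W.map (algebraMap F (AlgebraicClosure F)) = W.baseChange (AlgebraicClosure F)) T
  rw [h2] at h4
  show pm (σ : AlgebraicClosure F →+* AlgebraicClosure F) _
    (pm (algebraMap F (AlgebraicClosure F)) rfl T) = pm (algebraMap F (AlgebraicClosure F)) rfl T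
  rw [pm_pm]
  refine (pm_congr _ h3 (fun x => ?_) T).trans h4.symm
  show σ (algebraMap F (AlgebraicClosure F) x) = algebraMap F (AlgebraicClosure F) ((h ^ j) x)
  rw [← hr, hj']

theorem pt_neg (H : Dat l K Km L F W T h J D) (hV : V.map (algebraMap K F) = W)
    {Jh : AlgebraicClosure F ≃ₐ[K] AlgebraicClosure F}
    (hJ : ∀ x : F, Jh (algebraMap F (AlgebraicClosure F) x) =
      algebraMap F (AlgebraicClosure F) (J x)) : act (inv_up hV) Jh (tp W T) = -tp W T := by
  obtain ⟨h1, h2⟩ := H.TJ
  have h3 : W.map ((algebraMap F (AlgebraicClosure F)).comp (J : F →+* F)) =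
      W.baseChange (AlgebraicClosure F) := by
    rw [← WeierstrassCurve.map_map, h1]
    rfl
  have h4 := pm_pm (J : F →+* F) h1 (algebraMap F (AlgebraicClosure F))
    (rfl : W.map (algebraMap F (AlgebraicClosure F)) = W.baseChange (AlgebraicClosure F)) T
  rw [h2, map_neg] at h4
  show pm (Jh : AlgebraicClosure F →+* AlgebraicClosure F) _
    (pm (algebraMap F (AlgebraicClosure F)) rfl T) = -pm (algebraMap F (AlgebraicClosure F)) rfl T
  rw [pm_pm]
  exact (pm_congr _ h3 (fun x => hJ x) T).trans h4.symm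

theorem roots (H : Dat l K Km L F W T h J D) :
    ∀ z : AlgebraicClosure F, z ^ l = 1 → ∃ y : Km, algebraMap Km (AlgebraicClosure F) y = z := by
  intro z hz
  obtain ⟨z0, hz0⟩ := H.tow.root
  have hne : NeZero l := ⟨H.prime.ne_zero⟩
  have h1 : IsPrimitiveRoot (algebraMap Km (AlgebraicClosure F) z0) l :=
    hz0.map_of_injective (algebraMap Km (AlgebraicClosure F)).injective
  obtain ⟨i, _, hi⟩ := h1.eq_pow_of_pow_eq_one hz
  exact ⟨z0 ^ i, by rw [map_pow, hi]⟩

theorem roots_J (H : Dat l K Km L F W T h J D)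
    {Jh : AlgebraicClosure F ≃ₐ[K] AlgebraicClosure F}
    (hJ : ∀ x : F, Jh (algebraMap F (AlgebraicClosure F) x) =
      algebraMap F (AlgebraicClosure F) (J x)) :
    ∀ z : AlgebraicClosure F, z ^ l = 1 → Jh z = z⁻¹ := by
  intro z hz
  obtain ⟨y, hy⟩ := roots H z hz
  rw [IsScalarTower.algebraMap_apply Km F (AlgebraicClosure F) y] at hy
  have h1 : (algebraMap Km F y) ^ l = 1 := by
    apply (algebraMap F (AlgebraicClosure F)).injective
    rw [map_pow, hy, hz, map_one]
  rw [← hy, hJ, H.tow.Jz _ h1, map_inv₀]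

theorem exists_Jh (H : Dat l K Km L F W T h J D) :
    ∃ Jh ∈ SA K L (AlgebraicClosure F), (∀ x : F, Jh (algebraMap F (AlgebraicClosure F) x) =
      algebraMap F (AlgebraicClosure F) (J x)) ∧ Jh * Jh ∈ SA K F (AlgebraicClosure F) := by
  obtain ⟨Jh, hJ⟩ := exists_lift (K := K) (F := F) (J.restrictScalars K)
  have hJ' : ∀ x : F, Jh (algebraMap F (AlgebraicClosure F) x) =
      algebraMap F (AlgebraicClosure F) (J x) := hJ
  refine ⟨Jh, fun x => ?_, hJ', fun x => ?_⟩
  · rw [IsScalarTower.algebraMap_apply L F (AlgebraicClosure F) x, hJ', J.commutes]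
  · show Jh (Jh (algebraMap F (AlgebraicClosure F) x)) = _
    rw [hJ', hJ', H.tow.J2]

end H78D
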