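import Pool.Agent.H78.TD.Kd
import Pool.Agent.H78.TD.Ja
import Pool.Agent.H78.TD.Pt

/-!
Row S1 (about 90 lines, assembly): step 1, a new class has values in the multiples of T. Use only the STATEMENTS of Kd, Ja, Pt, Ka.

PROOF. B := {x | l • x = 0}, b := e. kum_all (hinv: SA K F Ω ≤ SA K Km Ω (SA_le) and hKp; hhb: hh ∈ SA K Km Ω (lift_mem); hfB: hf.tor; hR; gen, cop, root from H.tow; W.IsElliptic from H.ell; good, fixP): r, d.
 kumJ_plus: hJB: hf.tor Jh; hJb: e x is an l-th root of unity, roots_J; hJρ: l • ρ Jh x = ρ Jh (l • x) = 0 and heJ. So d * J d = y^l.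
 H.noE (H68TL.NoNewE with P = ∅): d ≠ 0, valuations, norm, the condition for τ ∈ ∅ is empty, so d = y^l, y : F. Then (r / algebraMap y)^l = 1, so r / algebraMap y comes from Km (roots), so from F, so r = algebraMap F Ω y' and σ r = r for σ ∈ SA K F Ω; with σ r = e (f σ) * r, r ≠ 0: e (f σ) = 1.
-/

set_option autoImplicit false
open scoped Classical

open WeierstrassCurve IsDedekindDomain NumberField Pool.Agent.H10 Pool.Agent.H11

namespace H78D

theorem step1 {K Km L F : Type} [Field K] [NumberField K] [Field Km] [NumberField Km] [Field L]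
    [NumberField L] [Field F] [NumberField F] [Algebra K L] [Algebra K F] [Algebra L F]
    [IsScalarTower K L F] [Algebra K Km] [Algebra Km F] [IsScalarTower K Km F] [Normal K L]
    [Normal K F] [IsGalois Km F] {V : WeierstrassCurve K} {W : WeierstrassCurve F} {l : ℕ}
    {T : W.toAffine.Point} {h : F ≃ₐ[Km] F} {J : F ≃ₐ[L] F} {D : ℤ}
    (H : Dat l K Km L F W T h J D) (hV : V.map (algebraMap K F) = W)
    {e : (W.baseChange (AlgebraicClosure F)).toAffine.Point → AlgebraicClosure F}
    (he : Pr l {x | l • x = 0} e)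
    (hKp : ∀ σ ∈ SA K Km (AlgebraicClosure F), Kp (act (inv_up hV)) {x | l • x = 0} e σ)
    {Jh : AlgebraicClosure F ≃ₐ[K] AlgebraicClosure F} (hJh : Jh ∈ SA K L (AlgebraicClosure F))
    (hJ : ∀ x : F, Jh (algebraMap F (AlgebraicClosure F) x) =
      algebraMap F (AlgebraicClosure F) (J x))
    (heJ : ∀ x, l • x = 0 → e (act (inv_up hV) Jh x) = e x)
    {hh : AlgebraicClosure F ≃ₐ[K] AlgebraicClosure F}
    (hlift : ∀ x : F, hh (algebraMap F (AlgebraicClosure F) x) =
      algebraMap F (AlgebraicClosure F) (h x))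
    {R : (W.baseChange (AlgebraicClosure F)).toAffine.Point} (hR : l • R = 0)
    {f : (AlgebraicClosure F ≃ₐ[K] AlgebraicClosure F) →
      (W.baseChange (AlgebraicClosure F)).toAffine.Point} (hf : SC l L hV f)
    (hnew : New L hV hh (orderOf h) R f) :
    ∀ s ∈ SA K F (AlgebraicClosure F), e (f s) = 1 := by
  have hell : W.IsElliptic := H.ell
  have hl := H.prime
  have hinv : ∀ s ∈ SA K F (AlgebraicClosure F),
      Kp (act (inv_up hV)) {x | l • x = 0} e s := fun s hs => hKp s (SA_le (L := Km) (F := F) hs)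
  have hhb : Kp (act (inv_up hV)) {x | l • x = 0} e hh := hKp hh (lift_mem hlift)
  have hfB : ∀ s ∈ SA K F (AlgebraicClosure F), f s ∈ {x | l • x = 0} :=
    fun s hs => hf.tor s (SA_le (L := L) (F := F) hs)
  obtain ⟨r, d, hr, hd, hrd, hψ, hnorm, hval⟩ := kum_all hV hl H.tow.gen H.tow.cop hlift (roots H)
    he hinv hhb hf hfB (R := R) hR hnew H.good H.fixP
  obtain ⟨y, hy⟩ := kumJ_plus hV hl he hf.coc hfB hinv hJh hJ (hf.tor Jh hJh)
    (fun x hx => roots_J H hJ _ (he.pow x hx))
    (fun x hx => ⟨by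
      have hx' : l • x = 0 := hx
      change l • act (inv_up hV) Jh x = 0
      rw [← map_nsmul, hx', map_zero], heJ x hx⟩) hr hrd hψ
  obtain ⟨y', hy'⟩ := H.noE d hd hval hnorm (fun τ hτ => absurd hτ (Set.notMem_empty τ)) ⟨y, hy⟩
  have hy0 : y' ≠ 0 := by
    rintro rfl
    exact hd (by rw [hy', zero_pow hl.ne_zero])
  have hay : algebraMap F (AlgebraicClosure F) y' ≠ 0 := by
    rw [Ne, map_eq_zero]
    exact hy0
  obtain ⟨z, hz⟩ := roots H (r / algebraMap F (AlgebraicClosure F) y') (by
    rw [div_pow, hrd, hy', map_pow, div_self (pow_ne_zero _ hay)])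
  have hr2 : r = algebraMap F (AlgebraicClosure F) (algebraMap Km F z * y') := by
    rw [map_mul, ← IsScalarTower.algebraMap_apply Km F (AlgebraicClosure F), hz,
      div_mul_cancel₀ _ hay]
  intro s hs
  have h1 := hψ s hs
  have h2 : s r = r := by
    rw [hr2]
    exact hs _
  rw [h2] at h1
  exact mul_right_cancel₀ hr (by rw [one_mul]; exact h1.symm)

end H78D
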