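import Pool.Agent.H68.TL.Dfc
import Pool.Agent.H10.Restr
import Pool.Agent.H10.Star
import Pool.Agent.H11.ConjSha
import Pool.Agent.H11.MW

/-!
# MP_78d38b_T4, block D: descent with a point of order `l` (definitions, no row)

`K < L < F`, `K < Km < F`; `h` generates the Galois group of `F / Km`, `J` is an involution of `F / L`.
All Galois groups are groups of automorphisms of the algebraic closure of `F` over `K`; cocycles on the
subgroup fixing `L` are functions on the whole group, only their values on the subgroup matter.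
-/

set_option autoImplicit false
open scoped Classical

open WeierstrassCurve IsDedekindDomain NumberField Pool.Agent.H10 Pool.Agent.H11

namespace H78D

section grp

variable {G A : Type*} [Group G] [AddCommGroup A]

/-- an action by additive maps -/
structure Rho (ρ : G → A →+ A) : Prop where
  one : ∀ a, ρ 1 a = a
  mul : ∀ g h a, ρ (g * h) a = ρ g (ρ h a)

/-- the conjugate of `f` by `g` -/
def cjf (ρ : G → A →+ A) (g : G) (f : G → A) (s : G) : A := ρ g (f (g⁻¹ * s * g))

/-- `f` is a cocycle on the subgroup `S` -/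
def CocOn (ρ : G → A →+ A) (S : Subgroup G) (f : G → A) : Prop :=
  ∀ s ∈ S, ∀ t ∈ S, f (s * t) = f s + ρ s (f t)

/-- `b` is a homomorphism on the set `B` of points killed by `l`, with values in the roots of unity. -/
structure Pr {Ω : Type*} [Field Ω] (l : ℕ) (B : Set A) (b : A → Ω) : Prop where
  zero : (0 : A) ∈ B
  tor : ∀ x ∈ B, l • x = 0
  mem : ∀ x ∈ B, ∀ y ∈ B, x + y ∈ B
  add : ∀ x ∈ B, ∀ y ∈ B, b (x + y) = b x * b y
  pow : ∀ x ∈ B, b x ^ l = 1

/-- `g` maps `B` to `B` and does not change `b`. -/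
def Kp {Ω : Type*} [Field Ω] (ρ : G → A →+ A) (B : Set A) (b : A → Ω) (g : G) : Prop :=
  ∀ x ∈ B, ρ g x ∈ B ∧ b (ρ g x) = b x

end grp

section fields

/-- The subgroup of the automorphisms of `Ω` over `K` which fix `L`. -/
def SA (K L Ω : Type) [Field K] [Field L] [Field Ω] [Algebra K Ω] [Algebra L Ω] :
    Subgroup (Ω ≃ₐ[K] Ω) where
  carrier := {σ | ∀ x : L, σ (algebraMap L Ω x) = algebraMap L Ω x}
  mul_mem' := by
    intro a b ha hb x
    change a (b (algebraMap L Ω x)) = _
    rw [hb x, ha x]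
  one_mem' := fun x => rfl
  inv_mem' := by
    intro a ha x
    change a.symm (algebraMap L Ω x) = _
    rw [AlgEquiv.symm_apply_eq]
    exact (ha x).symm

lemma mem_SA {K L Ω : Type} [Field K] [Field L] [Field Ω] [Algebra K Ω] [Algebra L Ω]
    {σ : Ω ≃ₐ[K] Ω} : σ ∈ SA K L Ω ↔ ∀ x : L, σ (algebraMap L Ω x) = algebraMap L Ω x := Iff.rfl

/-- An element of `SA` as an automorphism over `L`. -/
def toL {K L Ω : Type} [Field K] [Field L] [Field Ω] [Algebra K Ω] [Algebra L Ω]
    (σ : Ω ≃ₐ[K] Ω) (h : σ ∈ SA K L Ω) : Ω ≃ₐ[L] Ω :=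
  { σ with commutes' := h }

/-- The geometry of the tower of fields: `h` generates `Gal(F / Km)`, `J` is in `Gal(F / L)`. -/
structure Tow (l : ℕ) (K Km L F : Type) [Field K] [Field Km] [Field L] [Field F] [Algebra K F]
    [Algebra Km F] [Algebra L F] (h : F ≃ₐ[Km] F) (J : F ≃ₐ[L] F) : Prop where
  gen : ∀ g : F ≃ₐ[Km] F, ∃ j : ℕ, g = h ^ j
  cop : ¬ l ∣ orderOf h
  cov : ∀ g : F ≃ₐ[K] F, ∃ j : ℕ, ∀ x : L, g (algebraMap L F x) = (h ^ j) (algebraMap L F x)
  comm : ∀ (g : F ≃ₐ[L] F) (x : F), h (g x) = g (h x)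
  J2 : ∀ x, J (J x) = x
  Jz : ∀ z : F, z ^ l = 1 → J z = z⁻¹
  root : ∃ z : Km, IsPrimitiveRoot z l

variable {K L F : Type} [Field K] [NumberField K] [Field L] [NumberField L] [Field F]
  [NumberField F] [Algebra K F] [Algebra L F] {V : WeierstrassCurve K} {W : WeierstrassCurve F}

/-- Locally trivial cocycles on the group of `L` with values in the `l`-torsion; the local conditions
are over `F`. -/
structure SC (l : ℕ) (L : Type) [Field L] [Algebra L F] (hV : V.map (algebraMap K F) = W)
    (f : (AlgebraicClosure F ≃ₐ[K] AlgebraicClosure F) →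
      (W.baseChange (AlgebraicClosure F)).toAffine.Point) : Prop where
  coc : CocOn (act (inv_up hV)) (SA K L (AlgebraicClosure F)) f
  cont : ∃ S : Finset (AlgebraicClosure F), ∀ σ ∈ SA K L (AlgebraicClosure F),
    (∀ x ∈ S, σ x = x) → f σ = 0
  tor : ∀ σ ∈ SA K L (AlgebraicClosure F), l • f σ = 0
  loc : IsLocTriv F W (fun τ => f (τ.restrictScalars K))

/-- `f` is new: the sum of its conjugates by the powers of `hh` is the coboundary of `R`. -/
def New (L : Type) [Field L] [Algebra L F] (hV : V.map (algebraMap K F) = W)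
    (hh : AlgebraicClosure F ≃ₐ[K] AlgebraicClosure F) (P : ℕ)
    (R : (W.baseChange (AlgebraicClosure F)).toAffine.Point)
    (f : (AlgebraicClosure F ≃ₐ[K] AlgebraicClosure F) →
      (W.baseChange (AlgebraicClosure F)).toAffine.Point) : Prop :=
  ∀ s ∈ SA K L (AlgebraicClosure F),
    ∑ j ∈ Finset.range P, cjf (act (inv_up hV)) (hh ^ j) f s = act (inv_up hV) s R - R

/-- The automorphism `σ` of the closure of `F` extends `g`. -/
def Lft (g : F ≃+* F) (σ : AlgebraicClosure F ≃ₐ[K] AlgebraicClosure F) : Prop :=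
  ∀ x : F, σ (algebraMap F (AlgebraicClosure F) x) = algebraMap F (AlgebraicClosure F) (g x)

/-- The reduction of the point `T` of `W` modulo the primes above `l` is not the origin; `W` has good
reduction there. -/
def EtT (l : ℕ) (W : WeierstrassCurve F) (T : W.toAffine.Point) : Prop :=
  ∃ x y h, T = Affine.Point.some x y h ∧ ∀ w : HeightOneSpectrum (𝓞 F), (l : 𝓞 F) ∈ w.asIdeal →
    (w.valuation F W.a₁ ≤ 1 ∧ w.valuation F W.a₂ ≤ 1 ∧ w.valuation F W.a₃ ≤ 1 ∧
      w.valuation F W.a₄ ≤ 1 ∧ w.valuation F W.a₆ ≤ 1 ∧ w.valuation F W.Δ = 1) ∧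
    w.valuation F x ≤ 1

/-- The point `T` of `W` over the closure of `F`. -/
noncomputable abbrev tp (W : WeierstrassCurve F) (T : W.toAffine.Point) :
    (W.baseChange (AlgebraicClosure F)).toAffine.Point :=
  pm (algebraMap F (AlgebraicClosure F)) rfl T

/-- `F(d^(1/l)) / F` is unramified at `w`. -/
def UnrK (l : ℕ) (F : Type) [Field F] [NumberField F] (d : F) (w : HeightOneSpectrum (𝓞 F)) : Prop :=
  ∀ (N : Type) [Field N] [NumberField N] [Algebra F N] [IsGalois ℚ N] (r : N),
    r ^ l = algebraMap F N d → ∀ P : Ideal (𝓞 N), P.IsPrime → P ≠ ⊥ →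
    (∀ x : 𝓞 F, algebraMap (𝓞 F) (𝓞 N) x ∈ P ↔ x ∈ w.asIdeal) →
    ∀ u : N ≃+* N, H68TL.Fx F u → H68TL.InI P u → u r = r

/-- The data of the descent over the pair `Km < F`: a point `T` of order `l` of `W`, fixed by `h`, with
`J T = - T`, the reduction conditions, and the two class field theoretic hypotheses. -/
structure Dat (l : ℕ) (K Km L F : Type) [Field K] [NumberField K] [Field Km] [NumberField Km]
    [Field L] [NumberField L] [Field F] [NumberField F] [Algebra K F] [Algebra Km F] [Algebra L F]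
    (W : WeierstrassCurve F) (T : W.toAffine.Point) (h : F ≃ₐ[Km] F) (J : F ≃ₐ[L] F) (D : ℤ) :
    Prop where
  prime : l.Prime
  three : 3 ≤ l
  tow : Tow l K Km L F h J
  ell : W.IsElliptic
  T0 : T ≠ 0
  Tl : l • T = 0
  Th : ∃ hh : W.map (h : F →+* F) = W, pm (h : F →+* F) hh T = T
  TJ : ∃ hh : W.map (J : F →+* F) = W, pm (J : F →+* F) hh T = -T
  et : EtT l W T
  good : ∀ w : HeightOneSpectrum (𝓞 F), ((D : ℤ) : 𝓞 F) ∉ w.asIdeal →
    GoodVal (w.valuation F) W l
  noE : H68TL.NoNewE l Km F ∅ (J : F ≃+* F)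
  noC : H68TL.NoUnr l Km F (J : F ≃+* F)
  fixP : H68TL.FixP D Km F

end fields

section shas

/-- Conjugation does not change the classes of the locally trivial cocycles killed by `l`. -/
def CTl (l : ℕ) (K L : Type) [Field K] [NumberField K] [Field L] [NumberField L] [Algebra K L]
    [Normal K L] (V' : WeierstrassCurve L) (h : Inv K (V'.baseChange (AlgebraicClosure L))) : Prop :=
  ∀ f : Coch L V', IsCocycle L V' f → IsLocTriv L V' f → (∀ σ, l • f σ = 0) →
    ∀ g : AlgebraicClosure L ≃ₐ[K] AlgebraicClosure L, ∃ T, l • T = 0 ∧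
      ∀ τ, conj h g f τ = f τ + (act (inv_bc L V') τ T - T)

/-- `f` represents an element of the `l`-primary part of the Tate-Shafarevich group of `W`. -/
def IsShaP (l : ℕ) (K : Type) [Field K] [NumberField K] (W : WeierstrassCurve K)
    (f : (AlgebraicClosure K ≃ₐ[K] AlgebraicClosure K) →
      (W.baseChange (AlgebraicClosure K)).toAffine.Point) : Prop :=
  IsCocycle K W f ∧ IsLocTriv K W f ∧ ∃ m : ℕ, IsCobound K W (fun σ => (l ^ m) • f σ)

/-- Restriction from `K` to `L` is a well defined bijection between the `l`-primary parts of the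
Tate-Shafarevich groups of `W` over `K` and over `L`. -/
def ShaPBijective (l : ℕ) (K : Type) [Field K] [NumberField K] (W : WeierstrassCurve K)
    (L : Type) [Field L] [NumberField L] [Algebra K L] : Prop :=
  ∀ j : AlgebraicClosure K →ₐ[K] AlgebraicClosure L,
    (∀ f, IsShaP l K W f → ∃ g, IsRestriction K W L j f g ∧ IsShaP l L (W.baseChange L) g ∧
      (IsCobound L (W.baseChange L) g → IsCobound K W f)) ∧
    (∀ g, IsShaP l L (W.baseChange L) g → ∃ f g', IsShaP l K W f ∧ IsRestriction K W L j f g' ∧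
      IsCobound L (W.baseChange L) (fun τ => g τ - g' τ))

end shas

end H78D
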