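import Pool.Agent.H78.TD.Ka

/-!
Row Kb (about 110 lines): the norm of a Kummer generator.

PROOF of norm_pow. Ω the closure of F, P = orderOf h, y' := ∏_{j<P} (hh^j) r. For s ∈ SA K F Ω: s ((hh^j) r) = (hh^j) (((hh^j)⁻¹ * s * hh^j) r) and (hh^j)⁻¹ * s * hh^j ∈ SA K F Ω (SA_normal: Subgroup.Normal.conj_mem with (hh^j)⁻¹), so = (hh^j) (ψ (...) * r) = ψ (...) * (hh^j) r because hh fixes ψ (...) (hfix, induction on j).
 The product over j: s y' = (∏ ψ (...)) * y' = y' by hprod. So y' = algebraMap y by mem_F (y : F). y'^l = ∏ (hh^j) (r^l) = ∏ (hh^j) (algebraMap d) = algebraMap (∏ (h^j) d) (hlift, induction).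
 Algebra.norm_eq_prod_automorphisms Km d: algebraMap Km F (norm d) = ∏ g : F ≃ₐ[Km] F, g d = ∏_{j<P} (h^j) d by hgen: the map j ↦ h^j is a bijection of Finset.range (orderOf h) onto all automorphisms (pow_inj_mod / Finset.prod_bij, h has finite order as the group is finite; hgen: g = h^j = h^(j % orderOf h)). Injectivity of algebraMap F Ω: norm = y^l.
PROOF of norm_prod: this last formula alone.
-/

set_option autoImplicit false
open scoped Classical

open WeierstrassCurve NumberField Pool.Agent.H10 Pool.Agent.H11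

namespace H78D

theorem norm_prod {Km F : Type} [Field Km] [Field F] [Algebra Km F] [FiniteDimensional Km F]
    [IsGalois Km F] {h : F ≃ₐ[Km] F} (hgen : ∀ g : F ≃ₐ[Km] F, ∃ j : ℕ, g = h ^ j) (d : F) :
    algebraMap Km F (Algebra.norm Km d) = ∏ j ∈ Finset.range (orderOf h), (h ^ j) d := by
  rw [Algebra.norm_eq_prod_automorphisms Km d]
  symm
  refine Finset.prod_nbij (fun j => h ^ j) (fun j _ => Finset.mem_univ _) ?_ ?_ (fun j _ => rfl)
  · intro a ha b hb hab
    exact pow_injOn_Iio_orderOf (Set.mem_Iio.2 (Finset.mem_range.1 (Finset.mem_coe.1 ha)))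
      (Set.mem_Iio.2 (Finset.mem_range.1 (Finset.mem_coe.1 hb))) hab
  · intro g _
    obtain ⟨j, hj⟩ := hgen g
    refine ⟨j % orderOf h, ?_, ?_⟩
    · rw [Finset.mem_coe, Finset.mem_range]
      exact Nat.mod_lt _ (orderOf_pos h)
    · show h ^ (j % orderOf h) = g
      rw [pow_mod_orderOf, hj]

theorem norm_pow {K Km F : Type} [Field K] [NumberField K] [Field Km] [NumberField Km] [Field F]
    [NumberField F] [Algebra K F] [Algebra Km F] [Normal K F] [IsGalois Km F] {l : ℕ}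
    {h : F ≃ₐ[Km] F} (hgen : ∀ g : F ≃ₐ[Km] F, ∃ j : ℕ, g = h ^ j)
    {hh : AlgebraicClosure F ≃ₐ[K] AlgebraicClosure F}
    (hlift : ∀ x : F, hh (algebraMap F (AlgebraicClosure F) x) =
      algebraMap F (AlgebraicClosure F) (h x))
    {r : AlgebraicClosure F} {d : F} (hrd : r ^ l = algebraMap F (AlgebraicClosure F) d)
    {ψ : (AlgebraicClosure F ≃ₐ[K] AlgebraicClosure F) → AlgebraicClosure F}
    (hψ : ∀ σ ∈ SA K F (AlgebraicClosure F), σ r = ψ σ * r)
    (hfix : ∀ σ ∈ SA K F (AlgebraicClosure F), hh (ψ σ) = ψ σ)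
    (hprod : ∀ s ∈ SA K F (AlgebraicClosure F),
      ∏ j ∈ Finset.range (orderOf h), ψ ((hh ^ j)⁻¹ * s * hh ^ j) = 1) :
    ∃ y : F, algebraMap Km F (Algebra.norm Km d) = y ^ l := by
  have hpow : ∀ (j : ℕ) (x : F), (hh ^ j) (algebraMap F (AlgebraicClosure F) x) =
      algebraMap F (AlgebraicClosure F) ((h ^ j) x) := by
    intro j
    induction j with
    | zero => intro x; rfl
    | succ j ih =>
      intro x
      rw [pow_succ', pow_succ']
      show hh ((hh ^ j) (algebraMap F (AlgebraicClosure F) x)) =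
        algebraMap F (AlgebraicClosure F) (h ((h ^ j) x))
      rw [ih, hlift]
  have hfixj : ∀ (j : ℕ), ∀ σ ∈ SA K F (AlgebraicClosure F), (hh ^ j) (ψ σ) = ψ σ := by
    intro j σ hσ
    induction j with
    | zero => rfl
    | succ j ih =>
      rw [pow_succ']
      show hh ((hh ^ j) (ψ σ)) = ψ σ
      rw [ih, hfix σ hσ]
  have hconj : ∀ (j : ℕ), ∀ s ∈ SA K F (AlgebraicClosure F),
      (hh ^ j)⁻¹ * s * hh ^ j ∈ SA K F (AlgebraicClosure F) := by
    intro j s hs
    have h1 := (SA_normal (K := K) (L := F) (Ω := AlgebraicClosure F)).conj_mem s hs ((hh ^ j)⁻¹)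
    rwa [inv_inv] at h1
  have hs1 : ∀ (j : ℕ), ∀ s ∈ SA K F (AlgebraicClosure F),
      s ((hh ^ j) r) = ψ ((hh ^ j)⁻¹ * s * hh ^ j) * (hh ^ j) r := by
    intro j s hs
    have h1 : s * hh ^ j = hh ^ j * ((hh ^ j)⁻¹ * s * hh ^ j) := by group
    have h2 : s ((hh ^ j) r) = (hh ^ j) (((hh ^ j)⁻¹ * s * hh ^ j) r) := by
      show (s * hh ^ j) r = (hh ^ j * ((hh ^ j)⁻¹ * s * hh ^ j)) r
      rw [← h1]
    rw [h2, hψ _ (hconj j s hs), map_mul, hfixj j _ (hconj j s hs)]
  obtain ⟨y, hy⟩ := mem_F (K := K) (∏ j ∈ Finset.range (orderOf h), (hh ^ j) r) (by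
    intro s hs
    rw [map_prod, Finset.prod_congr rfl fun j _ => hs1 j s hs, Finset.prod_mul_distrib, hprod s hs,
      one_mul])
  refine ⟨y, ?_⟩
  apply (algebraMap F (AlgebraicClosure F)).injective
  rw [norm_prod hgen, map_pow, hy, map_prod, ← Finset.prod_pow]
  refine Finset.prod_congr rfl fun j _ => ?_
  rw [← hpow, ← map_pow, hrd]

end H78D
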