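import Pool.Agent.H78.TD.S1
import Pool.Agent.H78.TD.S2
import Pool.Agent.H78.TD.Gb

/-!
Row S3 (about 110 lines, assembly): conjugation does not change the classes, over the closure of F. Use only the STATEMENTS of the imported rows.

PROOF. Ω the closure of F, ρ = act (inv_up hV), rho_act. exists_Jh: Jh. exists_weil (T := tp W T; pt_ne, pt_neg, roots_J, hμ: z comes from Km (roots), so fixed by σ ∈ SA K Km Ω; pt_fix): e, he, hker, hKp, heJ. (W.IsElliptic: H.ell.)
 exists_hh (h, H.tow.cop, B = {x | l • x = 0}, e, f; CocOn on SA K F Ω: restriction of hf.coc by SA_le; hfB hf.tor; hinv: SA K F Ω ≤ SA K Km Ω): hh, hlift, hhP : hh ^ P ∈ SA K F Ω, e (f (hh ^ P)) = 1, P = orderOf h. R := f (hh ^ P): l • R = 0 (hf.tor, SA_le), R = j • tp W T (hker).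
 f1 s := cjf ρ hh f s - f s: SC by sc_conj. New L hV hh P R f1: sum_cjf gives cjf ρ (hh ^ P) f s - f s, cjf_inner with t = hh ^ P ∈ SA K L Ω gives ρ s R - R.
 step1 for f1, then step2 for f1: f1 = 0 on SA K F Ω. vanish (SL = SA K L Ω, SF = SA K F Ω, normal by SA_normal; hP = H.tow.cop; hcomm = comm_mem H.tow.comm hlift; hB = triv_of_fix with T = tp W T, e, hh: hhP, ρ hh T = T (pt_fix, lift_mem), hinv from hKp hh): R', f1 s = ρ s R' - R' on SL.
 cover: g = hh ^ j * t. all_of_one with R' (hh : cjf ρ hh f s = f s + (ρ s R' - R')).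
-/

set_option autoImplicit false
open scoped Classical

open WeierstrassCurve IsDedekindDomain NumberField Pool.Agent.H10 Pool.Agent.H11

namespace H78D

theorem core {K Km L F : Type} [Field K] [NumberField K] [Field Km] [NumberField Km] [Field L]
    [NumberField L] [Field F] [NumberField F] [Algebra K L] [Algebra K F] [Algebra L F]
    [IsScalarTower K L F] [Algebra K Km] [Algebra Km F] [IsScalarTower K Km F] [Normal K L]
    [Normal K F] [IsGalois Km F] {V : WeierstrassCurve K} {W : WeierstrassCurve F} {l : ℕ}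
    {T : W.toAffine.Point} {h : F ≃ₐ[Km] F} {J : F ≃ₐ[L] F} {D : ℤ}
    (H : Dat l K Km L F W T h J D) (hV : V.map (algebraMap K F) = W)
    {f : (AlgebraicClosure F ≃ₐ[K] AlgebraicClosure F) →
      (W.baseChange (AlgebraicClosure F)).toAffine.Point} (hf : SC l L hV f)
    (g : AlgebraicClosure F ≃ₐ[K] AlgebraicClosure F) :
    ∃ S, l • S = 0 ∧ ∀ s ∈ SA K L (AlgebraicClosure F),
      cjf (act (inv_up hV)) g f s = f s + (act (inv_up hV) s S - S) := by
  have hρ : Rho (act (inv_up hV)) := rho_act _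
  haveI := H.ell
  obtain ⟨Jh, hJh, hJ, hJJ⟩ := exists_Jh H
  obtain ⟨hT0, hTl⟩ := pt_ne H
  have hμ : ∀ σ ∈ SA K Km (AlgebraicClosure F), ∀ z : AlgebraicClosure F, z ^ l = 1 → σ z = z := by
    intro σ hσ z hz
    obtain ⟨y, rfl⟩ := roots H z hz
    exact hσ y
  obtain ⟨e, he, hker, hKp, heJ⟩ := exists_weil (Km := Km) hV H.prime H.three hT0 hTl
    (pt_neg H hV hJ) (roots_J H hJ) hμ (pt_fix H hV)
  have hleK : SA K F (AlgebraicClosure F) ≤ SA K Km (AlgebraicClosure F) := SA_le
  have hleL : SA K F (AlgebraicClosure F) ≤ SA K L (AlgebraicClosure F) := SA_le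
  obtain ⟨hh, hlift, hhP, heP⟩ := exists_hh (Km := Km) hV H.prime H.tow.cop he
    (f := f) (fun s hs t ht => hf.coc s (hleL hs) t (hleL ht))
    (fun s hs => hf.tor s (hleL hs)) (fun s hs => hKp s (hleK hs))
  have hR : l • f (hh ^ orderOf h) = 0 := hf.tor _ (hleL hhP)
  have hRT := (hker _ hR).1 heP
  have sc1 : SC l L hV (fun s => cjf (act (inv_up hV)) hh f s - f s) := sc_conj hf hh
  have hnew : New L hV hh (orderOf h) (f (hh ^ orderOf h))
      (fun s => cjf (act (inv_up hV)) hh f s - f s) := by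
    intro s hs
    rw [sum_cjf hρ, cjf_inner hρ hf.coc (hleL hhP) hs]
    abel
  have h1 := step1 H hV he hKp hJh hJ heJ hlift hR sc1 hnew
  have h0 := step2 H hV he hker hJh hJ hJJ heJ hlift hRT sc1 hnew h1
  haveI : (SA K L (AlgebraicClosure F)).Normal := SA_normal
  haveI : (SA K F (AlgebraicClosure F)).Normal := SA_normal
  have hB := triv_of_fix hρ H.prime hT0 hTl he hker H.tow.cop hhP
    (pt_fix H hV hh (lift_mem hlift)) (fun x hx => (hKp hh (lift_mem hlift) x hx).2)
  obtain ⟨R', hR', hf1⟩ := vanish hρ H.prime hleL H.tow.cop sc1.coc sc1.tor h0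
    (fun s hs => comm_mem H.tow.comm hlift hs) hB hR hnew
  obtain ⟨j, t, ht, rfl⟩ := cover (L := L) H.tow.cov hlift g
  refine all_of_one hρ hf.coc hf.tor hR' ?_ ht
  intro s hs
  rw [← hf1 s hs]
  abel

end H78D
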