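import Pool.Agent.H78.TD.Df

/-!
Row Ug (about 170 lines): the character of an unramified Kummer extension, at a finite level.

PROOF of exists_N. Ω := AlgebraicClosure F, r ∈ Ω with r^l = d (IsAlgClosed.exists_pow_nat_eq), M := F⟮r⟯, a number field. N := ↥(normalClosure ℚ M Ω) (IntermediateField ℚ Ω): finite dimensional (normalClosure.is_finiteDimensional), normal (normalClosure.normal), so a Galois number field; it contains M (AlgHom.fieldRange_le_normalClosure for the inclusion M →ₐ[ℚ] Ω). Algebra F N := (RingHom.codRestrict (algebraMap F Ω) ..).toAlgebra. r ∈ N.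
 chr_eq: u r = z^k r and u r = z^k' r (chosen k') give z^k = z^k' (r ≠ 0), so k ≡ k' mod l (IsPrimitiveRoot.pow_inj or pow_eq_pow_iff_modEq with orderOf z = l), so equal in ZMod l (ZMod.natCast_eq_natCast_iff).
 exists_k: u r / r is an l-th root of unity since u r ^ l = u (algebraMap d) = algebraMap d: IsPrimitiveRoot.eq_pow_of_pow_eq_one (l ≠ 0).
 unrC: mul: v r = z^k r, u r = z^j r, u z = z (z comes from F: hypothesis hzF), u (v r) = z^k z^j r = z^(k+j) r. unr: w.asIdeal := P.comap (algebraMap (𝓞 F) (𝓞 N)), prime, not ⊥ (Ideal.comap_ne_bot_of_integral_mem or Ideal.under_ne_bot), apply hunr w: u r = r = z^0 r, chr = 0.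
 chr_J: (t r)^l = t (algebraMap d) = algebraMap (J d) = (c r)^l (c from F), so t r = z^m c r =: algebraMap c' * r with c' : F (z from F). c' ≠ 0. Put c'' := J.symm (c'⁻¹): t (algebraMap c'' * r) = algebraMap (c'⁻¹) * algebraMap c' * r = r, so t⁻¹ r = algebraMap c'' * r (t⁻¹ = t.symm).
 With u r = z^k r (exists_k): (t * u * t⁻¹) r = t (u (c'' r)) = t (c'' z^k r) = c'⁻¹ (J z0)^k c' r = (z^k)⁻¹ r = z^((l - 1) k) r (J z0 = z0⁻¹, z^l = 1). So chr (t u t⁻¹) = (l - 1) k = - k in ZMod l (cast).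
-/

set_option autoImplicit false

open scoped Classical

open IsDedekindDomain NumberField

namespace H78D

theorem exists_N {F : Type} [Field F] [NumberField F] {l : ℕ} (hl : l ≠ 0) (d : F) :
    ∃ (N : Type) (_ : Field N) (_ : NumberField N) (_ : Algebra F N) (_ : IsGalois ℚ N) (r : N),
      r ^ l = algebraMap F N d := by
  obtain ⟨r, hr⟩ := IsAlgClosed.exists_pow_nat_eq (algebraMap F (AlgebraicClosure F) d) (Nat.pos_of_ne_zero hl)
  let ι : F →ₐ[ℚ] AlgebraicClosure F := (algebraMap F (AlgebraicClosure F)).toRatAlgHom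
  have hint : ∀ x : AlgebraicClosure F, IsIntegral ℚ x := by
    intro x
    have h1 : Algebra.IsAlgebraic ℚ (AlgebraicClosure F) := Algebra.IsAlgebraic.trans ℚ F (AlgebraicClosure F)
    exact (h1.isAlgebraic x).isIntegral
  let b := Module.finBasis ℚ F
  let S : Set (AlgebraicClosure F) := Set.range (fun i => ι (b i)) ∪ {r}
  have hS : S.Finite := (Set.finite_range _).union (Set.finite_singleton r)
  have hSf : Finite S := hS
  let M₀ : IntermediateField ℚ (AlgebraicClosure F) := IntermediateField.adjoin ℚ S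
  have hM₀ : FiniteDimensional ℚ M₀ := IntermediateField.finiteDimensional_adjoin (fun x _ => hint x)
  have halg : Algebra.IsAlgebraic ℚ (AlgebraicClosure F) := ⟨fun x => (hint x).isAlgebraic⟩
  have hcl : IsAlgClosure ℚ (AlgebraicClosure F) := ⟨inferInstance, halg⟩
  have hnor : Normal ℚ (AlgebraicClosure F) := IsAlgClosure.normal ℚ (AlgebraicClosure F)
  let M : IntermediateField ℚ (AlgebraicClosure F) := IntermediateField.normalClosure ℚ M₀ (AlgebraicClosure F)
  have hle : M₀ ≤ M := IntermediateField.le_normalClosure M₀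
  have hMf : FiniteDimensional ℚ M := normalClosure.is_finiteDimensional ℚ M₀ (AlgebraicClosure F)
  have hMn : Normal ℚ M := normalClosure.normal ℚ M₀ (AlgebraicClosure F)
  have hMg : IsGalois ℚ M := ⟨⟩
  have hNF : NumberField M := NumberField.of_module_finite ℚ M
  have hF : ∀ x : F, algebraMap F (AlgebraicClosure F) x ∈ M := by
    intro x
    apply hle
    have h1 : algebraMap F (AlgebraicClosure F) x = ∑ i, (b.repr x i) • ι (b i) := by
      conv_lhs => rw [← b.sum_repr x]
      change ι _ = _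
      rw [map_sum]
      refine Finset.sum_congr rfl fun i _ => ?_
      exact map_rat_smul ι (b.repr x i) (b i)
    rw [h1]
    refine sum_mem fun i _ => M₀.smul_mem ?_
    exact IntermediateField.subset_adjoin ℚ S (Or.inl ⟨i, rfl⟩)
  have hrM : r ∈ M := hle (IntermediateField.subset_adjoin ℚ S (Or.inr rfl))
  let g : F →+* M := (algebraMap F (AlgebraicClosure F)).codRestrict M.toSubring.toSubsemiring hF
  refine ⟨M, inferInstance, hNF, g.toAlgebra, ?_, ⟨r, hrM⟩, ?_⟩
  · convert hMg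
  · apply Subtype.ext
    exact hr

private theorem Ug_pow {N : Type} [Field N] {l : ℕ} {z : N} (hz : IsPrimitiveRoot z l) {a b : ℕ}
    (h0 : z ^ a ≠ 0) (h : z ^ a = z ^ b) (hab : a ≤ b) : (a : ZMod l) = b := by
  have h1 : z ^ (b - a) = 1 := by
    have h2 : z ^ b = z ^ a * z ^ (b - a) := by rw [← pow_add, Nat.add_sub_cancel' hab]
    rw [← h] at h2
    exact (mul_left_cancel₀ h0 (by rw [mul_one]; exact h2)).symm
  have h3 := (ZMod.natCast_eq_zero_iff _ _).2 (hz.dvd_of_pow_eq_one _ h1)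
  have h4 : b = a + (b - a) := (Nat.add_sub_cancel' hab).symm
  rw [h4, Nat.cast_add, h3, add_zero]

/-- The character of the Kummer extension generated by `r`. -/
noncomputable def chr {N : Type} [Field N] (l : ℕ) (z r : N) (u : N ≃+* N) : ZMod l :=
  if h : ∃ k : ℕ, u r = z ^ k * r then ((Classical.choose h : ℕ) : ZMod l) else 0

theorem chr_eq {N : Type} [Field N] {l : ℕ} {z r : N} (hz : IsPrimitiveRoot z l) (hr : r ≠ 0)
    {u : N ≃+* N} {k : ℕ} (hk : u r = z ^ k * r) : chr l z r u = k := by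
  have hex : ∃ k : ℕ, u r = z ^ k * r := ⟨k, hk⟩
  unfold chr
  rw [dif_pos hex]
  have h1 := Classical.choose_spec hex
  generalize Classical.choose hex = k' at h1 ⊢
  have h2 : u r ≠ 0 := by
    rw [Ne, EmbeddingLike.map_eq_zero_iff]
    exact hr
  have h3 : z ^ k' = z ^ k := mul_right_cancel₀ hr (h1.symm.trans hk)
  have h4 : z ^ k ≠ 0 := by
    intro h
    rw [hk, h, zero_mul] at h2
    exact h2 rfl
  rcases le_total k k' with h5 | h5
  · exact (Ug_pow hz h4 h3.symm h5).symm
  · exact Ug_pow hz (by rw [h3]; exact h4) h3 h5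

section

variable {F N : Type} [Field F] [NumberField F] [Field N] [NumberField N] [Algebra F N]

theorem exists_k {l : ℕ} (hl : l ≠ 0) {z r : N} (hz : IsPrimitiveRoot z l) (hr : r ≠ 0) {d : F}
    (hd : r ^ l = algebraMap F N d) {u : N ≃+* N} (hu : H68TL.Fx F u) :
    ∃ k : ℕ, u r = z ^ k * r := by
  have hl' : NeZero l := ⟨hl⟩
  have h1 : (u r / r) ^ l = 1 := by
    rw [div_pow, ← map_pow, hd, hu d, div_self]
    rw [← hd]
    exact pow_ne_zero l hr
  obtain ⟨i, -, hi⟩ := hz.eq_pow_of_pow_eq_one h1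
  exact ⟨i, by rw [hi, div_mul_cancel₀ _ hr]⟩

theorem unrC [IsGalois ℚ N] {l : ℕ} (hl : l ≠ 0) {z0 : F} (hz : IsPrimitiveRoot z0 l) {r : N}
    (hr : r ≠ 0) {d : F} (hd : r ^ l = algebraMap F N d)
    (hunr : ∀ w : HeightOneSpectrum (𝓞 F), UnrK l F d w) :
    H68TL.UnrC l F (chr l (algebraMap F N z0) r) := by
  have hz' : IsPrimitiveRoot (algebraMap F N z0) l := hz.map_of_injective (algebraMap F N).injective
  refine ⟨?_, ?_⟩
  · intro u v hu hv
    obtain ⟨k, hk⟩ := exists_k hl hz' hr hd hu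
    obtain ⟨j, hj⟩ := exists_k hl hz' hr hd hv
    have h1 : (u * v) r = (algebraMap F N z0) ^ (k + j) * r := by
      change u (v r) = _
      rw [hj, map_mul, map_pow, hu z0, hk, pow_add]
      ring
    rw [chr_eq hz' hr h1, chr_eq hz' hr hk, chr_eq hz' hr hj, Nat.cast_add]
  · intro P hP hPb u hu hI
    let w : HeightOneSpectrum (𝓞 F) := ⟨P.comap (algebraMap (𝓞 F) (𝓞 N)), Ideal.comap_isPrime _ _,
      Ideal.IsIntegral.comap_ne_bot _ hPb⟩
    have h1 := hunr w N r hd P hP hPb (fun x => Iff.rfl) u hu hI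
    have h2 : u r = (algebraMap F N z0) ^ 0 * r := by rw [h1, pow_zero, one_mul]
    rw [chr_eq hz' hr h2, Nat.cast_zero]

theorem chr_J {l : ℕ} (hl : l ≠ 0) {z0 : F} (hz : IsPrimitiveRoot z0 l) {r : N}
    (hr : r ≠ 0) {d : F} (hd : r ^ l = algebraMap F N d) {J : F ≃+* F} (hJz : J z0 = z0⁻¹)
    (hJ : ∃ c : F, J d = c ^ l * d) {t : N ≃+* N} (ht : H68TL.Ext t J) {u : N ≃+* N}
    (hu : H68TL.Fx F u) :
    chr l (algebraMap F N z0) r (t * u * t⁻¹) = -chr l (algebraMap F N z0) r u := by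
  have hl' : NeZero l := ⟨hl⟩
  have hz' : IsPrimitiveRoot (algebraMap F N z0) l := hz.map_of_injective (algebraMap F N).injective
  obtain ⟨c, hc⟩ := hJ
  have hr' : t r ≠ 0 := by
    rw [Ne, EmbeddingLike.map_eq_zero_iff]
    exact hr
  have h1 : (t r) ^ l = (algebraMap F N c * r) ^ l := by
    rw [← map_pow, hd, ht d, hc, mul_pow, hd, map_mul, map_pow]
  have hc0 : algebraMap F N c * r ≠ 0 := by
    intro h
    rw [h, zero_pow hl] at h1
    exact hr' (pow_eq_zero_iff hl |>.1 h1)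
  obtain ⟨m, -, hm⟩ := hz'.eq_pow_of_pow_eq_one (ξ := t r / (algebraMap F N c * r)) (by
    rw [div_pow, h1, div_self (pow_ne_zero l hc0)])
  obtain ⟨c', hc'⟩ : ∃ c' : F, t r = algebraMap F N c' * r := by
    refine ⟨z0 ^ m * c, ?_⟩
    rw [map_mul, map_pow, hm, mul_assoc, div_mul_cancel₀ _ hc0]
  have hc'0 : c' ≠ 0 := by
    intro h
    rw [h, map_zero, zero_mul] at hc'
    exact hr' hc'
  have hc'1 : algebraMap F N c' ≠ 0 := (map_ne_zero _).2 hc'0
  obtain ⟨x, hx⟩ := J.surjective c'⁻¹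
  have h2 : t (algebraMap F N x * r) = r := by
    rw [map_mul, ht x, hx, hc', map_inv₀, ← mul_assoc, inv_mul_cancel₀ hc'1, one_mul]
  have h3 : t⁻¹ r = algebraMap F N x * r := by
    conv_lhs => rw [← h2]
    exact t.symm_apply_apply _
  obtain ⟨k, hk⟩ := exists_k hl hz' hr hd hu
  have hzl : (algebraMap F N z0) ^ l = 1 := hz'.pow_eq_one
  have hz0 : algebraMap F N z0 ≠ 0 := hz'.ne_zero hl
  have h4 : (algebraMap F N z0) ^ (l - 1) = (algebraMap F N z0)⁻¹ := by
    apply eq_inv_of_mul_eq_one_left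
    rw [← pow_succ, Nat.sub_add_cancel (Nat.pos_of_ne_zero hl), hzl]
  have h5 : (t * u * t⁻¹) r = (algebraMap F N z0) ^ ((l - 1) * k) * r := by
    change t (u (t⁻¹ r)) = _
    rw [h3, map_mul, map_mul, hu x, hk, map_mul, ht x, hx, map_pow, ht z0,
      hJz, hc', map_inv₀, map_inv₀, pow_mul, h4]
    field_simp
  rw [chr_eq hz' hr h5, chr_eq hz' hr hk, Nat.cast_mul, Nat.cast_sub (Nat.pos_of_ne_zero hl), ZMod.natCast_self,
    Nat.cast_one, zero_sub, neg_one_mul]

end

end H78D
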